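import Pool.Agent.Work.MP_c3e920_pr.Eucl

open MeasureTheory ProbabilityTheory Filter Topology
open scoped ENNReal NNReal

namespace Pool.Agent.SFP

variable {d : ℕ}

/-- distance kernel -/
noncomputable def kern (a : ℝ) (x y : Fin d → ℤ) : ℝ≥0∞ :=
  if x = y then 0 else ENNReal.ofReal (eucl (x - y)) ^ (-a)

/-- total mass of the distance kernel -/
noncomputable def zsum (d : ℕ) (a : ℝ) : ℝ≥0∞ :=
  ∑' x : Fin d → ℤ, (if x = 0 then 0 else ENNReal.ofReal (eucl x) ^ (-a))

lemma tsum_kern (a : ℝ) (x : Fin d → ℤ) : ∑' y, kern a x y = zsum d a := by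
  unfold zsum
  rw [← (Equiv.subLeft x).tsum_eq (fun z : Fin d → ℤ =>
    if z = 0 then (0 : ℝ≥0∞) else ENNReal.ofReal (eucl z) ^ (-a))]
  apply tsum_congr
  intro y
  simp only [kern, Equiv.subLeft_apply, sub_eq_zero]

lemma tsum_ball_le (r : ℕ) :
    ∑' x : Fin d → ℤ, (if eucl x ≤ r then (1 : ℝ≥0∞) else 0) ≤ ((2 * r + 1) ^ d : ℕ) := by
  rw [tsum_eq_sum (s := ballF d r)]
  · calc ∑ x ∈ ballF d r, (if eucl x ≤ r then (1 : ℝ≥0∞) else 0)
        ≤ ∑ x ∈ ballF d r, 1 := by
          apply Finset.sum_le_sum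
          intro x _
          split_ifs <;> simp
      _ = ((2 * r + 1) ^ d : ℕ) := by
          rw [Finset.sum_const, card_ballF]; simp
  · intro x hx
    rw [if_neg]
    intro h
    exact hx (mem_ballF_of_eucl_le h)

lemma tsum_paths (a : ℝ) (r : ℕ) (j : ℕ) :
    ∑' x : Fin (j + 1) → (Fin d → ℤ), (if eucl (x 0) ≤ r then (1 : ℝ≥0∞) else 0) *
      ∏ i : Fin j, kern a (x i.castSucc) (x i.succ) ≤
    ((2 * r + 1) ^ d : ℕ) * (zsum d a) ^ j := by
  induction j with
  | zero =>
    simp only [Finset.univ_eq_empty, Finset.prod_empty, mul_one, pow_zero]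
    rw [← (Equiv.funUnique (Fin 1) (Fin d → ℤ)).symm.tsum_eq]
    refine le_trans (le_of_eq ?_) (tsum_ball_le r)
    apply tsum_congr
    intro y
    simp
  | succ j ih =>
    rw [← (Fin.snocEquiv (fun _ : Fin (j + 1 + 1) => (Fin d → ℤ))).tsum_eq]
    rw [ENNReal.tsum_prod']
    rw [ENNReal.tsum_comm]
    calc ∑' (x : Fin (j + 1) → (Fin d → ℤ)) (y : Fin d → ℤ),
          (if eucl ((Fin.snocEquiv (fun _ : Fin (j + 1 + 1) => (Fin d → ℤ))) (y, x) 0) ≤ r
            then (1 : ℝ≥0∞) else 0) *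
          ∏ i : Fin (j + 1),
            kern a ((Fin.snocEquiv (fun _ : Fin (j + 1 + 1) => (Fin d → ℤ))) (y, x) i.castSucc)
              ((Fin.snocEquiv (fun _ : Fin (j + 1 + 1) => (Fin d → ℤ))) (y, x) i.succ)
        = ∑' (x : Fin (j + 1) → (Fin d → ℤ)),
          ((if eucl (x 0) ≤ r then (1 : ℝ≥0∞) else 0) *
            ∏ i : Fin j, kern a (x i.castSucc) (x i.succ)) * zsum d a := by
          apply tsum_congr
          intro x
          rw [← tsum_kern a (x (Fin.last j)), ← ENNReal.tsum_mul_left]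
          apply tsum_congr
          intro y
          have hs : ∀ i : Fin (j + 1),
              (Fin.snocEquiv (fun _ : Fin (j + 1 + 1) => (Fin d → ℤ))) (y, x) i.castSucc = x i := by
            intro i
            exact Fin.snoc_castSucc (α := fun _ => (Fin d → ℤ)) y x i
          have hl : (Fin.snocEquiv (fun _ : Fin (j + 1 + 1) => (Fin d → ℤ))) (y, x)
              (Fin.last (j + 1)) = y := Fin.snoc_last (α := fun _ => (Fin d → ℤ)) y x
          rw [Fin.prod_univ_castSucc]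
          have h0 : (Fin.snocEquiv (fun _ : Fin (j + 1 + 1) => (Fin d → ℤ))) (y, x) 0 = x 0 := by
            have := hs 0
            simpa using this
          rw [h0, hs, Fin.succ_last, hl, mul_assoc]
          congr 2
          apply Finset.prod_congr rfl
          intro i _
          rw [hs, Fin.succ_castSucc, hs]
      _ = (∑' (x : Fin (j + 1) → (Fin d → ℤ)),
          (if eucl (x 0) ≤ r then (1 : ℝ≥0∞) else 0) *
            ∏ i : Fin j, kern a (x i.castSucc) (x i.succ)) * zsum d a := ENNReal.tsum_mul_right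
      _ ≤ ((2 * r + 1) ^ d : ℕ) * (zsum d a) ^ j * zsum d a := by gcongr
      _ = ((2 * r + 1) ^ d : ℕ) * (zsum d a) ^ (j + 1) := by rw [pow_succ, mul_assoc]

/-- the edges of a self-avoiding path are distinct -/
lemma edge_injective {j : ℕ} {x : Fin (j + 1) → (Fin d → ℤ)} (hx : Function.Injective x) :
    Function.Injective (fun i : Fin j => s(x i.castSucc, x i.succ)) := by
  intro a b hab
  simp only [Sym2.eq_iff] at hab
  rcases hab with ⟨h, -⟩ | ⟨h1, h2⟩
  · exact Fin.castSucc_injective _ (hx h)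
  · have e1 := congrArg Fin.val (hx h1)
    have e2 := congrArg Fin.val (hx h2)
    simp at e1 e2
    omega

section
variable {Ω : Type*} [MeasurableSpace Ω] {P : Measure Ω}
  {W : (Fin d → ℤ) → Ω → ℝ} {U L : Sym2 (Fin d → ℤ) → Ω → ℝ} {μ ν : Measure ℝ}

/-- expectation of a product over a self-avoiding path -/
lemma lintegral_path [IsProbabilityMeasure P] (h : IsWeightedSFP P W U L μ ν) {j : ℕ}
    {x : Fin (j + 1) → (Fin d → ℤ)}
    (hx : Function.Injective x) (f : Fin (j + 1) → ℝ → ℝ≥0∞) (hf : ∀ i, Measurable (f i))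
    {g g' : ℝ → ℝ≥0∞} (hg : Measurable g) (hg' : Measurable g') :
    ∫⁻ ω, (∏ i, f i (W (x i) ω)) *
      ((∏ i : Fin j, g (U s(x i.castSucc, x i.succ) ω)) *
        ∏ i : Fin j, g' (L s(x i.castSucc, x i.succ) ω)) ∂P =
    (∏ i, ∫⁻ t, f i t ∂μ) * ((∫⁻ t in Set.Icc (0 : ℝ) 1, g t) ^ j * (∫⁻ t, g' t ∂ν) ^ j) := by
  classical
  let emb : Fin (j + 1) ⊕ (Fin j ⊕ Fin j) →
      (Fin d → ℤ) ⊕ (Sym2 (Fin d → ℤ) ⊕ Sym2 (Fin d → ℤ)) :=
    Sum.map x (Sum.map (fun i => s(x i.castSucc, x i.succ)) (fun i => s(x i.castSucc, x i.succ)))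
  have hemb : Function.Injective emb :=
    Sum.map_injective.mpr ⟨hx, Sum.map_injective.mpr ⟨edge_injective hx, edge_injective hx⟩⟩
  let φ : Fin (j + 1) ⊕ (Fin j ⊕ Fin j) → ℝ → ℝ≥0∞ :=
    Sum.elim f (Sum.elim (fun _ => g) (fun _ => g'))
  have hφ : ∀ k, Measurable (φ k) := by
    rintro (i | i | i)
    · exact hf i
    · exact hg
    · exact hg'
  have hX : ∀ k, Measurable (fun ω => Sum.elim W (Sum.elim U L) (emb k) ω) := by
    rintro (i | i | i)
    · exact h.measurable_W _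
    · exact h.measurable_U _
    · exact h.measurable_L _
  have hind := (h.indep.precomp hemb).comp φ hφ
  have key := lintegral_prod_eq_prod_lintegral_of_indepFun Finset.univ _ hind
    (fun k => (hφ k).comp (hX k))
  simp only [Fintype.prod_sum_type] at key
  have e1 : ∀ i, ∫⁻ ω, f i (W (x i) ω) ∂P = ∫⁻ t, f i t ∂μ := by
    intro i
    rw [← h.law_W (x i), lintegral_map (hf i) (h.measurable_W _)]
  have e2 : ∀ i : Fin j, ∫⁻ ω, g (U s(x i.castSucc, x i.succ) ω) ∂P
      = ∫⁻ t in Set.Icc (0 : ℝ) 1, g t := by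
    intro i
    rw [← h.law_U s(x i.castSucc, x i.succ), lintegral_map hg (h.measurable_U _)]
  have e3 : ∀ i : Fin j, ∫⁻ ω, g' (L s(x i.castSucc, x i.succ) ω) ∂P = ∫⁻ t, g' t ∂ν := by
    intro i
    rw [← h.law_L s(x i.castSucc, x i.succ), lintegral_map hg' (h.measurable_L _)]
  calc _ = _ := key
    _ = _ := by
      congr 1
      · apply Finset.prod_congr rfl
        intro i _
        exact e1 i
      · congr 1
        · calc _ = ∏ i : Fin j, ∫⁻ t in Set.Icc (0 : ℝ) 1, g t := by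
                apply Finset.prod_congr rfl
                intro i _
                exact e2 i
            _ = _ := by simp
        · calc _ = ∏ i : Fin j, ∫⁻ t, g' t ∂ν := by
                apply Finset.prod_congr rfl
                intro i _
                exact e3 i
            _ = _ := by simp

/-- union bound over all self-avoiding paths of `j` steps started in the ball of radius `r` -/
lemma measure_paths_le [IsProbabilityMeasure P] (h : IsWeightedSFP P W U L μ ν) (j r : ℕ) (a : ℝ)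
    (S : (Fin (j + 1) → (Fin d → ℤ)) → Set Ω)
    (f : Fin (j + 1) → ℝ → ℝ≥0∞) (hf : ∀ i, Measurable (f i))
    {g g' : ℝ → ℝ≥0∞} (hg : Measurable g) (hg' : Measurable g') (C : ℝ≥0∞)
    (hS : ∀ᵐ ω ∂P, ∀ x : Fin (j + 1) → (Fin d → ℤ), Function.Injective x → eucl (x 0) ≤ r →
      ω ∈ S x → 1 ≤ (C * ∏ i : Fin j, kern a (x i.castSucc) (x i.succ)) *
        ((∏ i, f i (W (x i) ω)) *
      ((∏ i : Fin j, g (U s(x i.castSucc, x i.succ) ω)) *
        ∏ i : Fin j, g' (L s(x i.castSucc, x i.succ) ω)))) :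
    P {ω | ∃ x : Fin (j + 1) → (Fin d → ℤ), Function.Injective x ∧ eucl (x 0) ≤ r ∧ ω ∈ S x} ≤
      C * (((2 * r + 1) ^ d : ℕ) * (zsum d a) ^ j) *
      ((∏ i, ∫⁻ t, f i t ∂μ) *
        ((∫⁻ t in Set.Icc (0 : ℝ) 1, g t) ^ j * (∫⁻ t, g' t ∂ν) ^ j)) := by
  classical
  set E : ℝ≥0∞ := ((∏ i, ∫⁻ t, f i t ∂μ) *
        ((∫⁻ t in Set.Icc (0 : ℝ) 1, g t) ^ j * (∫⁻ t, g' t ∂ν) ^ j)) with hE
  let F : (Fin (j + 1) → (Fin d → ℤ)) → Ω → ℝ≥0∞ := fun x ω =>
    (∏ i, f i (W (x i) ω)) *
      ((∏ i : Fin j, g (U s(x i.castSucc, x i.succ) ω)) *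
        ∏ i : Fin j, g' (L s(x i.castSucc, x i.succ) ω))
  have hFm : ∀ x, Measurable (F x) := by
    intro x
    apply Measurable.mul
    · exact Finset.measurable_prod _ (fun i _ => (hf i).comp (h.measurable_W _))
    · apply Measurable.mul
      · exact Finset.measurable_prod _ (fun i _ => hg.comp (h.measurable_U _))
      · exact Finset.measurable_prod _ (fun i _ => hg'.comp (h.measurable_L _))
  have hsub : {ω | ∃ x : Fin (j + 1) → (Fin d → ℤ), Function.Injective x ∧ eucl (x 0) ≤ r ∧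
      ω ∈ S x} ⊆ ⋃ x : Fin (j + 1) → (Fin d → ℤ),
        {ω | Function.Injective x ∧ eucl (x 0) ≤ r ∧ ω ∈ S x} := by
    rintro ω ⟨x, hx⟩
    exact Set.mem_iUnion.mpr ⟨x, hx⟩
  calc P {ω | ∃ x : Fin (j + 1) → (Fin d → ℤ), Function.Injective x ∧ eucl (x 0) ≤ r ∧ ω ∈ S x}
      ≤ P (⋃ x : Fin (j + 1) → (Fin d → ℤ),
        {ω | Function.Injective x ∧ eucl (x 0) ≤ r ∧ ω ∈ S x}) := measure_mono hsub
    _ ≤ ∑' x : Fin (j + 1) → (Fin d → ℤ),
        P {ω | Function.Injective x ∧ eucl (x 0) ≤ r ∧ ω ∈ S x} := measure_iUnion_le _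
    _ ≤ ∑' x : Fin (j + 1) → (Fin d → ℤ), ((if eucl (x 0) ≤ r then (1 : ℝ≥0∞) else 0) *
        ∏ i : Fin j, kern a (x i.castSucc) (x i.succ)) * (C * E) := by
        apply ENNReal.tsum_le_tsum
        intro x
        by_cases hx : Function.Injective x ∧ eucl (x 0) ≤ r
        · rw [if_pos hx.2, one_mul]
          have h1 : P {ω | Function.Injective x ∧ eucl (x 0) ≤ r ∧ ω ∈ S x} ≤
              P {ω | 1 ≤ (C * ∏ i : Fin j, kern a (x i.castSucc) (x i.succ)) * F x ω} := by
            apply measure_mono_ae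
            filter_upwards [hS] with ω hω hmem
            exact hω x hmem.1 hmem.2.1 hmem.2.2
          refine h1.trans ?_
          have h2 := meas_ge_le_lintegral_div (μ := P)
            (f := fun ω => (C * ∏ i : Fin j, kern a (x i.castSucc) (x i.succ)) * F x ω)
            ((hFm x).const_mul _).aemeasurable (ε := 1) one_ne_zero ENNReal.one_ne_top
          refine h2.trans ?_
          rw [div_one, lintegral_const_mul _ (hFm x)]
          have h3 : ∫⁻ ω, F x ω ∂P = E := lintegral_path h hx.1 f hf hg hg'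
          rw [h3]
          apply le_of_eq
          ring
        · have : {ω | Function.Injective x ∧ eucl (x 0) ≤ r ∧ ω ∈ S x} = ∅ := by
            ext ω
            simp only [Set.mem_setOf_eq, Set.mem_empty_iff_false, iff_false]
            rintro ⟨h1, h2, -⟩
            exact hx ⟨h1, h2⟩
          rw [this]
          simp
    _ = (∑' x : Fin (j + 1) → (Fin d → ℤ), ((if eucl (x 0) ≤ r then (1 : ℝ≥0∞) else 0) *
        ∏ i : Fin j, kern a (x i.castSucc) (x i.succ))) * (C * E) := ENNReal.tsum_mul_right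
    _ ≤ (((2 * r + 1) ^ d : ℕ) * (zsum d a) ^ j) * (C * E) := by
        gcongr
        exact tsum_paths a r j
    _ = _ := by ring

end

end Pool.Agent.SFP
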