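import Pool.Agent.Work.MP_c3e920_pr.Defs

open MeasureTheory ProbabilityTheory Filter Topology
open scoped ENNReal NNReal

namespace Pool.Agent.SFP

/-! ### geometric comparison of sequences -/

lemma geom_upper {a : ℕ → ℝ} (ha1 : ∀ k, a k ≤ 1) (hapos : ∀ k, 0 < a k) {L ρ : ℝ}
    (hlim : Tendsto (fun k => a (k + 1) / a k) atTop (𝓝 L)) (hL : L < ρ) (hρ0 : 0 < ρ) (hρ : ρ ≤ 1) :
    ∃ C : ℝ, 0 < C ∧ ∀ k, a k ≤ C * ρ ^ k := by
  have h1 : ∀ᶠ k in atTop, a (k + 1) / a k < ρ := hlim.eventually (gt_mem_nhds hL)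
  obtain ⟨K, hK⟩ := eventually_atTop.mp h1
  refine ⟨(ρ ^ K)⁻¹, by positivity, fun k => ?_⟩
  rcases le_total k K with hk | hk
  · have h2 : ρ ^ K ≤ ρ ^ k := pow_le_pow_of_le_one hρ0.le hρ hk
    calc a k ≤ 1 := ha1 k
      _ = (ρ ^ K)⁻¹ * ρ ^ K := by field_simp
      _ ≤ (ρ ^ K)⁻¹ * ρ ^ k := by gcongr
  · induction k, hk using Nat.le_induction with
    | base =>
      calc a K ≤ 1 := ha1 K
        _ = (ρ ^ K)⁻¹ * ρ ^ K := by field_simp
    | succ k hk ih =>
      have h3 := hK k hk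
      rw [div_lt_iff₀ (hapos k)] at h3
      calc a (k + 1) ≤ ρ * a k := h3.le
        _ ≤ ρ * ((ρ ^ K)⁻¹ * ρ ^ k) := by gcongr
        _ = (ρ ^ K)⁻¹ * ρ ^ (k + 1) := by ring

lemma geom_lower {a : ℕ → ℝ} (hanti : Antitone a) (hapos : ∀ k, 0 < a k) {L ρ : ℝ}
    (hlim : Tendsto (fun k => a (k + 1) / a k) atTop (𝓝 L)) (hL : ρ < L) (hρ0 : 0 < ρ) (hρ : ρ ≤ 1) :
    ∃ c : ℝ, 0 < c ∧ ∀ k, c * ρ ^ k ≤ a k := by
  have h1 : ∀ᶠ k in atTop, ρ < a (k + 1) / a k := hlim.eventually (lt_mem_nhds hL)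
  obtain ⟨K, hK⟩ := eventually_atTop.mp h1
  refine ⟨a K, hapos K, fun k => ?_⟩
  rcases le_total k K with hk | hk
  · calc a K * ρ ^ k ≤ a K * 1 := by
          gcongr
          · exact (hapos K).le
          · exact pow_le_one₀ hρ0.le hρ
      _ = a K := mul_one _
      _ ≤ a k := hanti hk
  · induction k, hk using Nat.le_induction with
    | base =>
      calc a K * ρ ^ K ≤ a K * 1 := by
            gcongr
            · exact (hapos K).le
            · exact pow_le_one₀ hρ0.le hρ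
        _ = a K := mul_one _
    | succ k hk ih =>
      have h3 := hK k hk
      rw [lt_div_iff₀ (hapos k)] at h3
      calc a K * ρ ^ (k + 1) = ρ * (a K * ρ ^ k) := by ring
        _ ≤ ρ * a k := by gcongr
        _ ≤ a (k + 1) := h3.le

/-! ### tails of the vertex weights -/

section weights

variable {μ : Measure ℝ} [IsProbabilityMeasure μ] {ell : ℝ → ℝ} {β : ℝ}

/-- dyadic tail -/
noncomputable def tl (μ : Measure ℝ) (k : ℕ) : ℝ := μ.real (Set.Ioi ((2 : ℝ) ^ k))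

lemma tl_anti : Antitone (tl μ) := by
  intro a b hab
  unfold tl
  refine measureReal_mono (Set.Ioi_subset_Ioi ?_) (measure_ne_top _ _)
  exact pow_le_pow_right₀ (by norm_num) hab

lemma tl_le_one (k : ℕ) : tl μ k ≤ 1 := measureReal_le_one

lemma tl_ratio (hell : SlowlyVarying ell)
    (hμ : ∀ t : ℝ, 1 ≤ t → μ.real (Set.Ioi t) = ell t * t ^ (-β)) :
    Tendsto (fun k => tl μ (k + 1) / tl μ k) atTop (𝓝 ((2 : ℝ) ^ (-β))) := by
  have h1 := hell 2 (by norm_num)
  have h2 : Tendsto (fun k : ℕ => (2 : ℝ) ^ k) atTop atTop :=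
    tendsto_pow_atTop_atTop_of_one_lt (by norm_num)
  have h3 := h1.comp h2
  have h4 : Tendsto (fun k : ℕ => ell (2 * 2 ^ k) / ell (2 ^ k) * (2 : ℝ) ^ (-β)) atTop
      (𝓝 (1 * (2 : ℝ) ^ (-β))) := h3.mul_const _
  rw [one_mul] at h4
  refine h4.congr ?_
  intro k
  have hk1 : (1 : ℝ) ≤ 2 ^ k := one_le_pow₀ (by norm_num)
  have hk2 : (1 : ℝ) ≤ 2 ^ (k + 1) := one_le_pow₀ (by norm_num)
  unfold tl
  rw [hμ _ hk1, hμ _ hk2]
  have hk3 : ((2 : ℝ) ^ (k + 1)) ^ (-β) = (2 : ℝ) ^ (-β) * ((2 : ℝ) ^ k) ^ (-β) := by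
    rw [pow_succ, Real.mul_rpow (by positivity) (by norm_num), mul_comm]
  have hk4 : ((2 : ℝ) ^ k) ^ (-β) ≠ 0 := (Real.rpow_pos_of_pos (by positivity) _).ne'
  rw [hk3, pow_succ, mul_comm (2 ^ k) 2]
  by_cases h0 : ell (2 ^ k) = 0
  · simp [h0]
  · field_simp

lemma tl_pos (hell : SlowlyVarying ell)
    (hμ : ∀ t : ℝ, 1 ≤ t → μ.real (Set.Ioi t) = ell t * t ^ (-β)) (k : ℕ) : 0 < tl μ k := by
  by_contra hk
  have hk0 : tl μ k = 0 := le_antisymm (not_lt.mp hk) measureReal_nonneg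
  have hall : ∀ n ≥ k, tl μ n = 0 := by
    intro n hn
    exact le_antisymm ((tl_anti hn).trans hk0.le) measureReal_nonneg
  have h1 := tl_ratio hell hμ
  have h2 : Tendsto (fun k => tl μ (k + 1) / tl μ k) atTop (𝓝 0) := by
    apply tendsto_const_nhds.congr'
    filter_upwards [eventually_ge_atTop k] with n hn
    rw [hall n hn]; simp
  have := tendsto_nhds_unique h1 h2
  exact (Real.rpow_pos_of_pos (by norm_num : (0 : ℝ) < 2) _).ne' this

lemma tl_upper (hell : SlowlyVarying ell)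
    (hμ : ∀ t : ℝ, 1 ≤ t → μ.real (Set.Ioi t) = ell t * t ^ (-β)) {p : ℝ} (hp0 : 0 ≤ p)
    (hp : p < β) : ∃ C : ℝ, 0 < C ∧ ∀ k : ℕ, tl μ k ≤ C * ((2 : ℝ) ^ (-p)) ^ k := by
  apply geom_upper tl_le_one (tl_pos hell hμ) (tl_ratio hell hμ)
  · exact Real.rpow_lt_rpow_of_exponent_lt (by norm_num) (by linarith)
  · positivity
  · exact Real.rpow_le_one_of_one_le_of_nonpos (by norm_num) (by linarith)

lemma tl_lower (hell : SlowlyVarying ell)
    (hμ : ∀ t : ℝ, 1 ≤ t → μ.real (Set.Ioi t) = ell t * t ^ (-β)) {p : ℝ} (hp0 : 0 ≤ p)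
    (hp : β < p) : ∃ c : ℝ, 0 < c ∧ ∀ k : ℕ, c * ((2 : ℝ) ^ (-p)) ^ k ≤ tl μ k := by
  apply geom_lower tl_anti (tl_pos hell hμ) (tl_ratio hell hμ)
  · exact Real.rpow_lt_rpow_of_exponent_lt (by norm_num) (by linarith)
  · positivity
  · exact Real.rpow_le_one_of_one_le_of_nonpos (by norm_num) (by linarith)

/-- the `p`-th moment -/
noncomputable def mom (μ : Measure ℝ) (p : ℝ) : ℝ≥0∞ :=
  ∫⁻ t in Set.Ici (1 : ℝ), ENNReal.ofReal (t ^ p) ∂μ

lemma measurable_ofReal_rpow (p : ℝ) : Measurable fun t : ℝ => ENNReal.ofReal (t ^ p) :=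
  ENNReal.measurable_ofReal.comp (measurable_id.pow_const p)

lemma mom_lt_top (hell : SlowlyVarying ell)
    (hμ : ∀ t : ℝ, 1 ≤ t → μ.real (Set.Ioi t) = ell t * t ^ (-β)) {p : ℝ} (hp0 : 0 ≤ p)
    (hp : p < β) : mom μ p < ∞ := by
  obtain ⟨q, hpq, hqβ⟩ := exists_between hp
  obtain ⟨C, hC, hCk⟩ := tl_upper hell hμ (hp0.trans hpq.le) hqβ
  -- pointwise bound
  have hpt : ∀ t : ℝ, t ∈ Set.Ici (1 : ℝ) → ENNReal.ofReal (t ^ p) ≤
      1 + ∑' k : ℕ, (Set.Ioi ((2 : ℝ) ^ k)).indicator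
        (fun _ => ENNReal.ofReal (((2 : ℝ) ^ (k + 1)) ^ p)) t := by
    intro t ht
    rw [Set.mem_Ici] at ht
    rcases eq_or_lt_of_le ht with h1 | h1
    · rw [← h1]; simp
    · obtain ⟨k, hk1, hk2⟩ : ∃ k : ℕ, (2 : ℝ) ^ k < t ∧ t ≤ 2 ^ (k + 1) := by
        have hex : ∃ n : ℕ, t ≤ (2 : ℝ) ^ n := by
          obtain ⟨n, hn⟩ := pow_unbounded_of_one_lt t (by norm_num : (1 : ℝ) < 2)
          exact ⟨n, hn.le⟩
        classical
        have hspec := Nat.find_spec hex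
        have hmin := fun m => Nat.find_min hex (m := m)
        rcases hn : Nat.find hex with _ | n
        · rw [hn] at hspec
          simp at hspec
          linarith
        · refine ⟨n, ?_, ?_⟩
          · have := hmin n (by omega)
            exact not_le.mp this
          · rw [hn] at hspec; exact hspec
      have h2 : ENNReal.ofReal (t ^ p) ≤ (Set.Ioi ((2 : ℝ) ^ k)).indicator
        (fun _ => ENNReal.ofReal (((2 : ℝ) ^ (k + 1)) ^ p)) t := by
        rw [Set.indicator_of_mem (Set.mem_Ioi.mpr hk1)]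
        apply ENNReal.ofReal_le_ofReal
        exact Real.rpow_le_rpow (by linarith) hk2 hp0
      exact h2.trans ((ENNReal.le_tsum (f := fun k : ℕ => (Set.Ioi ((2 : ℝ) ^ k)).indicator
        (fun _ => ENNReal.ofReal (((2 : ℝ) ^ (k + 1)) ^ p)) t) k).trans le_add_self)
  have hbound : mom μ p ≤ 1 + ∑' k : ℕ, ENNReal.ofReal (((2 : ℝ) ^ (k + 1)) ^ p) *
      μ (Set.Ioi ((2 : ℝ) ^ k)) := by
    calc mom μ p ≤ ∫⁻ t in Set.Ici (1 : ℝ), (1 + ∑' k : ℕ, (Set.Ioi ((2 : ℝ) ^ k)).indicator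
        (fun _ => ENNReal.ofReal (((2 : ℝ) ^ (k + 1)) ^ p)) t) ∂μ :=
          setLIntegral_mono' measurableSet_Ici hpt
      _ ≤ ∫⁻ t, (1 + ∑' k : ℕ, (Set.Ioi ((2 : ℝ) ^ k)).indicator
        (fun _ => ENNReal.ofReal (((2 : ℝ) ^ (k + 1)) ^ p)) t) ∂μ := setLIntegral_le_lintegral _ _
      _ = _ := by
        rw [lintegral_add_left measurable_const, lintegral_tsum]
        · simp only [lintegral_const, measure_univ, mul_one]
          congr 1
          apply tsum_congr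
          intro k
          rw [lintegral_indicator measurableSet_Ioi]
          simp
        · intro k
          exact (measurable_const.indicator measurableSet_Ioi).aemeasurable
  refine lt_of_le_of_lt hbound ?_
  refine ENNReal.add_lt_top.mpr ⟨ENNReal.one_lt_top, ?_⟩
  have hsum : Summable fun k : ℕ => ((2 : ℝ) ^ p * C) * ((2 : ℝ) ^ (p - q)) ^ k := by
    apply Summable.mul_left
    apply summable_geometric_of_lt_one (by positivity)
    exact Real.rpow_lt_one_of_one_lt_of_neg (by norm_num) (by linarith)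
  have hle : ∑' k : ℕ, ENNReal.ofReal (((2 : ℝ) ^ (k + 1)) ^ p) * μ (Set.Ioi ((2 : ℝ) ^ k)) ≤
      ∑' k : ℕ, ENNReal.ofReal (((2 : ℝ) ^ p * C) * ((2 : ℝ) ^ (p - q)) ^ k) := by
    apply ENNReal.tsum_le_tsum
    intro k
    have h1 : μ (Set.Ioi ((2 : ℝ) ^ k)) ≤ ENNReal.ofReal (C * ((2 : ℝ) ^ (-q)) ^ k) := by
      rw [← ENNReal.ofReal_toReal (measure_ne_top μ (Set.Ioi ((2 : ℝ) ^ k)))]
      exact ENNReal.ofReal_le_ofReal (hCk k)
    calc ENNReal.ofReal (((2 : ℝ) ^ (k + 1)) ^ p) * μ (Set.Ioi ((2 : ℝ) ^ k))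
        ≤ ENNReal.ofReal (((2 : ℝ) ^ (k + 1)) ^ p) * ENNReal.ofReal (C * ((2 : ℝ) ^ (-q)) ^ k) := by
          gcongr
      _ = ENNReal.ofReal (((2 : ℝ) ^ (k + 1)) ^ p * (C * ((2 : ℝ) ^ (-q)) ^ k)) := by
          rw [ENNReal.ofReal_mul (p := ((2 : ℝ) ^ (k + 1)) ^ p) (by positivity)]
      _ = _ := by
          congr 1
          have e1 : ((2 : ℝ) ^ (k + 1)) ^ p = (2 : ℝ) ^ p * ((2 : ℝ) ^ p) ^ k := by
            rw [← Real.rpow_natCast, ← Real.rpow_mul (by norm_num), ← Real.rpow_natCast,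
              ← Real.rpow_mul (by norm_num), ← Real.rpow_add (by norm_num)]
            congr 1
            push_cast
            ring
          have e2 : ((2 : ℝ) ^ (p - q)) ^ k = ((2 : ℝ) ^ p) ^ k * ((2 : ℝ) ^ (-q)) ^ k := by
            rw [← mul_pow, ← Real.rpow_add (by norm_num)]
            rfl
          rw [e1, e2]
          ring
  refine lt_of_le_of_lt hle ?_
  rw [← ENNReal.ofReal_tsum_of_nonneg (fun k => by positivity) hsum]
  exact ENNReal.ofReal_lt_top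

/-- truncated moment of higher order -/
lemma trunc_mom_le {p q T : ℝ} (hpq : p ≤ q) :
    ∫⁻ t, (Set.Icc (1 : ℝ) T).indicator (fun t => ENNReal.ofReal (t ^ q)) t ∂μ ≤
      ENNReal.ofReal (T ^ (q - p)) * mom μ p := by
  rw [lintegral_indicator measurableSet_Icc, mom, ← lintegral_const_mul _ (measurable_ofReal_rpow p)]
  calc ∫⁻ t in Set.Icc (1 : ℝ) T, ENNReal.ofReal (t ^ q) ∂μ
      ≤ ∫⁻ t in Set.Icc (1 : ℝ) T, ENNReal.ofReal (T ^ (q - p)) * ENNReal.ofReal (t ^ p) ∂μ := by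
        apply setLIntegral_mono' measurableSet_Icc
        intro t ht
        have ht0 : 0 < t := lt_of_lt_of_le one_pos ht.1
        rw [← ENNReal.ofReal_mul (Real.rpow_nonneg (ht0.le.trans ht.2) _)]
        apply ENNReal.ofReal_le_ofReal
        have e : t ^ q = t ^ (q - p) * t ^ p := by
          rw [← Real.rpow_add ht0]; congr 1; ring
        rw [e]
        gcongr ?_ * _
        exact Real.rpow_le_rpow ht0.le ht.2 (by linarith)
    _ ≤ ∫⁻ t in Set.Ici (1 : ℝ), ENNReal.ofReal (T ^ (q - p)) * ENNReal.ofReal (t ^ p) ∂μ :=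
        lintegral_mono_set Set.Icc_subset_Ici_self

/-- tail part of a moment of lower order -/
lemma tail_mom_le {p s T : ℝ} (hsp : s ≤ p) (hT : 1 ≤ T) :
    ∫⁻ t, (Set.Ioi T).indicator (fun t => ENNReal.ofReal (t ^ s)) t ∂μ ≤
      ENNReal.ofReal (T ^ (s - p)) * mom μ p := by
  rw [lintegral_indicator measurableSet_Ioi, mom, ← lintegral_const_mul _ (measurable_ofReal_rpow p)]
  calc ∫⁻ t in Set.Ioi T, ENNReal.ofReal (t ^ s) ∂μ
      ≤ ∫⁻ t in Set.Ioi T, ENNReal.ofReal (T ^ (s - p)) * ENNReal.ofReal (t ^ p) ∂μ := by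
        apply setLIntegral_mono' measurableSet_Ioi
        intro t ht
        have hTt : T < t := ht
        have ht0 : 0 < t := by linarith
        have hT0 : 0 < T := by linarith
        rw [← ENNReal.ofReal_mul (Real.rpow_nonneg hT0.le _)]
        apply ENNReal.ofReal_le_ofReal
        have e : t ^ s = t ^ (s - p) * t ^ p := by
          rw [← Real.rpow_add ht0]; congr 1; ring
        rw [e]
        gcongr ?_ * _
        exact Real.rpow_le_rpow_of_nonpos hT0 hTt.le (by linarith)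
    _ ≤ ∫⁻ t in Set.Ici (1 : ℝ), ENNReal.ofReal (T ^ (s - p)) * ENNReal.ofReal (t ^ p) ∂μ := by
        apply lintegral_mono_set
        intro t ht
        have : T < t := ht
        exact (hT.trans this.le)

end weights

/-! ### the uniform variables -/

/-- the function compensating the uniform variable -/
noncomputable def gU (s : ℝ) (t : ℝ) : ℝ≥0∞ := ENNReal.ofReal (1 + t ^ (-s))

lemma measurable_gU (s : ℝ) : Measurable (gU s) :=
  ENNReal.measurable_ofReal.comp ((measurable_id.pow_const (-s)).const_add 1)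

lemma lintegral_gU_lt_top {s : ℝ} (hs : s < 1) :
    ∫⁻ t in Set.Icc (0 : ℝ) 1, gU s t < ∞ := by
  have h1 : IntervalIntegrable (fun t : ℝ => 1 + t ^ (-s)) volume 0 1 :=
    intervalIntegrable_const.add (intervalIntegral.intervalIntegrable_rpow' (by linarith))
  have h2 : IntegrableOn (fun t : ℝ => 1 + t ^ (-s)) (Set.Icc 0 1) volume := by
    rw [integrableOn_Icc_iff_integrableOn_Ioc]
    exact (intervalIntegrable_iff_integrableOn_Ioc_of_le (by norm_num)).mp h1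
  refine lt_of_le_of_lt ?_ h2.2
  apply lintegral_mono
  intro t
  unfold gU
  exact Real.ofReal_le_enorm _

end Pool.Agent.SFP
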