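import Pool.Agent.Work.MP_c3e920_pr.Defs

open MeasureTheory ProbabilityTheory Filter Topology
open scoped ENNReal NNReal

namespace Pool.Agent.SFP

variable {ν : Measure ℝ} [IsProbabilityMeasure ν]

/-- distribution function -/
noncomputable def cdfR (ν : Measure ℝ) (t : ℝ) : ℝ := ν.real (Set.Iic t)

omit [IsProbabilityMeasure ν] in
lemma cdfR_nonneg (t : ℝ) : 0 ≤ cdfR ν t := measureReal_nonneg

lemma cdfR_le_one (t : ℝ) : cdfR ν t ≤ 1 := measureReal_le_one

lemma cdfR_mono : Monotone (cdfR ν) := by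
  intro a b hab
  exact measureReal_mono (Set.Iic_subset_Iic.mpr hab) (measure_ne_top _ _)

lemma cdfR_eq (t : ℝ) : cdfR ν t = cdf ν t := (cdf_eq_real ν t).symm

lemma exists_ge_cdfR {y : ℝ} (hy : y < 1) : ∃ t, y ≤ cdfR ν t := by
  have h := tendsto_cdf_atTop ν
  have h2 : ∀ᶠ t in atTop, y < cdf ν t := h.eventually (lt_mem_nhds hy)
  obtain ⟨t, ht⟩ := h2.exists
  exact ⟨t, by rw [cdfR_eq]; exact ht.le⟩

omit [IsProbabilityMeasure ν] in
lemma cdfR_zero (h : LogSlowAtZero ν) : cdfR ν 0 = 0 := by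
  simp [cdfR, measureReal_def, h.pos_support]

lemma cdfR_nonpos (h : LogSlowAtZero ν) {t : ℝ} (ht : t ≤ 0) : cdfR ν t = 0 :=
  le_antisymm ((cdfR_mono ht).trans (cdfR_zero h).le) (cdfR_nonneg t)

lemma tendsto_cdfR_zero (h : LogSlowAtZero ν) : Tendsto (cdfR ν) (𝓝[>] 0) (𝓝 0) := by
  have h1 := (cdf ν).right_continuous 0
  have h2 : Tendsto (cdf ν) (𝓝[>] 0) (𝓝 (cdf ν 0)) := by
    exact (h1.mono_left (nhdsWithin_mono _ Set.Ioi_subset_Ici_self))
  rw [← cdfR_eq, cdfR_zero h] at h2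
  refine h2.congr ?_
  intro t; rw [cdfR_eq]

lemma quantile_bddBelow (h : LogSlowAtZero ν) {y : ℝ} (hy : 0 < y) :
    BddBelow {t : ℝ | y ≤ ν.real (Set.Iic t)} := by
  refine ⟨0, ?_⟩
  intro t ht
  by_contra hlt
  push Not at hlt
  have h1 := cdfR_nonpos h hlt.le
  have h2 : y ≤ cdfR ν t := ht
  linarith

lemma quantile_le (h : LogSlowAtZero ν) {y t : ℝ} (hy : 0 < y) (ht : y ≤ cdfR ν t) :
    quantile ν y ≤ t := csInf_le (quantile_bddBelow h hy) ht

lemma lt_of_lt_quantile (h : LogSlowAtZero ν) {y t : ℝ} (hy : 0 < y) (ht : t < quantile ν y) :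
    cdfR ν t < y := by
  by_contra hle
  push Not at hle
  exact absurd (quantile_le h hy hle) (not_le.mpr ht)

lemma le_cdfR_quantile (h : LogSlowAtZero ν) {y : ℝ} (hy : 0 < y) (hy1 : y < 1) :
    y ≤ cdfR ν (quantile ν y) := by
  by_contra hlt
  push Not at hlt
  have hrc := (cdf ν).right_continuous (quantile ν y)
  have h1 : ∀ᶠ t in 𝓝[≥] (quantile ν y), cdf ν t < y := by
    have : Tendsto (cdf ν) (𝓝[≥] (quantile ν y)) (𝓝 (cdf ν (quantile ν y))) := hrc
    refine this.eventually_lt_const ?_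
    rw [← cdfR_eq]; exact hlt
  have hne : {t : ℝ | y ≤ ν.real (Set.Iic t)}.Nonempty := by
    obtain ⟨t, ht⟩ := exists_ge_cdfR (ν := ν) hy1
    exact ⟨t, ht⟩
  rw [eventually_nhdsWithin_iff, Metric.eventually_nhds_iff] at h1
  obtain ⟨ε, hε, hball⟩ := h1
  obtain ⟨t, ht, htlt⟩ := exists_lt_of_csInf_lt hne
    (show sInf {t : ℝ | y ≤ ν.real (Set.Iic t)} < quantile ν y + ε by
      unfold quantile; linarith)
  have htge : quantile ν y ≤ t := quantile_le h hy ht
  have := hball (y := t) (by rw [Real.dist_eq, abs_lt]; constructor <;> linarith) htge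
  rw [← cdfR_eq] at this
  have h2 : y ≤ cdfR ν t := ht
  linarith

lemma quantile_pos (h : LogSlowAtZero ν) {y : ℝ} (hy : 0 < y) (hy1 : y < 1) :
    0 < quantile ν y := by
  by_contra hle
  push Not at hle
  have h1 := le_cdfR_quantile h hy hy1
  rw [cdfR_nonpos h hle] at h1
  linarith

lemma quantile_nonneg (h : LogSlowAtZero ν) {y : ℝ} (hy : 0 < y) : 0 ≤ quantile ν y := by
  apply Real.sInf_nonneg
  intro t ht
  by_contra hlt
  push Not at hlt
  have h1 := cdfR_nonpos h hlt.le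
  have h2 : y ≤ cdfR ν t := ht
  linarith

lemma quantile_mono (h : LogSlowAtZero ν) {y y' : ℝ} (hy : 0 < y) (hyy' : y ≤ y') (hy1 : y' < 1) :
    quantile ν y ≤ quantile ν y' :=
  quantile_le h hy (hyy'.trans (le_cdfR_quantile h (hy.trans_le hyy') hy1))

/-- slow variation gives a power comparison -/
lemma cdfR_two_mul_le (h : LogSlowAtZero ν) {ε : ℝ} (hε : 0 < ε) :
    ∃ δ > 0, ∀ t, 0 < t → t < δ → cdfR ν (2 * t) ≤ (cdfR ν t) ^ (1 - ε) := by
  have h1 : ∀ᶠ t in 𝓝[>] (0 : ℝ), 1 - ε <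
      Real.log (ν.real (Set.Iic (2 * t))) / Real.log (ν.real (Set.Iic t)) :=
    h.slow.eventually (lt_mem_nhds (by linarith))
  have h2 : ∀ᶠ t in 𝓝[>] (0 : ℝ), cdfR ν t < 1 :=
    (tendsto_cdfR_zero h).eventually (gt_mem_nhds one_pos)
  have h3 := h1.and h2
  rw [eventually_nhdsWithin_iff, Metric.eventually_nhds_iff] at h3
  obtain ⟨δ, hδ, hball⟩ := h3
  refine ⟨δ, hδ, fun t ht0 htδ => ?_⟩
  obtain ⟨ha, hb⟩ := hball (y := t) (by rw [Real.dist_eq, sub_zero, abs_of_pos ht0]; exact htδ) ht0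
  have hpos : 0 < cdfR ν t := h.charges t ht0
  have hpos2 : 0 < cdfR ν (2 * t) := h.charges (2 * t) (by linarith)
  have hlog : Real.log (cdfR ν t) < 0 := Real.log_neg hpos hb
  have h4 : Real.log (cdfR ν (2 * t)) ≤ (1 - ε) * Real.log (cdfR ν t) := by
    have : 1 - ε < Real.log (cdfR ν (2 * t)) / Real.log (cdfR ν t) := ha
    rw [lt_div_iff_of_neg hlog] at this
    exact this.le
  rw [← Real.log_rpow hpos] at h4
  exact (Real.log_le_log_iff hpos2 (Real.rpow_pos_of_pos hpos _)).mp h4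

lemma quantile_small (h : LogSlowAtZero ν) {δ : ℝ} (hδ : 0 < δ) :
    ∃ u₀ > 0, u₀ < 1 ∧ ∀ u, 0 < u → u < u₀ → quantile ν u < δ := by
  refine ⟨min (cdfR ν (δ / 2)) (1 / 2), ?_, ?_, ?_⟩
  · exact lt_min (h.charges _ (by linarith)) (by norm_num)
  · exact lt_of_le_of_lt (min_le_right _ _) (by norm_num)
  · intro u hu0 hu
    have := quantile_le h hu0 (hu.le.trans (min_le_left _ _))
    linarith

/-- halving property of the quantile -/
lemma quantile_halving (h : LogSlowAtZero ν) {η : ℝ} (hη : 0 < η) :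
    ∃ u₀ > 0, u₀ < 1 ∧ ∀ u u', 0 < u → u < u₀ → 0 < u' → u' ≤ u ^ (1 + η) →
      quantile ν u' ≤ quantile ν u / 2 := by
  obtain ⟨δ, hδ, hδ'⟩ := cdfR_two_mul_le h (ε := η / (1 + η)) (by positivity)
  obtain ⟨u₀, hu₀, hu₀1, hsm⟩ := quantile_small h hδ
  refine ⟨u₀, hu₀, hu₀1, fun u u' hu0 hu hu'0 hu' => ?_⟩
  have hu1 : u < 1 := hu.trans hu₀1
  have hqpos := quantile_pos h hu0 hu1
  apply quantile_le h hu'0
  have h1 := hδ' (quantile ν u / 2) (by linarith) (by have := hsm u hu0 hu; linarith)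
  rw [show 2 * (quantile ν u / 2) = quantile ν u by ring] at h1
  have h2 := le_cdfR_quantile h hu0 hu1
  have h3 : u ≤ (cdfR ν (quantile ν u / 2)) ^ (1 - η / (1 + η)) := h2.trans h1
  have h4 : u ^ (1 + η) ≤ ((cdfR ν (quantile ν u / 2)) ^ (1 - η / (1 + η))) ^ (1 + η) :=
    Real.rpow_le_rpow hu0.le h3 (by linarith)
  rw [← Real.rpow_mul (cdfR_nonneg _)] at h4
  have h5 : (1 - η / (1 + η)) * (1 + η) = 1 := by field_simp; ring
  rw [h5, Real.rpow_one] at h4
  exact hu'.trans h4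

/-- the distribution function at twice the quantile -/
lemma cdfR_two_quantile (h : LogSlowAtZero ν) {ε : ℝ} (hε : 0 < ε) (hε1 : ε < 1) :
    ∃ u₀ > 0, u₀ < 1 ∧ ∀ u, 0 < u → u < u₀ → cdfR ν (2 * quantile ν u) ≤ u ^ (1 - ε) := by
  obtain ⟨δ, hδ, hδ'⟩ := cdfR_two_mul_le h (ε := ε / 2) (by positivity)
  obtain ⟨u₀, hu₀, hu₀1, hsm⟩ := quantile_small h hδ
  refine ⟨u₀, hu₀, hu₀1, fun u hu0 hu => ?_⟩
  have hu1 : u < 1 := hu.trans hu₀1
  have hqpos := quantile_pos h hu0 hu1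
  have hq := hsm u hu0 hu
  have h1 := hδ' (quantile ν u / 2) (by linarith) (by linarith)
  rw [show 2 * (quantile ν u / 2) = quantile ν u by ring] at h1
  have h2 := hδ' (quantile ν u) (by linarith) (by linarith)
  have h3 := lt_of_lt_quantile h hu0 (t := quantile ν u / 2) (by linarith)
  calc cdfR ν (2 * quantile ν u) ≤ (cdfR ν (quantile ν u)) ^ (1 - ε / 2) := h2
    _ ≤ ((cdfR ν (quantile ν u / 2)) ^ (1 - ε / 2)) ^ (1 - ε / 2) :=
        Real.rpow_le_rpow (cdfR_nonneg _) h1 (by linarith)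
    _ ≤ (u ^ (1 - ε / 2)) ^ (1 - ε / 2) := by
        apply Real.rpow_le_rpow (Real.rpow_nonneg (cdfR_nonneg _) _) _ (by linarith)
        exact Real.rpow_le_rpow (cdfR_nonneg _) h3.le (by linarith)
    _ = u ^ ((1 - ε / 2) * (1 - ε / 2)) := by rw [← Real.rpow_mul hu0.le]
    _ ≤ u ^ (1 - ε) := by
        apply Real.rpow_le_rpow_of_exponent_ge hu0 hu1.le
        nlinarith

/-- the explosion integral is finite -/
lemma explosionIntegral_lt_top (h : LogSlowAtZero ν) : explosionIntegral ν < ∞ := by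
  obtain ⟨u₀, hu₀, hu₀1, hhalf⟩ := quantile_halving h (η := Real.exp 1 - 1)
    (by have := Real.add_one_le_exp (1 : ℝ); linarith)
  set f : ℝ → ℝ := fun y => quantile ν (Real.exp (-Real.exp y)) with hf
  have hupos : ∀ y, 0 < Real.exp (-Real.exp y) := fun y => Real.exp_pos _
  have hult : ∀ y, Real.exp (-Real.exp y) < 1 := fun y => by
    rw [Real.exp_lt_one_iff]; have := Real.exp_pos y; linarith
  have hfpos : ∀ y, 0 < f y := fun y => quantile_pos h (hupos y) (hult y)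
  have hfanti : Antitone f := by
    intro y y' hyy'
    apply quantile_mono h (hupos _) _ (hult _)
    exact Real.exp_le_exp.mpr (neg_le_neg (Real.exp_le_exp.mpr hyy'))
  -- eventually halving
  have hev : ∀ᶠ y in atTop, Real.exp (-Real.exp y) < u₀ := by
    have : Tendsto (fun y => Real.exp (-Real.exp y)) atTop (𝓝 0) :=
      Real.tendsto_exp_neg_atTop_nhds_zero.comp Real.tendsto_exp_atTop
    exact this.eventually (gt_mem_nhds hu₀)
  obtain ⟨y₀, hy₀⟩ := eventually_atTop.mp hev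
  obtain ⟨N, hN⟩ := exists_nat_ge y₀
  have hstep : ∀ n : ℕ, N ≤ n → f ((n : ℝ) + 1) ≤ f n / 2 := by
    intro n hn
    apply hhalf _ _ (hupos _) (hy₀ _ (hN.trans (by exact_mod_cast hn))) (hupos _)
    rw [← Real.exp_mul, Real.exp_add]
    apply le_of_eq
    congr 1
    ring
  have hbound : ∀ n : ℕ, f n ≤ (f 0 * 2 ^ N) * (1 / 2) ^ n := by
    intro n
    rcases le_total n N with hn | hn
    · calc f n ≤ f 0 := hfanti (by positivity)
        _ = f 0 * 2 ^ N * (1 / 2) ^ N := by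
          rw [mul_assoc, ← mul_pow]; norm_num
        _ ≤ (f 0 * 2 ^ N) * (1 / 2) ^ n := by
          apply mul_le_mul_of_nonneg_left
          · exact pow_le_pow_of_le_one (by norm_num) (by norm_num) hn
          · have := hfpos 0; positivity
    · induction n, hn using Nat.le_induction with
      | base =>
        calc f N ≤ f 0 := hfanti (by positivity)
          _ = f 0 * 2 ^ N * (1 / 2) ^ N := by
            rw [mul_assoc, ← mul_pow]; norm_num
      | succ n hn ih =>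
        push_cast
        calc f ((n : ℝ) + 1) ≤ f n / 2 := hstep n hn
          _ ≤ ((f 0 * 2 ^ N) * (1 / 2) ^ n) / 2 := by linarith
          _ = _ := by ring
  have hcover : Set.Ioi (0 : ℝ) ⊆ ⋃ n : ℕ, Set.Ico (n : ℝ) (n + 1) := by
    intro y hy
    have hy0 : (0 : ℝ) ≤ y := le_of_lt hy
    refine Set.mem_iUnion.mpr ⟨⌊y⌋₊, Nat.floor_le hy0, Nat.lt_floor_add_one y⟩
  unfold explosionIntegral
  calc ∫⁻ y in Set.Ioi (0 : ℝ), ENNReal.ofReal (f y)
      ≤ ∫⁻ y in ⋃ n : ℕ, Set.Ico (n : ℝ) (n + 1), ENNReal.ofReal (f y) :=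
        lintegral_mono_set hcover
    _ ≤ ∑' n : ℕ, ∫⁻ y in Set.Ico (n : ℝ) (n + 1), ENNReal.ofReal (f y) :=
        lintegral_iUnion_le _ _
    _ ≤ ∑' n : ℕ, ENNReal.ofReal ((f 0 * 2 ^ N) * (1 / 2) ^ n) := by
        apply ENNReal.tsum_le_tsum
        intro n
        calc ∫⁻ y in Set.Ico (n : ℝ) (n + 1), ENNReal.ofReal (f y)
            ≤ ∫⁻ y in Set.Ico (n : ℝ) (n + 1), ENNReal.ofReal ((f 0 * 2 ^ N) * (1 / 2) ^ n) := by
              apply setLIntegral_mono' measurableSet_Ico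
              intro y hy
              apply ENNReal.ofReal_le_ofReal
              exact (hfanti hy.1).trans (hbound n)
          _ = ENNReal.ofReal ((f 0 * 2 ^ N) * (1 / 2) ^ n) := by
              simp
    _ < ∞ := by
        have hs : Summable fun n : ℕ => (f 0 * 2 ^ N) * (1 / 2 : ℝ) ^ n :=
          (summable_geometric_of_lt_one (by norm_num) (by norm_num)).mul_left _
        rw [← ENNReal.ofReal_tsum_of_nonneg (fun n => by have := hfpos 0; positivity) hs]
        exact ENNReal.ofReal_lt_top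

/-- the function compensating the edge weights, for thresholds `T` and exponent `κ` -/
noncomputable def gL (T : ℕ → ℝ) (κ : ℝ) (t : ℝ) : ℝ≥0∞ :=
  1 + ∑' k : ℕ, (Set.Iic (T k)).indicator (fun _ => ENNReal.ofReal (((2 : ℝ) ^ κ) ^ k)) t

lemma measurable_gL (T : ℕ → ℝ) (κ : ℝ) : Measurable (gL T κ) := by
  unfold gL
  apply Measurable.const_add
  apply Measurable.tsum
  intro k
  exact measurable_const.indicator measurableSet_Iic

lemma lintegral_gL_lt_top {T : ℕ → ℝ} {κ θ : ℝ} (hκ : κ < θ) (k₀ : ℕ)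
    (hT : ∀ k ≥ k₀, cdfR ν (T k) ≤ ((2 : ℝ) ^ (-θ)) ^ k) (hθ : 0 ≤ θ) :
    ∫⁻ t, gL T κ t ∂ν < ∞ := by
  unfold gL
  rw [lintegral_add_left measurable_const, lintegral_tsum
    (fun k => (measurable_const.indicator measurableSet_Iic).aemeasurable)]
  simp only [lintegral_const, measure_univ, mul_one]
  refine ENNReal.add_lt_top.mpr ⟨ENNReal.one_lt_top, ?_⟩
  set A : ℝ := ((2 : ℝ) ^ θ) ^ k₀ with hA
  have hApos : 0 < A := by positivity
  have hTall : ∀ k, cdfR ν (T k) ≤ A * ((2 : ℝ) ^ (-θ)) ^ k := by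
    intro k
    rcases le_total k₀ k with hk | hk
    · refine (hT k hk).trans ?_
      have : 1 ≤ A := by
        rw [hA]
        exact one_le_pow₀ (Real.one_le_rpow (by norm_num) hθ)
      have h0 : 0 ≤ ((2 : ℝ) ^ (-θ)) ^ k := by positivity
      nlinarith
    · refine (cdfR_le_one _).trans ?_
      have h1 : ((2 : ℝ) ^ (-θ)) ^ k₀ ≤ ((2 : ℝ) ^ (-θ)) ^ k := by
        apply pow_le_pow_of_le_one (by positivity) _ hk
        exact Real.rpow_le_one_of_one_le_of_nonpos (by norm_num) (by linarith)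
      calc (1 : ℝ) = A * ((2 : ℝ) ^ (-θ)) ^ k₀ := by
            rw [hA, ← mul_pow, ← Real.rpow_add (by norm_num)]
            simp
        _ ≤ A * ((2 : ℝ) ^ (-θ)) ^ k := by gcongr
  calc ∑' k : ℕ, ∫⁻ t, (Set.Iic (T k)).indicator (fun _ => ENNReal.ofReal (((2 : ℝ) ^ κ) ^ k)) t ∂ν
      = ∑' k : ℕ, ENNReal.ofReal (((2 : ℝ) ^ κ) ^ k) * ν (Set.Iic (T k)) := by
        apply tsum_congr
        intro k
        rw [lintegral_indicator measurableSet_Iic]
        simp
    _ ≤ ∑' k : ℕ, ENNReal.ofReal (A * ((2 : ℝ) ^ (κ - θ)) ^ k) := by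
        apply ENNReal.tsum_le_tsum
        intro k
        have h1 : ν (Set.Iic (T k)) ≤ ENNReal.ofReal (A * ((2 : ℝ) ^ (-θ)) ^ k) := by
          rw [← ENNReal.ofReal_toReal (measure_ne_top ν (Set.Iic (T k)))]
          exact ENNReal.ofReal_le_ofReal (hTall k)
        calc ENNReal.ofReal (((2 : ℝ) ^ κ) ^ k) * ν (Set.Iic (T k))
            ≤ ENNReal.ofReal (((2 : ℝ) ^ κ) ^ k) * ENNReal.ofReal (A * ((2 : ℝ) ^ (-θ)) ^ k) := by
              gcongr
          _ = ENNReal.ofReal (((2 : ℝ) ^ κ) ^ k * (A * ((2 : ℝ) ^ (-θ)) ^ k)) := by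
              rw [ENNReal.ofReal_mul (p := ((2 : ℝ) ^ κ) ^ k) (by positivity)]
          _ = _ := by
              congr 1
              have : ((2 : ℝ) ^ (κ - θ)) ^ k = ((2 : ℝ) ^ κ) ^ k * ((2 : ℝ) ^ (-θ)) ^ k := by
                rw [← mul_pow, ← Real.rpow_add (by norm_num)]
                rfl
              rw [this]; ring
    _ < ∞ := by
        have hs : Summable fun k : ℕ => A * ((2 : ℝ) ^ (κ - θ)) ^ k := by
          apply Summable.mul_left
          apply summable_geometric_of_lt_one (by positivity)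
          exact Real.rpow_lt_one_of_one_lt_of_neg (by norm_num) (by linarith)
        rw [← ENNReal.ofReal_tsum_of_nonneg (fun k => by positivity) hs]
        exact ENNReal.ofReal_lt_top

end Pool.Agent.SFP
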