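import Pool.Agent.Work.MP_c3e920_pr.Chain
import Pool.Agent.Work.MP_c3e920_pr.FirstMoment
import Pool.Agent.Work.MP_c3e920_pr.Lengths
import Pool.Agent.Work.MP_c3e920_pr.Laws

open MeasureTheory ProbabilityTheory Filter Topology
open scoped ENNReal NNReal

namespace Pool.Agent.SFP

variable {d : ℕ}

/-- the cost of an edge -/
lemma one_le_edge {α lam s : ℝ} (hlam : 0 < lam) (hs : 0 ≤ s)
    {w : (Fin d → ℤ) → ℝ} {u : Sym2 (Fin d → ℤ) → ℝ} {x y : Fin d → ℤ} (hxy : x ≠ y)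
    (hwx : 1 ≤ w x) (hwy : 1 ≤ w y) (hu : 0 < u s(x, y)) (hadj : Adj α lam w u x y) :
    1 ≤ ENNReal.ofReal ((max lam 1) ^ s) * ENNReal.ofReal (w x ^ s) * ENNReal.ofReal (w y ^ s) *
      kern (α * s) x y * gU s (u s(x, y)) := by
  have hC1 : (1 : ℝ) ≤ max lam 1 := le_max_right _ _
  have hC0 : (0 : ℝ) < max lam 1 := by linarith
  have hwx0 : 0 < w x := by linarith
  have hwy0 : 0 < w y := by linarith
  have he1 : 1 ≤ eucl (x - y) := one_le_eucl_sub hxy
  have he0 : 0 < eucl (x - y) := by linarith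
  have hk : kern (α * s) x y = ENNReal.ofReal ((eucl (x - y)) ^ (-(α * s))) := by
    rw [kern, if_neg hxy, ENNReal.ofReal_rpow_of_pos he0]
  rw [hk, gU, ← ENNReal.ofReal_mul (by positivity), ← ENNReal.ofReal_mul (by positivity),
    ← ENNReal.ofReal_mul (by positivity), ← ENNReal.ofReal_mul (by positivity)]
  rw [← ENNReal.ofReal_one]
  apply ENNReal.ofReal_le_ofReal
  have hup : 0 < u s(x, y) ^ (-s) := Real.rpow_pos_of_pos hu _
  rcases hadj with h1 | ⟨h1, h2⟩
  · rw [h1, Real.one_rpow, mul_one]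
    have a1 : 1 ≤ (max lam 1) ^ s := Real.one_le_rpow hC1 hs
    have a2 : 1 ≤ w x ^ s := Real.one_le_rpow hwx hs
    have a3 : 1 ≤ w y ^ s := Real.one_le_rpow hwy hs
    have a4 : 1 ≤ (max lam 1) ^ s * w x ^ s := one_le_mul_of_one_le_of_one_le a1 a2
    have a5 : 1 ≤ (max lam 1) ^ s * w x ^ s * w y ^ s := one_le_mul_of_one_le_of_one_le a4 a3
    exact one_le_mul_of_one_le_of_one_le a5 (by linarith)
  · set z : ℝ := lam * w x * w y / eucl (x - y) ^ α with hz
    have hepos : 0 < eucl (x - y) ^ α := Real.rpow_pos_of_pos he0 _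
    have hz0 : 0 < z := by positivity
    have hz1 : 1 - Real.exp (-z) ≤ z := by
      have := Real.add_one_le_exp (-z); linarith
    have hlt : u s(x, y) < z := lt_of_lt_of_le h2 hz1
    have hzs : 1 ≤ z ^ s * u s(x, y) ^ (-s) := by
      rw [Real.rpow_neg hu.le, ← div_eq_mul_inv, ← Real.div_rpow hz0.le hu.le]
      apply Real.one_le_rpow _ hs
      rw [one_le_div hu]
      exact hlt.le
    have hzle : z ^ s ≤ (max lam 1) ^ s * w x ^ s * w y ^ s * eucl (x - y) ^ (-(α * s)) := by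
      have : z ≤ (max lam 1) * w x * w y / eucl (x - y) ^ α := by
        rw [hz]; gcongr; exact le_max_left _ _
      calc z ^ s ≤ ((max lam 1) * w x * w y / eucl (x - y) ^ α) ^ s :=
            Real.rpow_le_rpow hz0.le this hs
        _ = (max lam 1) ^ s * w x ^ s * w y ^ s * eucl (x - y) ^ (-(α * s)) := by
            rw [Real.div_rpow (by positivity) hepos.le, Real.mul_rpow (by positivity) hwy0.le,
              Real.mul_rpow hC0.le hwx0.le, ← Real.rpow_mul he0.le, Real.rpow_neg he0.le,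
              div_eq_mul_inv]
    have hnn : 0 ≤ (max lam 1) ^ s * w x ^ s * w y ^ s * eucl (x - y) ^ (-(α * s)) := by positivity
    calc 1 ≤ z ^ s * u s(x, y) ^ (-s) := hzs
      _ ≤ ((max lam 1) ^ s * w x ^ s * w y ^ s * eucl (x - y) ^ (-(α * s))) *
          u s(x, y) ^ (-s) := by gcongr
      _ ≤ _ := by
          gcongr
          linarith

/-- the cost of a short edge at a heavy vertex -/
lemma one_le_short {κ ρ w l : ℝ} {T : ℕ → ℝ} (hκ : 0 ≤ κ) (hρ : 1 ≤ ρ) (hw : 1 ≤ w)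
    (h : ρ ≤ w → l ≤ T (lev w)) :
    1 ≤ ENNReal.ofReal ((2 * ρ) ^ κ) * ENNReal.ofReal (w ^ (-κ)) * gL T κ l := by
  have hw0 : 0 < w := by linarith
  have hρ0 : 0 < ρ := by linarith
  have hgL1 : 1 ≤ gL T κ l := le_self_add
  rw [← ENNReal.ofReal_mul (by positivity)]
  rcases lt_or_ge w ρ with h1 | h1
  · have h2 : 1 ≤ ENNReal.ofReal ((2 * ρ) ^ κ * w ^ (-κ)) := by
      rw [← ENNReal.ofReal_one]
      apply ENNReal.ofReal_le_ofReal
      rw [Real.rpow_neg hw0.le, ← div_eq_mul_inv, ← Real.div_rpow (by positivity) hw0.le]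
      apply Real.one_le_rpow _ hκ
      rw [one_le_div hw0]
      linarith
    calc (1 : ℝ≥0∞) = 1 * 1 := (one_mul 1).symm
      _ ≤ _ := mul_le_mul' h2 hgL1
  · have h2 := h h1
    have h3 : ENNReal.ofReal (((2 : ℝ) ^ κ) ^ (lev w)) ≤ gL T κ l := by
      refine le_trans ?_ le_add_self
      refine le_trans ?_ (ENNReal.le_tsum (lev w))
      rw [Set.indicator_of_mem (Set.mem_Iic.mpr h2)]
    calc (1 : ℝ≥0∞) = ENNReal.ofReal 1 := ENNReal.ofReal_one.symm
      _ ≤ ENNReal.ofReal ((2 * ρ) ^ κ * w ^ (-κ) * ((2 : ℝ) ^ κ) ^ (lev w)) := by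
          apply ENNReal.ofReal_le_ofReal
          have h4 := (lev_spec hw).2
          have h5 : w / 2 ≤ (2 : ℝ) ^ (lev w) := by
            rw [pow_succ] at h4; linarith
          have h6 : (w / 2) ^ κ ≤ ((2 : ℝ) ^ κ) ^ (lev w) := by
            calc (w / 2) ^ κ ≤ ((2 : ℝ) ^ (lev w)) ^ κ :=
                  Real.rpow_le_rpow (by positivity) h5 hκ
              _ = ((2 : ℝ) ^ κ) ^ (lev w) := by
                  rw [← Real.rpow_natCast, ← Real.rpow_mul (by norm_num), ← Real.rpow_natCast,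
                    ← Real.rpow_mul (by norm_num), mul_comm]
          have h7 : (2 * ρ) ^ κ * w ^ (-κ) * (w / 2) ^ κ = ρ ^ κ := by
            rw [Real.rpow_neg hw0.le, Real.mul_rpow (by norm_num) hρ0.le,
              Real.div_rpow hw0.le (by norm_num)]
            have : w ^ κ ≠ 0 := (Real.rpow_pos_of_pos hw0 _).ne'
            have : (2 : ℝ) ^ κ ≠ 0 := (Real.rpow_pos_of_pos (by norm_num) _).ne'
            field_simp
          calc (1 : ℝ) ≤ ρ ^ κ := Real.one_le_rpow hρ hκ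
            _ = (2 * ρ) ^ κ * w ^ (-κ) * (w / 2) ^ κ := h7.symm
            _ ≤ _ := by gcongr
      _ = ENNReal.ofReal ((2 * ρ) ^ κ * w ^ (-κ)) * ENNReal.ofReal (((2 : ℝ) ^ κ) ^ (lev w)) := by
          rw [ENNReal.ofReal_mul (by positivity)]
      _ ≤ _ := by gcongr

section
variable {Ω : Type*} [mΩ : MeasurableSpace Ω] {P : Measure Ω}
  {W : (Fin d → ℤ) → Ω → ℝ} {U L : Sym2 (Fin d → ℤ) → Ω → ℝ} {μ ν : Measure ℝ}

/-- union bound over paths, with one function for all vertices but the last one -/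
lemma measure_paths_le' [IsProbabilityMeasure P] (h : IsWeightedSFP P W U L μ ν) (j r : ℕ) (a : ℝ)
    (S : (Fin (j + 1) → (Fin d → ℤ)) → Set Ω)
    {f fl : ℝ → ℝ≥0∞} (hf : Measurable f) (hfl : Measurable fl)
    {g g' : ℝ → ℝ≥0∞} (hg : Measurable g) (hg' : Measurable g') (C : ℝ≥0∞)
    (hS : ∀ᵐ ω ∂P, ∀ x : Fin (j + 1) → (Fin d → ℤ), Function.Injective x → eucl (x 0) ≤ r →
      ω ∈ S x → 1 ≤ (C * ∏ i : Fin j, kern a (x i.castSucc) (x i.succ)) *
        (((∏ i : Fin j, f (W (x i.castSucc) ω)) * fl (W (x (Fin.last j)) ω)) *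
      ((∏ i : Fin j, g (U s(x i.castSucc, x i.succ) ω)) *
        ∏ i : Fin j, g' (L s(x i.castSucc, x i.succ) ω)))) :
    P {ω | ∃ x : Fin (j + 1) → (Fin d → ℤ), Function.Injective x ∧ eucl (x 0) ≤ r ∧ ω ∈ S x} ≤
      C * (((2 * r + 1) ^ d : ℕ) * (zsum d a) ^ j) *
      (((∫⁻ t, f t ∂μ) ^ j * ∫⁻ t, fl t ∂μ) *
        ((∫⁻ t in Set.Icc (0 : ℝ) 1, g t) ^ j * (∫⁻ t, g' t ∂ν) ^ j)) := by
  classical
  let F : Fin (j + 1) → ℝ → ℝ≥0∞ := Fin.lastCases (motive := fun _ => ℝ → ℝ≥0∞) fl (fun _ => f)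
  have hFl : F (Fin.last j) = fl := by simp [F]
  have hFc : ∀ i : Fin j, F i.castSucc = f := by intro i; simp [F]
  have hF : ∀ i, Measurable (F i) := by
    intro i
    refine Fin.lastCases ?_ (fun i => ?_) i
    · rw [hFl]; exact hfl
    · rw [hFc]; exact hf
  have := measure_paths_le h j r a S F hF hg hg' C (by
    filter_upwards [hS] with ω hω x hx hxr hxS
    rw [Fin.prod_univ_castSucc]
    simp only [hFl, hFc]
    exact hω x hx hxr hxS)
  rw [Fin.prod_univ_castSucc] at this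
  simp only [hFl, hFc, Finset.prod_const, Finset.card_univ, Fintype.card_fin] at this
  exact this

/-- a.s. all vertex weights are at least one and all uniform variables are positive -/
lemma ae_basic [IsProbabilityMeasure P] (h : IsWeightedSFP P W U L μ ν)
    (hμ1 : μ (Set.Iio 1) = 0) :
    ∀ᵐ ω ∂P, (∀ x, 1 ≤ W x ω) ∧ (∀ e, 0 < U e ω) := by
  have h1 : ∀ᵐ ω ∂P, ∀ x, 1 ≤ W x ω := by
    rw [ae_all_iff]
    intro x
    have : ∀ᵐ t ∂(P.map (W x)), 1 ≤ t := by
      rw [h.law_W x, ae_iff]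
      have : {a : ℝ | ¬1 ≤ a} = Set.Iio 1 := by ext a; simp
      rw [this]; exact hμ1
    exact ae_of_ae_map (h.measurable_W x).aemeasurable this
  have hc : Countable (Sym2 (Fin d → ℤ)) := by
    unfold Sym2; infer_instance
  have h2 : ∀ᵐ ω ∂P, ∀ e, 0 < U e ω := by
    rw [ae_all_iff]
    intro e
    have : ∀ᵐ t ∂(P.map (U e)), 0 < t := by
      rw [h.law_U e, ae_iff]
      have : {a : ℝ | ¬0 < a} = Set.Iic 0 := by ext a; simp
      rw [this, Measure.restrict_apply measurableSet_Iic]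
      have : Set.Iic (0 : ℝ) ∩ Set.Icc 0 1 = {0} := by
        ext t
        simp only [Set.mem_inter_iff, Set.mem_Iic, Set.mem_Icc, Set.mem_singleton_iff]
        constructor
        · rintro ⟨h1, h2, -⟩; linarith
        · rintro rfl; norm_num
      rw [this]; simp
    exact ae_of_ae_map (h.measurable_U e).aemeasurable this
  filter_upwards [h1, h2] with ω a b
  exact ⟨a, b⟩

end

end Pool.Agent.SFP
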