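import Pool.Agent.Work.MP_c3e920_pr.Bad

open MeasureTheory ProbabilityTheory Filter Topology
open scoped ENNReal NNReal

namespace Pool.Agent.SFP

variable {d : ℕ}

section
variable {Ω : Type*} [mΩ : MeasurableSpace Ω] {P : Measure Ω}
  {W : (Fin d → ℤ) → Ω → ℝ} {U L : Sym2 (Fin d → ℤ) → Ω → ℝ} {μ ν : Measure ℝ}

/-- Borel-Cantelli from a polynomial bound -/
lemma bc_of_bound {E : ℕ → Set Ω} {K : ℝ≥0∞} (hK : K ≠ ∞) (r₀ : ℕ)
    (h : ∀ r ≥ r₀, P (E r) ≤ K * ENNReal.ofReal ((r : ℝ) ^ (-2 : ℝ))) :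
    ∀ᵐ ω ∂P, ∀ᶠ r in atTop, ω ∉ E r := by
  have hsum : ∑' k, P (E (k + r₀)) ≠ ∞ := by
    have hs : Summable fun n : ℕ => ((n : ℝ)) ^ (-2 : ℝ) :=
      Real.summable_nat_rpow.mpr (by norm_num)
    have hs' := (summable_nat_add_iff r₀).mpr hs
    refine ne_of_lt (lt_of_le_of_lt (ENNReal.tsum_le_tsum (fun k => h (k + r₀) (by omega))) ?_)
    rw [ENNReal.tsum_mul_left]
    apply ENNReal.mul_lt_top (lt_top_iff_ne_top.mpr hK)
    rw [← ENNReal.ofReal_tsum_of_nonneg (fun k => by positivity) hs']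
    exact ENNReal.ofReal_lt_top
  have := ae_eventually_notMem hsum
  filter_upwards [this] with ω hω
  obtain ⟨k, hk⟩ := eventually_atTop.mp hω
  refine eventually_atTop.mpr ⟨k + r₀, fun r hr => ?_⟩
  have := hk (r - r₀) (by omega)
  rwa [show r - r₀ + r₀ = r by omega] at this

lemma prod_succ_le {j : ℕ} (a : Fin (j + 1) → ℝ≥0∞) (h0 : 1 ≤ a 0) :
    ∏ i : Fin j, a i.succ ≤ (∏ i : Fin j, a i.castSucc) * a (Fin.last j) := by
  rw [← Fin.prod_univ_castSucc, Fin.prod_univ_succ]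
  calc ∏ i : Fin j, a i.succ = 1 * ∏ i : Fin j, a i.succ := (one_mul _).symm
    _ ≤ a 0 * ∏ i : Fin j, a i.succ := by gcongr

lemma one_le_prod_ennreal {j : ℕ} {a : Fin j → ℝ≥0∞} (h : ∀ i, 1 ≤ a i) : 1 ≤ ∏ i, a i := by
  calc (1 : ℝ≥0∞) = ∏ _i : Fin j, (1 : ℝ≥0∞) := by simp
    _ ≤ ∏ i, a i := Finset.prod_le_prod' (fun i _ => h i)

/-- first kind of bad path: a constrained path reaching a heavy vertex too quickly -/
def Bad1 (α lam C' ε : ℝ) (T : ℕ → ℝ) (W : (Fin d → ℤ) → Ω → ℝ)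
    (U L : Sym2 (Fin d → ℤ) → Ω → ℝ) (j r : ℕ) (x : Fin (j + 1) → (Fin d → ℤ)) : Set Ω :=
  {ω | (∀ i : Fin j, Adj α lam (fun x => W x ω) (fun e => U e ω) (x i.castSucc) (x i.succ)) ∧
    (∀ i : Fin j, W (x i.castSucc) ω ≤ (r : ℝ) ^ C') ∧
    (∀ i : Fin j, (r : ℝ) ^ ε ≤ W (x i.castSucc) ω →
      L s(x i.castSucc, x i.succ) ω ≤ T (lev (W (x i.castSucc) ω))) ∧
    (r : ℝ) ^ C' < W (x (Fin.last j)) ω}

theorem bad1 [IsProbabilityMeasure P] [IsProbabilityMeasure μ] [IsProbabilityMeasure ν]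
    (h : IsWeightedSFP P W U L μ ν) (hd : 1 ≤ d) {α lam β : ℝ} (hα : (d : ℝ) < α)
    (hlam : 0 < lam) (hβ1 : (d : ℝ) / α < β) (hβ2 : β < 2 * ((d : ℝ) / α)) {ell : ℝ → ℝ}
    (hell : SlowlyVarying ell) (hμ1 : μ (Set.Iio 1) = 0)
    (hμ : ∀ t : ℝ, 1 ≤ t → μ.real (Set.Ioi t) = ell t * t ^ (-β))
    {C' : ℝ} (hC'0 : 0 ≤ C') (hC' : (d : ℝ) + 3 ≤ C' * (β - (d : ℝ) / α)) (m : ℕ) :
    ∃ ε > 0, ∃ θ, 0 < θ ∧ θ < 2 * ((d : ℝ) / α) - β ∧
      ∀ T : ℕ → ℝ, (∃ k₀ : ℕ, ∀ k ≥ k₀, cdfR ν (T k) ≤ ((2 : ℝ) ^ (-θ)) ^ k) →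
      ∀ j ≤ m, ∀ᵐ ω ∂P, ∀ᶠ r : ℕ in atTop, ∀ x : Fin (j + 1) → (Fin d → ℤ),
        Function.Injective x → eucl (x 0) ≤ r → ω ∉ Bad1 α lam C' ε T W U L j r x := by
  have hd0 : (0 : ℝ) < d := by exact_mod_cast hd
  have hα0 : 0 < α := by linarith
  set s₀ : ℝ := (d : ℝ) / α with hs₀
  have hs₀pos : 0 < s₀ := by positivity
  have hs₀1 : s₀ < 1 := by rw [hs₀, div_lt_one hα0]; exact hα
  set θm : ℝ := 2 * s₀ - β with hθm
  have hθmpos : 0 < θm := by rw [hθm]; linarith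
  set Γ : ℝ := β - s₀ with hΓ
  have hΓpos : 0 < Γ := by rw [hΓ]; linarith
  set N : ℝ := m * (2 + 5 * C') + 2 * C' + 1 with hN
  have hNpos : 0 < N := by positivity
  set ε : ℝ := min (min (θm / 4) (Γ / 4)) (min ((1 - s₀) / 2) (1 / N)) with hε
  have hεpos : 0 < ε := by
    rw [hε]
    refine lt_min (lt_min (by linarith) (by linarith)) (lt_min (by linarith) (by positivity))
  have hε1 : ε ≤ θm / 4 := (min_le_left _ _).trans (min_le_left _ _)
  have hε2 : ε ≤ Γ / 4 := (min_le_left _ _).trans (min_le_right _ _)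
  have hε3 : ε ≤ (1 - s₀) / 2 := (min_le_right _ _).trans (min_le_left _ _)
  have hε4 : ε ≤ 1 / N := (min_le_right _ _).trans (min_le_right _ _)
  have hεN : ε * N ≤ 1 := by
    rw [le_div_iff₀ hNpos] at hε4; exact hε4
  set s : ℝ := s₀ + ε with hs
  set κ : ℝ := θm - 2 * ε with hκ
  have hκ0 : 0 ≤ κ := by rw [hκ]; linarith
  have hκ2 : κ ≤ 2 := by rw [hκ, hθm]; linarith
  set p : ℝ := β - ε with hp
  have hp0 : 0 ≤ p := by rw [hp]; linarith
  have hpβ : p < β := by rw [hp]; linarith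
  have hsp : s ≤ p := by rw [hs, hp]; linarith
  have hs0 : 0 ≤ s := by rw [hs]; linarith
  have hs1 : s < 1 := by rw [hs]; linarith
  refine ⟨ε, hεpos, θm - ε, by linarith, by linarith, ?_⟩
  intro T hT j hj
  -- the finite constants
  have hZ : zsum d (α * s) ≠ ∞ := by
    apply ne_of_lt
    apply tsum_eucl_rpow_lt_top
    have : α * s₀ = d := by rw [hs₀]; field_simp
    rw [hs, mul_add, this]
    nlinarith
  have hM : mom μ p ≠ ∞ := (mom_lt_top hell hμ hp0 hpβ).ne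
  have hGU : (∫⁻ t in Set.Icc (0 : ℝ) 1, gU s t) ≠ ∞ := (lintegral_gU_lt_top hs1).ne
  have hGL : (∫⁻ t, gL T κ t ∂ν) ≠ ∞ := by
    obtain ⟨k₀, hk₀⟩ := hT
    exact (lintegral_gL_lt_top (θ := θm - ε) (by linarith) k₀ hk₀ (by linarith)).ne
  set K : ℝ≥0∞ := ENNReal.ofReal (((max lam 1) ^ s * 2 ^ κ) ^ j * 3 ^ d) * (zsum d (α * s)) ^ j *
    ((mom μ p ^ j * mom μ p) * ((∫⁻ t in Set.Icc (0 : ℝ) 1, gU s t) ^ j *
      (∫⁻ t, gL T κ t ∂ν) ^ j)) with hK
  have hKtop : K ≠ ∞ := by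
    rw [hK]
    apply ENNReal.mul_ne_top
    · exact ENNReal.mul_ne_top ENNReal.ofReal_ne_top (ENNReal.pow_ne_top hZ)
    · apply ENNReal.mul_ne_top
      · exact ENNReal.mul_ne_top (ENNReal.pow_ne_top hM) hM
      · exact ENNReal.mul_ne_top (ENNReal.pow_ne_top hGU) (ENNReal.pow_ne_top hGL)
  have hbound : ∀ r ≥ 1, P {ω | ∃ x : Fin (j + 1) → (Fin d → ℤ), Function.Injective x ∧
      eucl (x 0) ≤ (r : ℕ) ∧ ω ∈ Bad1 α lam C' ε T W U L j r x} ≤
      K * ENNReal.ofReal ((r : ℝ) ^ (-2 : ℝ)) := by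
    intro r hr
    have hr1 : (1 : ℝ) ≤ r := by exact_mod_cast hr
    have hr0 : (0 : ℝ) < r := by linarith
    set R : ℝ := (r : ℝ) ^ C' with hR
    have hR1 : 1 ≤ R := Real.one_le_rpow hr1 hC'0
    have hR0 : 0 < R := by linarith
    set ρ : ℝ := (r : ℝ) ^ ε with hρ
    have hρ1 : 1 ≤ ρ := Real.one_le_rpow hr1 hεpos.le
    have hρ0 : 0 < ρ := by linarith
    set f : ℝ → ℝ≥0∞ := (Set.Icc (1 : ℝ) R).indicator (fun t => ENNReal.ofReal (t ^ (2 * s - κ)))
      with hf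
    set fl : ℝ → ℝ≥0∞ := (Set.Ioi R).indicator (fun t => ENNReal.ofReal (t ^ s)) with hfl
    have hfm : Measurable f := (measurable_ofReal_rpow _).indicator measurableSet_Icc
    have hflm : Measurable fl := (measurable_ofReal_rpow _).indicator measurableSet_Ioi
    set C : ℝ≥0∞ := (ENNReal.ofReal ((max lam 1) ^ s) * ENNReal.ofReal ((2 * ρ) ^ κ)) ^ j with hC
    have key := measure_paths_le' h j r (α * s) (Bad1 α lam C' ε T W U L j r) hfm hflm
      (measurable_gU s) (measurable_gL T κ) C (by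
      filter_upwards [ae_basic h hμ1] with ω hω x hxinj hx0 hbad
      obtain ⟨hW, hU⟩ := hω
      obtain ⟨hadj, hle, hshort, hbig⟩ := hbad
      set a : Fin (j + 1) → ℝ≥0∞ := fun i => ENNReal.ofReal (W (x i) ω ^ s) with ha
      have hne : ∀ i : Fin j, x i.castSucc ≠ x i.succ := by
        intro i hi
        have := hxinj hi
        exact absurd (congrArg Fin.val this) (by simp)
      have h1 : ∀ i : Fin j, 1 ≤ (ENNReal.ofReal ((max lam 1) ^ s) * a i.castSucc * a i.succ *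
          kern (α * s) (x i.castSucc) (x i.succ) * gU s (U s(x i.castSucc, x i.succ) ω)) *
          (ENNReal.ofReal ((2 * ρ) ^ κ) * ENNReal.ofReal (W (x i.castSucc) ω ^ (-κ)) *
            gL T κ (L s(x i.castSucc, x i.succ) ω)) := by
        intro i
        have e1 := one_le_edge (w := fun x => W x ω) (u := fun e => U e ω) hlam hs0 (hne i)
          (hW _) (hW _) (hU _) (hadj i)
        have e2 := one_le_short (T := T) hκ0 hρ1 (hW (x i.castSucc)) (hshort i)
        calc (1 : ℝ≥0∞) = 1 * 1 := (one_mul 1).symm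
          _ ≤ _ := mul_le_mul' e1 e2
      have h2 := one_le_prod_ennreal h1
      have h0 : 1 ≤ a 0 := by
        simp only [ha]
        rw [← ENNReal.ofReal_one]
        exact ENNReal.ofReal_le_ofReal (Real.one_le_rpow (hW _) hs0)
      have h3 := prod_succ_le a h0
      have h4 : ∀ i : Fin j, f (W (x i.castSucc) ω) =
          a i.castSucc * ENNReal.ofReal (W (x i.castSucc) ω ^ (-κ)) * a i.castSucc := by
        intro i
        have hw0 : 0 < W (x i.castSucc) ω := by linarith [hW (x i.castSucc)]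
        simp only [hf, ha]
        rw [Set.indicator_of_mem (Set.mem_Icc.mpr ⟨hW _, hle i⟩),
          ← ENNReal.ofReal_mul (by positivity), ← ENNReal.ofReal_mul (by positivity),
          ← Real.rpow_add hw0, ← Real.rpow_add hw0]
        congr 2
        ring
      have h5 : fl (W (x (Fin.last j)) ω) = a (Fin.last j) := by
        simp only [hfl, ha]
        rw [Set.indicator_of_mem (Set.mem_Ioi.mpr hbig)]
      rw [h5]
      simp only [h4]
      simp only [Finset.prod_mul_distrib, Finset.prod_const, Finset.card_univ,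
        Fintype.card_fin] at h2 ⊢
      rw [hC, mul_pow]
      refine h2.trans ?_
      set A1 := ∏ i : Fin j, a i.castSucc
      set A2 := ∏ i : Fin j, a i.succ
      set B1 := ∏ i : Fin j, ENNReal.ofReal (W (x i.castSucc) ω ^ (-κ))
      set K1 := ∏ i : Fin j, kern (α * s) (x i.castSucc) (x i.succ)
      set G1 := ∏ i : Fin j, gU s (U s(x i.castSucc, x i.succ) ω)
      set G2 := ∏ i : Fin j, gL T κ (L s(x i.castSucc, x i.succ) ω)
      set c1 := ENNReal.ofReal ((max lam 1) ^ s) ^ j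
      set c2 := ENNReal.ofReal ((2 * ρ) ^ κ) ^ j
      calc c1 * A1 * A2 * K1 * G1 * (c2 * B1 * G2)
          ≤ c1 * A1 * (A1 * a (Fin.last j)) * K1 * G1 * (c2 * B1 * G2) := by gcongr
        _ = c1 * c2 * K1 * (A1 * B1 * A1 * a (Fin.last j) * (G1 * G2)) := by ring)
    refine key.trans ?_
    have t1 : ∫⁻ t, f t ∂μ ≤ ENNReal.ofReal (R ^ (5 * ε)) * mom μ p := by
      have := trunc_mom_le (μ := μ) (p := p) (q := 2 * s - κ) (T := R)
        (by rw [hp, hs, hκ, hθm]; linarith)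
      have e : 2 * s - κ - p = 5 * ε := by rw [hp, hs, hκ, hθm]; ring
      rw [e] at this
      exact this
    have t2 : ∫⁻ t, fl t ∂μ ≤ ENNReal.ofReal (R ^ (s - p)) * mom μ p :=
      tail_mom_le hsp hR1
    calc C * (((2 * r + 1) ^ d : ℕ) * (zsum d (α * s)) ^ j) *
      (((∫⁻ t, f t ∂μ) ^ j * ∫⁻ t, fl t ∂μ) *
        ((∫⁻ t in Set.Icc (0 : ℝ) 1, gU s t) ^ j * (∫⁻ t, gL T κ t ∂ν) ^ j))
        ≤ C * (ENNReal.ofReal ((3 * r) ^ d) * (zsum d (α * s)) ^ j) *
      (((ENNReal.ofReal (R ^ (5 * ε)) * mom μ p) ^ j * (ENNReal.ofReal (R ^ (s - p)) * mom μ p)) *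
        ((∫⁻ t in Set.Icc (0 : ℝ) 1, gU s t) ^ j * (∫⁻ t, gL T κ t ∂ν) ^ j)) := by
          gcongr
          rw [← ENNReal.ofReal_natCast]
          apply ENNReal.ofReal_le_ofReal
          push_cast
          gcongr
          linarith
      _ = (C * (ENNReal.ofReal ((3 * r) ^ d) * (ENNReal.ofReal (R ^ (5 * ε)) ^ j *
            ENNReal.ofReal (R ^ (s - p))))) * ((zsum d (α * s)) ^ j *
          ((mom μ p ^ j * mom μ p) * ((∫⁻ t in Set.Icc (0 : ℝ) 1, gU s t) ^ j *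
            (∫⁻ t, gL T κ t ∂ν) ^ j))) := by ring
      _ ≤ (ENNReal.ofReal (((max lam 1) ^ s * 2 ^ κ) ^ j * 3 ^ d) *
            ENNReal.ofReal ((r : ℝ) ^ (-2 : ℝ))) * ((zsum d (α * s)) ^ j *
          ((mom μ p ^ j * mom μ p) * ((∫⁻ t in Set.Icc (0 : ℝ) 1, gU s t) ^ j *
            (∫⁻ t, gL T κ t ∂ν) ^ j))) := by
          gcongr ?_ * _
          have hmax : (0 : ℝ) < max lam 1 := lt_of_lt_of_le one_pos (le_max_right _ _)
          rw [hC, ← ENNReal.ofReal_mul (by positivity), ← ENNReal.ofReal_pow (by positivity),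
            ← ENNReal.ofReal_pow (by positivity), ← ENNReal.ofReal_mul (by positivity),
            ← ENNReal.ofReal_mul (by positivity), ← ENNReal.ofReal_mul (by positivity),
            ← ENNReal.ofReal_mul (by positivity)]
          apply ENNReal.ofReal_le_ofReal
          have e1 : (2 * ρ) ^ κ = 2 ^ κ * (r : ℝ) ^ (ε * κ) := by
            rw [Real.mul_rpow (by norm_num) hρ0.le, hρ, ← Real.rpow_mul hr0.le]
          have e2 : R ^ (5 * ε) = (r : ℝ) ^ (C' * (5 * ε)) := by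
            rw [hR, ← Real.rpow_mul hr0.le]
          have e3 : R ^ (s - p) = (r : ℝ) ^ (C' * (s - p)) := by
            rw [hR, ← Real.rpow_mul hr0.le]
          have e4 : (3 * (r : ℝ)) ^ d = 3 ^ d * (r : ℝ) ^ (d : ℝ) := by
            rw [mul_pow, Real.rpow_natCast]
          rw [e1, e2, e3, e4]
          have e5 : ((max lam 1) ^ s * (2 ^ κ * (r : ℝ) ^ (ε * κ))) ^ j *
              (3 ^ d * (r : ℝ) ^ (d : ℝ) * (((r : ℝ) ^ (C' * (5 * ε))) ^ j *
                (r : ℝ) ^ (C' * (s - p)))) =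
              ((max lam 1) ^ s * 2 ^ κ) ^ j * 3 ^ d *
                ((r : ℝ) ^ (ε * κ * j + d + C' * (5 * ε) * j + C' * (s - p))) := by
            rw [Real.rpow_add hr0, Real.rpow_add hr0, Real.rpow_add hr0,
              Real.rpow_mul hr0.le (ε * κ) j, Real.rpow_mul hr0.le (C' * (5 * ε)) j,
              Real.rpow_natCast, Real.rpow_natCast, Real.rpow_natCast, mul_pow, mul_pow, mul_pow]
            ring
          rw [e5]
          gcongr ?_ * ?_
          apply Real.rpow_le_rpow_of_exponent_le hr1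
          have hjm : (j : ℝ) ≤ m := by exact_mod_cast hj
          have i1 : ε * κ * j ≤ ε * (m * 2) := by
            have : κ * j ≤ m * 2 := by
              calc κ * j ≤ 2 * m := by gcongr
                _ = m * 2 := by ring
            calc ε * κ * j = ε * (κ * j) := by ring
              _ ≤ ε * (m * 2) := by gcongr
          have i2 : C' * (5 * ε) * j ≤ ε * (m * (5 * C')) := by
            calc C' * (5 * ε) * j = ε * (5 * C') * j := by ring
              _ ≤ ε * (5 * C') * m := by gcongr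
              _ = ε * (m * (5 * C')) := by ring
          have i3 : C' * (s - p) = ε * (2 * C') - C' * Γ := by
            rw [hs, hp, hΓ]; ring
          have i4 : ε * (m * 2) + ε * (m * (5 * C')) + ε * (2 * C') ≤ 1 := by
            have : ε * (m * 2) + ε * (m * (5 * C')) + ε * (2 * C') = ε * N - ε := by
              rw [hN]; ring
            rw [this]; linarith
          linarith
      _ = K * ENNReal.ofReal ((r : ℝ) ^ (-2 : ℝ)) := by rw [hK]; ring
  have hae := bc_of_bound hKtop 1 hbound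
  filter_upwards [hae] with ω hω
  filter_upwards [hω] with r hr x hx hx0 hbad
  exact hr ⟨x, hx, hx0, hbad⟩

end

end Pool.Agent.SFP
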