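import Pool.Agent.Work.MP_c3e920_pr.BadA

open MeasureTheory ProbabilityTheory Filter Topology
open scoped ENNReal NNReal

namespace Pool.Agent.SFP

variable {d : ℕ}

section
variable {Ω : Type*} [mΩ : MeasurableSpace Ω] {P : Measure Ω}
  {W : (Fin d → ℤ) → Ω → ℝ} {U L : Sym2 (Fin d → ℤ) → Ω → ℝ} {μ ν : Measure ℝ}

/-- second kind of bad path: a path with moderate weights which goes too far -/
def Bad2 (α lam C' : ℝ) (D : ℕ) (W : (Fin d → ℤ) → Ω → ℝ)
    (U : Sym2 (Fin d → ℤ) → Ω → ℝ) (j r : ℕ) (x : Fin (j + 1) → (Fin d → ℤ)) : Set Ω :=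
  {ω | (∀ i : Fin j, Adj α lam (fun x => W x ω) (fun e => U e ω) (x i.castSucc) (x i.succ)) ∧
    (∀ i, W (x i) ω ≤ (r : ℝ) ^ C') ∧ (r : ℝ) ^ D < eucl (x (Fin.last j))}

lemma eucl_last_le {j : ℕ} (x : Fin (j + 1) → (Fin d → ℤ)) :
    eucl (x (Fin.last j)) ≤ eucl (x 0) + ∑ i : Fin j, eucl (x i.castSucc - x i.succ) := by
  induction j with
  | zero => simp
  | succ j ih =>
    have h1 := ih (fun i => x i.castSucc)
    rw [Fin.sum_univ_castSucc]
    have h2 := eucl_le_add_sub (x (Fin.last j).castSucc) (x (Fin.last (j + 1)))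
    simp only [Fin.castSucc_zero] at h1
    have h3 : (Fin.last j).succ = Fin.last (j + 1) := rfl
    rw [h3]
    simp only [← Fin.succ_castSucc] at h1
    linarith

lemma sum_le_mul_prod {j : ℕ} {a : Fin j → ℝ} (ha : ∀ i, 1 ≤ a i) :
    ∑ i, a i ≤ j * ∏ i, a i := by
  have h : ∀ i ∈ Finset.univ, a i ≤ ∏ k, a k := by
    intro i _
    have hpos : ∀ k, 0 ≤ a k := fun k => zero_le_one.trans (ha k)
    calc a i = a i * 1 := (mul_one _).symm
      _ ≤ a i * ∏ k ∈ Finset.univ.erase i, a k := by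
          gcongr
          · exact hpos i
          · calc (1 : ℝ) = ∏ k ∈ Finset.univ.erase i, (1 : ℝ) := by simp
              _ ≤ _ := Finset.prod_le_prod (fun _ _ => zero_le_one) (fun k _ => ha k)
      _ = ∏ k, a k := Finset.mul_prod_erase _ _ (Finset.mem_univ i)
  calc ∑ i, a i ≤ ∑ _i : Fin j, ∏ k, a k := Finset.sum_le_sum h
    _ = j * ∏ i, a i := by simp

theorem bad2 [IsProbabilityMeasure P] [IsProbabilityMeasure μ] [IsProbabilityMeasure ν]
    (h : IsWeightedSFP P W U L μ ν) (hd : 1 ≤ d) {α lam : ℝ} (hα : (d : ℝ) < α)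
    (hlam : 0 < lam) (hμ1 : μ (Set.Iio 1) = 0)
    {C' : ℝ} (hC'0 : 0 ≤ C') (m D : ℕ) (hm : 1 ≤ m) (hD1 : 2 ≤ D)
    (hD : (d : ℝ) + 2 + 2 * C' * m ≤ (α * ((1 - (d : ℝ) / α) / 4)) * D) :
    ∀ j ≤ m, ∀ᵐ ω ∂P, ∀ᶠ r : ℕ in atTop, ∀ x : Fin (j + 1) → (Fin d → ℤ),
        Function.Injective x → eucl (x 0) ≤ r → ω ∉ Bad2 α lam C' D W U j r x := by
  have hd0 : (0 : ℝ) < d := by exact_mod_cast hd
  have hα0 : 0 < α := by linarith
  set s₀ : ℝ := (d : ℝ) / α with hs₀
  have hs₀pos : 0 < s₀ := by positivity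
  have hs₀1 : s₀ < 1 := by rw [hs₀, div_lt_one hα0]; exact hα
  set s : ℝ := (1 + s₀) / 2 with hs
  set s1 : ℝ := (1 + 3 * s₀) / 4 with hs1
  set ζ : ℝ := α * ((1 - s₀) / 4) with hζ
  have hζpos : 0 < ζ := by rw [hζ]; apply mul_pos hα0; linarith
  have hs0 : 0 ≤ s := by rw [hs]; linarith
  have hslt : s < 1 := by rw [hs]; linarith
  have hm0 : (0 : ℝ) < m := by exact_mod_cast hm
  intro j hj
  have hZ : zsum d (α * s1) ≠ ∞ := by
    apply ne_of_lt
    apply tsum_eucl_rpow_lt_top
    have : α * s₀ = d := by rw [hs₀]; field_simp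
    rw [hs1]
    nlinarith
  have hGU : (∫⁻ t in Set.Icc (0 : ℝ) 1, gU s t) ≠ ∞ := (lintegral_gU_lt_top hslt).ne
  set K : ℝ≥0∞ := ENNReal.ofReal (((max lam 1) ^ s) ^ j * (2 * m) ^ ζ * 3 ^ d) *
    (zsum d (α * s1)) ^ j * (∫⁻ t in Set.Icc (0 : ℝ) 1, gU s t) ^ j with hK
  have hKtop : K ≠ ∞ := by
    rw [hK]
    apply ENNReal.mul_ne_top
    · exact ENNReal.mul_ne_top ENNReal.ofReal_ne_top (ENNReal.pow_ne_top hZ)
    · exact ENNReal.pow_ne_top hGU
  have hbound : ∀ r ≥ 2, P {ω | ∃ x : Fin (j + 1) → (Fin d → ℤ), Function.Injective x ∧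
      eucl (x 0) ≤ (r : ℕ) ∧ ω ∈ Bad2 α lam C' D W U j r x} ≤
      K * ENNReal.ofReal ((r : ℝ) ^ (-2 : ℝ)) := by
    intro r hr
    have hr2 : (2 : ℝ) ≤ r := by exact_mod_cast hr
    have hr1 : (1 : ℝ) ≤ r := by linarith
    have hr0 : (0 : ℝ) < r := by linarith
    set R : ℝ := (r : ℝ) ^ C' with hR
    have hR1 : 1 ≤ R := Real.one_le_rpow hr1 hC'0
    have hR0 : 0 < R := by linarith
    set Q : ℝ := (r : ℝ) ^ D / (2 * m) with hQ
    have hQ0 : 0 < Q := by positivity
    have hrD : 2 * (r : ℝ) ≤ (r : ℝ) ^ D := by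
      calc 2 * (r : ℝ) ≤ r * r := by gcongr
        _ = (r : ℝ) ^ 2 := by ring
        _ ≤ (r : ℝ) ^ D := pow_le_pow_right₀ hr1 hD1
    set C : ℝ≥0∞ := (ENNReal.ofReal ((max lam 1) ^ s) * ENNReal.ofReal (R ^ s) *
      ENNReal.ofReal (R ^ s)) ^ j * ENNReal.ofReal (Q ^ (-ζ)) with hC
    have key := measure_paths_le' h j r (α * s1) (Bad2 α lam C' D W U j r)
      (f := fun _ => 1) (fl := fun _ => 1) measurable_const measurable_const
      (g := gU s) (g' := fun _ => 1)
      (measurable_gU s) measurable_const C (by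
      filter_upwards [ae_basic h hμ1] with ω hω x hxinj hx0 hbad
      obtain ⟨hW, hU⟩ := hω
      obtain ⟨hadj, hle, hfar⟩ := hbad
      have hne : ∀ i : Fin j, x i.castSucc ≠ x i.succ := by
        intro i hi
        have := hxinj hi
        exact absurd (congrArg Fin.val this) (by simp)
      have hdist1 : ∀ i : Fin j, 1 ≤ eucl (x i.castSucc - x i.succ) := fun i =>
        one_le_eucl_sub (hne i)
      -- the product of the distances is large
      have hprod : Q ≤ ∏ i : Fin j, eucl (x i.castSucc - x i.succ) := by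
        have h1 := eucl_last_le x
        have h2 := sum_le_mul_prod hdist1
        have hp0 : 0 ≤ ∏ i : Fin j, eucl (x i.castSucc - x i.succ) :=
          Finset.prod_nonneg (fun i _ => eucl_nonneg _)
        have h3 : (j : ℝ) * ∏ i : Fin j, eucl (x i.castSucc - x i.succ) ≤
            m * ∏ i : Fin j, eucl (x i.castSucc - x i.succ) := by
          gcongr
        rw [hQ, div_le_iff₀ (by positivity)]
        linarith
      have hkern : ∀ i : Fin j, kern (α * s) (x i.castSucc) (x i.succ) =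
          kern (α * s1) (x i.castSucc) (x i.succ) *
            ENNReal.ofReal ((eucl (x i.castSucc - x i.succ)) ^ (-ζ)) := by
        intro i
        have he0 : 0 < eucl (x i.castSucc - x i.succ) := by linarith [hdist1 i]
        rw [kern, kern, if_neg (hne i), if_neg (hne i), ENNReal.ofReal_rpow_of_pos he0,
          ENNReal.ofReal_rpow_of_pos he0, ← ENNReal.ofReal_mul (by positivity),
          ← Real.rpow_add he0]
        congr 2
        rw [hs, hs1, hζ]; ring
      have h1 : ∀ i : Fin j, 1 ≤ ENNReal.ofReal ((max lam 1) ^ s) * ENNReal.ofReal (R ^ s) *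
          ENNReal.ofReal (R ^ s) * (kern (α * s1) (x i.castSucc) (x i.succ) *
            ENNReal.ofReal ((eucl (x i.castSucc - x i.succ)) ^ (-ζ))) *
          gU s (U s(x i.castSucc, x i.succ) ω) := by
        intro i
        have e1 := one_le_edge (w := fun x => W x ω) (u := fun e => U e ω) hlam hs0 (hne i)
          (hW _) (hW _) (hU _) (hadj i)
        rw [← hkern]
        refine e1.trans ?_
        have hw1 := hW (x i.castSucc)
        have hw2 := hW (x i.succ)
        gcongr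
        · exact hle _
        · exact hle _
      have h2 := one_le_prod_ennreal h1
      simp only [Finset.prod_mul_distrib, Finset.prod_const, Finset.card_univ,
        Fintype.card_fin, one_pow, mul_one, one_mul] at h2 ⊢
      have h3 : ∏ i : Fin j, ENNReal.ofReal ((eucl (x i.castSucc - x i.succ)) ^ (-ζ)) ≤
          ENNReal.ofReal (Q ^ (-ζ)) := by
        rw [← ENNReal.ofReal_prod_of_nonneg (fun i _ => Real.rpow_nonneg (eucl_nonneg _) _)]
        apply ENNReal.ofReal_le_ofReal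
        rw [Real.finsetProd_rpow _ _ (fun i _ => eucl_nonneg _)]
        exact Real.rpow_le_rpow_of_nonpos hQ0 hprod (by linarith)
      rw [hC]
      refine h2.trans ?_
      set K1 := ∏ i : Fin j, kern (α * s1) (x i.castSucc) (x i.succ)
      set G1 := ∏ i : Fin j, gU s (U s(x i.castSucc, x i.succ) ω)
      set Z1 := ∏ i : Fin j, ENNReal.ofReal ((eucl (x i.castSucc - x i.succ)) ^ (-ζ))
      set c1 := ENNReal.ofReal ((max lam 1) ^ s)
      set c2 := ENNReal.ofReal (R ^ s)
      calc c1 ^ j * c2 ^ j * c2 ^ j * (K1 * Z1) * G1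
          ≤ c1 ^ j * c2 ^ j * c2 ^ j * (K1 * ENNReal.ofReal (Q ^ (-ζ))) * G1 := by gcongr
        _ = (c1 * c2 * c2) ^ j * ENNReal.ofReal (Q ^ (-ζ)) * K1 * G1 := by ring)
    refine key.trans ?_
    simp only [lintegral_const, measure_univ, one_pow, mul_one, one_mul]
    calc C * (((2 * r + 1) ^ d : ℕ) * (zsum d (α * s1)) ^ j) *
        (∫⁻ t in Set.Icc (0 : ℝ) 1, gU s t) ^ j
        ≤ C * (ENNReal.ofReal ((3 * r) ^ d) * (zsum d (α * s1)) ^ j) *
        (∫⁻ t in Set.Icc (0 : ℝ) 1, gU s t) ^ j := by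
          gcongr
          rw [← ENNReal.ofReal_natCast]
          apply ENNReal.ofReal_le_ofReal
          push_cast
          gcongr
          linarith
      _ = (C * ENNReal.ofReal ((3 * r) ^ d)) * ((zsum d (α * s1)) ^ j *
        (∫⁻ t in Set.Icc (0 : ℝ) 1, gU s t) ^ j) := by ring
      _ ≤ (ENNReal.ofReal (((max lam 1) ^ s) ^ j * (2 * m) ^ ζ * 3 ^ d) *
            ENNReal.ofReal ((r : ℝ) ^ (-2 : ℝ))) * ((zsum d (α * s1)) ^ j *
        (∫⁻ t in Set.Icc (0 : ℝ) 1, gU s t) ^ j) := by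
          gcongr ?_ * _
          have hmax : (0 : ℝ) < max lam 1 := lt_of_lt_of_le one_pos (le_max_right _ _)
          rw [hC, ← ENNReal.ofReal_mul (by positivity), ← ENNReal.ofReal_mul (by positivity),
            ← ENNReal.ofReal_pow (by positivity),
            ← ENNReal.ofReal_mul (by positivity), ← ENNReal.ofReal_mul (by positivity),
            ← ENNReal.ofReal_mul (by positivity)]
          apply ENNReal.ofReal_le_ofReal
          have e1 : R ^ s = (r : ℝ) ^ (C' * s) := by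
            rw [hR, ← Real.rpow_mul hr0.le]
          have e2 : Q ^ (-ζ) = (2 * m) ^ ζ * (r : ℝ) ^ (-ζ * D) := by
            rw [hQ, Real.div_rpow (by positivity) (by positivity), Real.rpow_neg (by positivity),
              Real.rpow_neg (by positivity), ← Real.rpow_natCast, ← Real.rpow_mul hr0.le]
            rw [show -ζ * (D : ℝ) = -((D : ℝ) * ζ) by ring, Real.rpow_neg hr0.le]
            field_simp
          have e4 : (3 * (r : ℝ)) ^ d = 3 ^ d * (r : ℝ) ^ (d : ℝ) := by
            rw [mul_pow, Real.rpow_natCast]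
          rw [e1, e2, e4]
          have e5 : ((max lam 1) ^ s * (r : ℝ) ^ (C' * s) * (r : ℝ) ^ (C' * s)) ^ j *
              ((2 * m) ^ ζ * (r : ℝ) ^ (-ζ * D)) * (3 ^ d * (r : ℝ) ^ (d : ℝ)) =
              ((max lam 1) ^ s) ^ j * (2 * m) ^ ζ * 3 ^ d *
                ((r : ℝ) ^ (C' * s * j + C' * s * j + -ζ * D + d)) := by
            rw [Real.rpow_add hr0, Real.rpow_add hr0, Real.rpow_add hr0,
              Real.rpow_mul hr0.le (C' * s) j,
              Real.rpow_natCast, Real.rpow_natCast, mul_pow, mul_pow]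
            ring
          rw [e5]
          gcongr ?_ * ?_
          apply Real.rpow_le_rpow_of_exponent_le hr1
          have hjm : (j : ℝ) ≤ m := by exact_mod_cast hj
          have i1 : C' * s * j ≤ C' * m := by
            calc C' * s * j ≤ C' * 1 * m := by gcongr
              _ = C' * m := by ring
          linarith
      _ = K * ENNReal.ofReal ((r : ℝ) ^ (-2 : ℝ)) := by rw [hK]; ring
  have hae := bc_of_bound hKtop 2 hbound
  filter_upwards [hae] with ω hω
  filter_upwards [hω] with r hr x hx hx0 hbad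
  exact hr ⟨x, hx, hx0, hbad⟩

end

end Pool.Agent.SFP
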