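import Pool.Agent.Work.MP_c3e920_pr.Paths

open MeasureTheory ProbabilityTheory Filter Topology
open scoped ENNReal NNReal

namespace Pool.Agent.SFP

variable {d : ℕ} {α lam : ℝ} {w : (Fin d → ℤ) → ℝ} {u l : Sym2 (Fin d → ℤ) → ℝ}

/-- dyadic level of a weight -/
noncomputable def lev (t : ℝ) : ℕ := ⌊Real.logb 2 t⌋₊

lemma lev_spec {t : ℝ} (ht : 1 ≤ t) : (2 : ℝ) ^ (lev t) ≤ t ∧ t < (2 : ℝ) ^ (lev t + 1) := by
  have ht0 : 0 < t := by linarith
  have hlog : 0 ≤ Real.logb 2 t := Real.logb_nonneg (by norm_num) ht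
  constructor
  · have h1 : (lev t : ℝ) ≤ Real.logb 2 t := Nat.floor_le hlog
    rw [Real.le_logb_iff_rpow_le (by norm_num) ht0, Real.rpow_natCast] at h1
    exact h1
  · have h1 : Real.logb 2 t < (lev t : ℝ) + 1 := Nat.lt_floor_add_one _
    rw [Real.logb_lt_iff_lt_rpow (by norm_num) ht0] at h1
    have : (2 : ℝ) ^ ((lev t : ℝ) + 1) = 2 ^ (lev t + 1) := by
      rw [← Real.rpow_natCast]; push_cast; rfl
    rwa [this] at h1

lemma le_lev {t : ℝ} {k : ℕ} (h : (2 : ℝ) ^ k ≤ t) : k ≤ lev t := by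
  have hk : (1 : ℝ) ≤ 2 ^ k := one_le_pow₀ (by norm_num)
  have ht : 1 ≤ t := hk.trans h
  have h2 := (lev_spec ht).2
  have h3 : (2 : ℝ) ^ k < 2 ^ (lev t + 1) := lt_of_le_of_lt h h2
  have := (pow_lt_pow_iff_right₀ (by norm_num : (1 : ℝ) < 2)).mp h3
  omega

/-- The chain of hubs. -/
lemma exists_exploding_chain (hα : 0 < α) (hlam : 0 < lam) {D c₀ : ℝ} (hD : 0 < D)
    (hc₀ : c₀ ≤ 1 - Real.exp (-(lam / D ^ α)))
    {n : ℕ → ℕ} {t : ℕ → ℝ} {Θ k₀ : ℕ}
    (H : ∀ k ≥ k₀, ∀ x : Fin d → ℤ, eucl x ≤ (2 : ℝ) ^ (k * Θ) → ∃ y : Fin d → ℤ, y ≠ x ∧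
      eucl (x - y) ≤ D * (2 : ℝ) ^ (((k + n k : ℕ) : ℝ) / α) ∧ (2 : ℝ) ^ (n k) < w y ∧
      u s(x, y) < c₀ ∧ l s(x, y) ≤ t k)
    (A1 : ∀ k ≥ k₀, k + 1 ≤ n k)
    (A2 : ∀ k ≥ k₀, (2 : ℝ) ^ (k * Θ) + D * (2 : ℝ) ^ (((k + n k : ℕ) : ℝ) / α) ≤
      (2 : ℝ) ^ (n k * Θ))
    (A3 : ∀ k ≥ k₀, ∀ k' ≥ n k, t k' ≤ t k / 2)
    (A4 : ∀ k ≥ k₀, 0 < t k)
    {x : Fin d → ℤ} (hx1 : (2 : ℝ) ^ k₀ ≤ w x) (hx2 : eucl x ≤ (2 : ℝ) ^ (lev (w x) * Θ)) :
    ∃ v, IsExploding α lam w u l x v ∧ pathLength l v ≤ ENNReal.ofReal (2 * t (lev (w x))) := by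
  classical
  let G : Type := {y : Fin d → ℤ // (2 : ℝ) ^ k₀ ≤ w y ∧ eucl y ≤ (2 : ℝ) ^ (lev (w y) * Θ)}
  have hG1 : ∀ y : G, 1 ≤ w y.1 := fun y => (one_le_pow₀ (by norm_num)).trans y.2.1
  have hstep : ∀ y : G, ∃ z : G, Adj α lam w u y.1 z.1 ∧ w y.1 < w z.1 ∧
      n (lev (w y.1)) ≤ lev (w z.1) ∧ l s(y.1, z.1) ≤ t (lev (w y.1)) := by
    rintro ⟨y, hy1, hy2⟩
    have hwy1 : 1 ≤ w y := (one_le_pow₀ (by norm_num)).trans hy1
    obtain ⟨hlow, hup⟩ := lev_spec hwy1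
    set k := lev (w y) with hk
    have hkk₀ : k₀ ≤ k := le_lev hy1
    obtain ⟨z, hzy, hz1, hz2, hz3, hz4⟩ := H k hkk₀ y hy2
    have hn := A1 k hkk₀
    have hwz : w y < w z := by
      calc w y < 2 ^ (k + 1) := hup
        _ ≤ 2 ^ (n k) := pow_le_pow_right₀ (by norm_num) hn
        _ < w z := hz2
    have hlevz : n k ≤ lev (w z) := le_lev hz2.le
    have hzG1 : (2 : ℝ) ^ k₀ ≤ w z := hy1.trans hwz.le
    have hzG2 : eucl z ≤ (2 : ℝ) ^ (lev (w z) * Θ) := by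
      calc eucl z ≤ eucl y + eucl (y - z) := eucl_le_add_sub y z
        _ ≤ (2 : ℝ) ^ (k * Θ) + D * (2 : ℝ) ^ (((k + n k : ℕ) : ℝ) / α) := add_le_add hy2 hz1
        _ ≤ (2 : ℝ) ^ (n k * Θ) := A2 k hkk₀
        _ ≤ (2 : ℝ) ^ (lev (w z) * Θ) := by
            apply pow_le_pow_right₀ (by norm_num)
            exact Nat.mul_le_mul_right _ hlevz
    refine ⟨⟨z, hzG1, hzG2⟩, ?_, hwz, hlevz, hz4⟩
    -- adjacency
    have hdist : 1 ≤ eucl (y - z) := one_le_eucl_sub hzy.symm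
    rcases eq_or_lt_of_le hdist with h1 | h1
    · exact Or.inl h1.symm
    · refine Or.inr ⟨h1, lt_of_lt_of_le hz3 (hc₀.trans ?_)⟩
      have hρ : (0 : ℝ) < (2 : ℝ) ^ (((k + n k : ℕ) : ℝ) / α) := by positivity
      have hpow : eucl (y - z) ^ α ≤ D ^ α * (2 : ℝ) ^ (k + n k) := by
        calc eucl (y - z) ^ α ≤ (D * (2 : ℝ) ^ (((k + n k : ℕ) : ℝ) / α)) ^ α :=
              Real.rpow_le_rpow (by linarith) hz1 hα.le
          _ = D ^ α * ((2 : ℝ) ^ (((k + n k : ℕ) : ℝ) / α)) ^ α :=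
              Real.mul_rpow hD.le hρ.le
          _ = D ^ α * (2 : ℝ) ^ (k + n k) := by
              rw [← Real.rpow_mul (by norm_num), div_mul_cancel₀ _ hα.ne', Real.rpow_natCast]
      have hww : (2 : ℝ) ^ (k + n k) ≤ w y * w z := by
        rw [pow_add]
        exact mul_le_mul hlow hz2.le (by positivity) (by linarith)
      have hepos : 0 < eucl (y - z) ^ α := Real.rpow_pos_of_pos (by linarith) _
      have hDpos : 0 < D ^ α := Real.rpow_pos_of_pos hD _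
      have hkey : lam / D ^ α ≤ lam * w y * w z / eucl (y - z) ^ α := by
        rw [div_le_div_iff₀ hDpos hepos]
        calc lam * eucl (y - z) ^ α ≤ lam * (D ^ α * (2 : ℝ) ^ (k + n k)) := by gcongr
          _ ≤ lam * (D ^ α * (w y * w z)) := by gcongr
          _ = lam * w y * w z * D ^ α := by ring
      have := Real.exp_le_exp.mpr (neg_le_neg hkey)
      linarith
  choose next hnext using hstep
  set g : ℕ → G := fun i => next^[i] ⟨x, hx1, hx2⟩ with hg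
  have hg0 : g 0 = ⟨x, hx1, hx2⟩ := rfl
  have hgs : ∀ i, g (i + 1) = next (g i) := by
    intro i
    simp only [hg, Function.iterate_succ_apply']
  set v : ℕ → Fin d → ℤ := fun i => (g i).1 with hv
  have hwlt : ∀ i, w (v i) < w (v (i + 1)) := by
    intro i
    simp only [hv, hgs]
    exact (hnext (g i)).2.1
  have hmono : StrictMono (fun i => w (v i)) := strictMono_nat_of_lt_succ hwlt
  have hvinj : Function.Injective v := by
    intro a b hab
    apply hmono.injective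
    simp only [hab]
  have hlev : ∀ i, k₀ ≤ lev (w (v i)) := fun i => le_lev (g i).2.1
  have hlevstep : ∀ i, n (lev (w (v i))) ≤ lev (w (v (i + 1))) := by
    intro i
    simp only [hv, hgs]
    exact (hnext (g i)).2.2.1
  have ht : ∀ i, t (lev (w (v i))) ≤ t (lev (w x)) * (1 / 2) ^ i := by
    intro i
    induction i with
    | zero => simp [hv, hg0]
    | succ i ih =>
      calc t (lev (w (v (i + 1)))) ≤ t (lev (w (v i))) / 2 :=
            A3 _ (hlev i) _ (hlevstep i)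
        _ ≤ (t (lev (w x)) * (1 / 2) ^ i) / 2 := by linarith
        _ = t (lev (w x)) * (1 / 2) ^ (i + 1) := by ring
  have hlen : pathLength l v ≤ ENNReal.ofReal (2 * t (lev (w x))) := by
    have hk : k₀ ≤ lev (w x) := le_lev hx1
    have htx : 0 < t (lev (w x)) := A4 _ hk
    calc pathLength l v = ∑' i, ENNReal.ofReal (l s(v i, v (i + 1))) := rfl
      _ ≤ ∑' i : ℕ, ENNReal.ofReal (t (lev (w x)) * (1 / 2) ^ i) := by
          apply ENNReal.tsum_le_tsum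
          intro i
          apply ENNReal.ofReal_le_ofReal
          refine le_trans ?_ (ht i)
          simp only [hv, hgs]
          exact (hnext (g i)).2.2.2
      _ = ENNReal.ofReal (∑' i : ℕ, t (lev (w x)) * (1 / 2) ^ i) := by
          rw [ENNReal.ofReal_tsum_of_nonneg (fun i => by positivity)]
          exact (summable_geometric_of_lt_one (by norm_num) (by norm_num)).mul_left _
      _ = ENNReal.ofReal (2 * t (lev (w x))) := by
          rw [tsum_mul_left, tsum_geometric_two, mul_comm]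
  refine ⟨v, ⟨by simp [hv, hg0], hvinj, ?_, ?_⟩, hlen⟩
  · intro i
    simp only [hv, hgs]
    exact (hnext (g i)).1
  · exact lt_of_le_of_lt hlen ENNReal.ofReal_lt_top

end Pool.Agent.SFP
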