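import Mathlib

/-!
Definitions for weighted scale-free percolation on the lattice of dimension `d`.
-/

open MeasureTheory ProbabilityTheory Filter Topology
open scoped ENNReal NNReal

namespace Pool.Agent.SFP

/-- Euclidean norm of a point of the integer lattice of dimension `d`. -/
noncomputable def eucl {d : ℕ} (x : Fin d → ℤ) : ℝ :=
  Real.sqrt (∑ i, (x i : ℝ) ^ 2)

/-- A real function which varies slowly at infinity. -/
def SlowlyVarying (ell : ℝ → ℝ) : Prop :=
  ∀ c : ℝ, 0 < c → Tendsto (fun t => ell (c * t) / ell t) atTop (𝓝 1)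

/-- The randomness of weighted scale-free percolation on the integer lattice: vertex weights `W x`
with law `μ`, auxiliary variables `U e` uniform on `[0,1]` (one per unordered pair, they decide
which pairs are joined), and edge weights `L e` with law `ν` (one per unordered pair); all these
variables are mutually independent. -/
structure IsWeightedSFP {d : ℕ} {Ω : Type*} [MeasurableSpace Ω] (P : Measure Ω)
    (W : (Fin d → ℤ) → Ω → ℝ) (U L : Sym2 (Fin d → ℤ) → Ω → ℝ) (μ ν : Measure ℝ) : Prop where
  measurable_W : ∀ x, Measurable (W x)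
  measurable_U : ∀ e, Measurable (U e)
  measurable_L : ∀ e, Measurable (L e)
  indep : iIndepFun
    (fun i : (Fin d → ℤ) ⊕ (Sym2 (Fin d → ℤ) ⊕ Sym2 (Fin d → ℤ)) => Sum.elim W (Sum.elim U L) i) P
  law_W : ∀ x, P.map (W x) = μ
  law_U : ∀ e, P.map (U e) = volume.restrict (Set.Icc (0 : ℝ) 1)
  law_L : ∀ e, P.map (L e) = ν

/-- Adjacency in the scale-free percolation graph with vertex weights `w` and uniform variables
`u`: nearest neighbours are always joined, and a pair at Euclidean distance larger than one is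
joined when its uniform variable is smaller than `1 - exp (-(lam * w x * w y / |x - y| ^ α))`. -/
def Adj {d : ℕ} (α lam : ℝ) (w : (Fin d → ℤ) → ℝ) (u : Sym2 (Fin d → ℤ) → ℝ)
    (x y : Fin d → ℤ) : Prop :=
  eucl (x - y) = 1 ∨
    (1 < eucl (x - y) ∧
      u s(x, y) < 1 - Real.exp (-(lam * w x * w y / eucl (x - y) ^ α)))

/-- The total edge weight of the infinite path `v` when edges have weights `l`. -/
noncomputable def pathLength {d : ℕ} (l : Sym2 (Fin d → ℤ) → ℝ) (v : ℕ → Fin d → ℤ) : ℝ≥0∞ :=
  ∑' n, ENNReal.ofReal (l s(v n, v (n + 1)))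

/-- An exploding path from `x`: an infinite self-avoiding path of the graph, started at `x`, with
finite total edge weight. -/
structure IsExploding {d : ℕ} (α lam : ℝ) (w : (Fin d → ℤ) → ℝ) (u l : Sym2 (Fin d → ℤ) → ℝ)
    (x : Fin d → ℤ) (v : ℕ → Fin d → ℤ) : Prop where
  start : v 0 = x
  injective : Function.Injective v
  adj : ∀ n, Adj α lam w u (v n) (v (n + 1))
  finite_length : pathLength l v < ∞

/-- A shortest exploding path from the origin. -/
def IsShortestExploding {d : ℕ} (α lam : ℝ) (w : (Fin d → ℤ) → ℝ) (u l : Sym2 (Fin d → ℤ) → ℝ)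
    (v : ℕ → Fin d → ℤ) : Prop :=
  IsExploding α lam w u l 0 v ∧
    ∀ v', IsExploding α lam w u l 0 v' → pathLength l v ≤ pathLength l v'

/-- The generalised inverse `y ↦ inf {t | P(L ≤ t) ≥ y}` of the distribution function of `ν`. -/
noncomputable def quantile (ν : Measure ℝ) (y : ℝ) : ℝ := sInf {t : ℝ | y ≤ ν.real (Set.Iic t)}

/-- The integral `I(L) = ∫_0^∞ F_L^{(-1)}(exp(-e^y)) dy`. -/
noncomputable def explosionIntegral (ν : Measure ℝ) : ℝ≥0∞ :=
  ∫⁻ y in Set.Ioi (0 : ℝ), ENNReal.ofReal (quantile ν (Real.exp (-Real.exp y)))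

/-- `ν` lives on the positive reals, charges every interval `(0,t]`, and minus the logarithm of its
distribution function varies slowly at zero. -/
structure LogSlowAtZero (ν : Measure ℝ) : Prop where
  pos_support : ν (Set.Iic 0) = 0
  charges : ∀ t : ℝ, 0 < t → 0 < ν.real (Set.Iic t)
  slow : Tendsto (fun t => Real.log (ν.real (Set.Iic (2 * t))) / Real.log (ν.real (Set.Iic t)))
    (𝓝[>] 0) (𝓝 1)

end Pool.Agent.SFP
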