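import Pool.Agent.Work.MP_c3e920_pr.Defs

open MeasureTheory ProbabilityTheory Filter Topology
open scoped ENNReal NNReal

namespace Pool.Agent.SFP

variable {d : ℕ}

/-- the embedding of the lattice in Euclidean space -/
noncomputable def toE (x : Fin d → ℤ) : EuclideanSpace ℝ (Fin d) :=
  WithLp.toLp 2 (fun i => (x i : ℝ))

lemma eucl_eq_norm (x : Fin d → ℤ) : eucl x = ‖toE x‖ := by
  simp [eucl, toE, EuclideanSpace.norm_eq]

lemma toE_add (x y : Fin d → ℤ) : toE (x + y) = toE x + toE y := by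
  ext i; simp [toE]

lemma toE_sub (x y : Fin d → ℤ) : toE (x - y) = toE x - toE y := by
  ext i; simp [toE]

lemma toE_neg (x : Fin d → ℤ) : toE (-x) = -toE x := by
  ext i; simp [toE]

lemma toE_injective : Function.Injective (toE (d := d)) := by
  intro x y h
  ext i
  have := congrArg (fun z : EuclideanSpace ℝ (Fin d) => z i) h
  simpa [toE] using this

lemma eucl_nonneg (x : Fin d → ℤ) : 0 ≤ eucl x := Real.sqrt_nonneg _

@[simp] lemma eucl_zero : eucl (0 : Fin d → ℤ) = 0 := by simp [eucl]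

lemma eucl_add_le (x y : Fin d → ℤ) : eucl (x + y) ≤ eucl x + eucl y := by
  simp only [eucl_eq_norm, toE_add]; exact norm_add_le _ _

lemma eucl_neg (x : Fin d → ℤ) : eucl (-x) = eucl x := by
  simp only [eucl_eq_norm, toE_neg, norm_neg]

lemma eucl_sub_comm (x y : Fin d → ℤ) : eucl (x - y) = eucl (y - x) := by
  rw [← eucl_neg, neg_sub]

lemma eucl_le_add_sub (x y : Fin d → ℤ) : eucl y ≤ eucl x + eucl (x - y) := by
  have := eucl_add_le x (y - x)
  rw [eucl_sub_comm x y]
  simpa using this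

lemma eucl_sub_le (x y : Fin d → ℤ) : eucl (x - y) ≤ eucl x + eucl y := by
  rw [sub_eq_add_neg, ← eucl_neg y]; exact eucl_add_le _ _

lemma one_le_eucl {x : Fin d → ℤ} (hx : x ≠ 0) : 1 ≤ eucl x := by
  obtain ⟨i, hi⟩ := Function.ne_iff.mp hx
  have h1 : (1 : ℝ) ≤ (x i : ℝ) ^ 2 := by
    have : (1 : ℤ) ≤ (x i) ^ 2 := by
      have : 0 < (x i) ^ 2 := by
        have : x i ≠ 0 := by simpa using hi
        positivity
      linarith
    exact_mod_cast this
  have h2 : (1 : ℝ) ≤ ∑ j, (x j : ℝ) ^ 2 :=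
    h1.trans (Finset.single_le_sum (f := fun j => (x j : ℝ) ^ 2) (fun j _ => sq_nonneg _)
      (Finset.mem_univ i))
  rw [eucl]
  exact Real.one_le_sqrt.mpr h2

lemma one_le_eucl_sub {x y : Fin d → ℤ} (hxy : x ≠ y) : 1 ≤ eucl (x - y) :=
  one_le_eucl (sub_ne_zero.mpr hxy)

lemma eucl_pos {x : Fin d → ℤ} (hx : x ≠ 0) : 0 < eucl x := lt_of_lt_of_le one_pos (one_le_eucl hx)

lemma eucl_eq_zero {x : Fin d → ℤ} : eucl x = 0 ↔ x = 0 := by
  constructor
  · intro h
    by_contra hx
    have := eucl_pos hx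
    linarith
  · rintro rfl; simp

lemma abs_le_eucl (x : Fin d → ℤ) (i : Fin d) : |(x i : ℝ)| ≤ eucl x := by
  rw [eucl]
  apply Real.abs_le_sqrt
  exact Finset.single_le_sum (f := fun j => (x j : ℝ) ^ 2) (fun j _ => sq_nonneg _)
      (Finset.mem_univ i)

lemma eucl_le_sqrt_mul {x : Fin d → ℤ} {M : ℝ} (hM : 0 ≤ M) (h : ∀ i, |(x i : ℝ)| ≤ M) :
    eucl x ≤ Real.sqrt d * M := by
  rw [eucl]
  have : ∑ i, (x i : ℝ) ^ 2 ≤ d * M ^ 2 := by
    calc ∑ i, (x i : ℝ) ^ 2 ≤ ∑ _i : Fin d, M ^ 2 := by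
          apply Finset.sum_le_sum
          intro i _
          rw [← sq_abs]
          exact pow_le_pow_left₀ (abs_nonneg _) (h i) 2
      _ = d * M ^ 2 := by simp
  calc Real.sqrt (∑ i, (x i : ℝ) ^ 2) ≤ Real.sqrt (d * M ^ 2) := Real.sqrt_le_sqrt this
    _ = Real.sqrt d * M := by
      rw [Real.sqrt_mul (by positivity), Real.sqrt_sq hM]

/-- ball of integer points -/
noncomputable def ballF (d : ℕ) (r : ℕ) : Finset (Fin d → ℤ) :=
  Fintype.piFinset (fun _ : Fin d => Finset.Icc (-(r : ℤ)) r)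

lemma mem_ballF_of_eucl_le {x : Fin d → ℤ} {r : ℕ} (h : eucl x ≤ r) : x ∈ ballF d r := by
  simp only [ballF, Fintype.mem_piFinset, Finset.mem_Icc]
  intro i
  have := (abs_le_eucl x i).trans h
  rw [abs_le] at this
  constructor
  · exact_mod_cast this.1
  · exact_mod_cast this.2

lemma card_ballF (r : ℕ) : (ballF d r).card = (2 * r + 1) ^ d := by
  simp only [ballF, Fintype.card_piFinset, Int.card_Icc, Finset.prod_const, Finset.card_univ,
    Fintype.card_fin]
  congr 1
  omega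

lemma finite_eucl_le (R : ℝ) : {x : Fin d → ℤ | eucl x ≤ R}.Finite := by
  apply (ballF d ⌈R⌉₊).finite_toSet.subset
  intro x hx
  exact mem_ballF_of_eucl_le (le_trans hx (Nat.le_ceil R))

/-- the sum of a negative power of the norm over nonzero lattice points is finite -/
lemma tsum_eucl_rpow_lt_top {a : ℝ} (ha : (d : ℝ) < a) :
    ∑' x : Fin d → ℤ, (if x = 0 then 0 else ENNReal.ofReal (eucl x) ^ (-a)) < ∞ := by
  -- compare with the ZLattice summability
  let b := (EuclideanSpace.basisFun (Fin d) ℝ).toBasis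
  let Lat : Submodule ℤ (EuclideanSpace ℝ (Fin d)) := Submodule.span ℤ (Set.range b)
  let bz : Module.Basis (Fin d) ℤ Lat := b.restrictScalars ℤ
  have hrank : Module.finrank ℤ Lat = d := by
    simpa using Module.finrank_eq_card_basis bz
  have hs : Summable fun z : Lat => ‖z‖ ^ (-a) := by
    apply ZLattice.summable_norm_rpow Lat (-a)
    rw [hrank]; linarith
  -- map
  let φ : (Fin d → ℤ) → Lat := fun x => bz.equivFun.symm x
  have hφinj : Function.Injective φ := bz.equivFun.symm.injective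
  have hφ : ∀ x, ‖φ x‖ = eucl x := by
    intro x
    rw [eucl_eq_norm]
    have : ((φ x : Lat) : EuclideanSpace ℝ (Fin d)) = toE x := by
      have hb : ∀ i, ((bz i : Lat) : EuclideanSpace ℝ (Fin d)) = b i := fun i =>
        Module.Basis.restrictScalars_apply ℤ b i
      simp only [φ, Module.Basis.equivFun_symm_apply, Submodule.coe_sum, Submodule.coe_smul, hb]
      ext i
      simp [toE, b, Finset.sum_apply, Pi.single_apply]
    rw [← this]; rfl
  have hs2 : Summable fun x : Fin d → ℤ => (eucl x) ^ (-a) := by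
    have := hs.comp_injective hφinj
    refine this.congr ?_
    intro x
    show ‖φ x‖ ^ (-a) = _
    rw [hφ]
  have hle : ∑' x : Fin d → ℤ, (if x = 0 then 0 else ENNReal.ofReal (eucl x) ^ (-a))
      ≤ ∑' x : Fin d → ℤ, ENNReal.ofReal ((eucl x) ^ (-a)) := by
    apply ENNReal.tsum_le_tsum
    intro x
    split_ifs with hx
    · simp
    · rw [ENNReal.ofReal_rpow_of_pos (eucl_pos hx)]
  refine lt_of_le_of_lt hle ?_
  rw [← ENNReal.ofReal_tsum_of_nonneg (fun x => Real.rpow_nonneg (eucl_nonneg x) _) hs2]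
  exact ENNReal.ofReal_lt_top

end Pool.Agent.SFP
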