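import Pool.Agent.Work.MP_c3e920_pr.Eucl

open MeasureTheory ProbabilityTheory Filter Topology
open scoped ENNReal NNReal

namespace Pool.Agent.SFP

variable {d : ℕ} {Ω : Type*} [mΩ : MeasurableSpace Ω] {P : Measure Ω}
  {W : (Fin d → ℤ) → Ω → ℝ} {U L : Sym2 (Fin d → ℤ) → Ω → ℝ} {μ ν : Measure ℝ}

/-- a neighbour `y` of `x` is good -/
def goodEv (W : (Fin d → ℤ) → Ω → ℝ) (U L : Sym2 (Fin d → ℤ) → Ω → ℝ) (A B C : Set ℝ)
    (x y : Fin d → ℤ) : Set Ω :=
  (W y ⁻¹' A ∩ U s(x, y) ⁻¹' B) ∩ L s(x, y) ⁻¹' C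

/-- the triple of indices used by the neighbour `y` of `x` -/
def tripleIdx (x y : Fin d → ℤ) : Set ((Fin d → ℤ) ⊕ (Sym2 (Fin d → ℤ) ⊕ Sym2 (Fin d → ℤ))) :=
  {Sum.inl y, Sum.inr (Sum.inl s(x, y)), Sum.inr (Sum.inr s(x, y))}

lemma sym2_left_cancel {x y z : Fin d → ℤ} (h : s(x, y) = s(x, z)) : y = z := by
  rw [Sym2.eq_iff] at h
  rcases h with ⟨-, h⟩ | ⟨h1, h2⟩
  · exact h
  · rw [h2, ← h1]

lemma prob_good [IsProbabilityMeasure P] (h : IsWeightedSFP P W U L μ ν) {A B C : Set ℝ}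
    (hA : MeasurableSet A) (hB : MeasurableSet B) (hC : MeasurableSet C) (x y : Fin d → ℤ) :
    P (goodEv W U L A B C x y) = μ A * (volume.restrict (Set.Icc (0 : ℝ) 1)) B * ν C := by
  classical
  have key := h.indep.measure_inter_preimage_eq_mul
    ({Sum.inl y, Sum.inr (Sum.inl s(x, y)), Sum.inr (Sum.inr s(x, y))} :
      Finset ((Fin d → ℤ) ⊕ (Sym2 (Fin d → ℤ) ⊕ Sym2 (Fin d → ℤ))))
    (sets := Sum.elim (fun _ => A) (Sum.elim (fun _ => B) (fun _ => C)))
    (by
      rintro (i | i | i) -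
      · exact hA
      · exact hB
      · exact hC)
  rw [Finset.prod_insert (by simp), Finset.prod_insert (by simp), Finset.prod_singleton] at key
  have e1 : (⋂ i ∈ ({Sum.inl y, Sum.inr (Sum.inl s(x, y)), Sum.inr (Sum.inr s(x, y))} :
      Finset ((Fin d → ℤ) ⊕ (Sym2 (Fin d → ℤ) ⊕ Sym2 (Fin d → ℤ)))),
      (fun ω => Sum.elim W (Sum.elim U L) i ω) ⁻¹'
        (Sum.elim (fun _ => A) (Sum.elim (fun _ => B) (fun _ => C)) i)) =
      goodEv W U L A B C x y := by
    ext ω
    simp [goodEv, and_assoc]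
  rw [e1] at key
  rw [key]
  have l1 : P (W y ⁻¹' A) = μ A := by
    rw [← h.law_W y, Measure.map_apply (h.measurable_W y) hA]
  have l2 : P (U s(x, y) ⁻¹' B) = (volume.restrict (Set.Icc (0 : ℝ) 1)) B := by
    rw [← h.law_U s(x, y), Measure.map_apply (h.measurable_U _) hB]
  have l3 : P (L s(x, y) ⁻¹' C) = ν C := by
    rw [← h.law_L s(x, y), Measure.map_apply (h.measurable_L _) hC]
  simp only [Sum.elim_inl, Sum.elim_inr]
  rw [l1, l2, l3, mul_assoc]

/-- no neighbour in a finite set is good -/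
lemma prob_no_good [IsProbabilityMeasure P] (h : IsWeightedSFP P W U L μ ν) {A B C : Set ℝ}
    (hA : MeasurableSet A) (hB : MeasurableSet B) (hC : MeasurableSet C) (x : Fin d → ℤ)
    (Z : Finset (Fin d → ℤ)) :
    P (⋂ y ∈ Z, (goodEv W U L A B C x y)ᶜ) =
      (1 - μ A * (volume.restrict (Set.Icc (0 : ℝ) 1)) B * ν C) ^ Z.card := by
  classical
  set X : (i : (Fin d → ℤ) ⊕ (Sym2 (Fin d → ℤ) ⊕ Sym2 (Fin d → ℤ))) → Ω → ℝ :=
    fun i => Sum.elim W (Sum.elim U L) i with hX
  let m : (Fin d → ℤ) ⊕ (Sym2 (Fin d → ℤ) ⊕ Sym2 (Fin d → ℤ)) → MeasurableSpace Ω :=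
    fun i => MeasurableSpace.comap (X i) inferInstance
  have hm : ∀ i, m i ≤ mΩ := by
    rintro (i | i | i)
    · exact (h.measurable_W i).comap_le
    · exact (h.measurable_U i).comap_le
    · exact (h.measurable_L i).comap_le
  have hind : iIndep m P := h.indep.iIndep
  have hgood : ∀ y, MeasurableSet[⨆ i ∈ tripleIdx x y, m i] (goodEv W U L A B C x y) := by
    intro y
    have q1 : MeasurableSet[⨆ i ∈ tripleIdx x y, m i] (W y ⁻¹' A) := by
      apply (le_iSup₂_of_le (f := fun i (_ : i ∈ tripleIdx x y) => m i) (Sum.inl y)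
        (by simp [tripleIdx]) le_rfl)
      exact ⟨A, hA, rfl⟩
    have q2 : MeasurableSet[⨆ i ∈ tripleIdx x y, m i] (U s(x, y) ⁻¹' B) := by
      apply (le_iSup₂_of_le (f := fun i (_ : i ∈ tripleIdx x y) => m i)
        (Sum.inr (Sum.inl s(x, y))) (by simp [tripleIdx]) le_rfl)
      exact ⟨B, hB, rfl⟩
    have q3 : MeasurableSet[⨆ i ∈ tripleIdx x y, m i] (L s(x, y) ⁻¹' C) := by
      apply (le_iSup₂_of_le (f := fun i (_ : i ∈ tripleIdx x y) => m i)
        (Sum.inr (Sum.inr s(x, y))) (by simp [tripleIdx]) le_rfl)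
      exact ⟨C, hC, rfl⟩
    exact (q1.inter q2).inter q3
  induction Z using Finset.induction_on with
  | empty => simp
  | insert y Z hy ih =>
    rw [Finset.set_biInter_insert, Finset.card_insert_of_notMem hy, pow_succ, ← ih]
    set IZ : Set ((Fin d → ℤ) ⊕ (Sym2 (Fin d → ℤ) ⊕ Sym2 (Fin d → ℤ))) :=
      ⋃ y' ∈ Z, tripleIdx x y' with hIZ
    have hdisj : Disjoint IZ (tripleIdx x y) := by
      rw [Set.disjoint_left]
      intro i hi hi2
      simp only [hIZ, Set.mem_iUnion] at hi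
      obtain ⟨y', hy', hi⟩ := hi
      have hne : y' ≠ y := by rintro rfl; exact hy hy'
      simp only [tripleIdx, Set.mem_insert_iff, Set.mem_singleton_iff] at hi hi2
      rcases hi with rfl | rfl | rfl
      · rcases hi2 with h1 | h1 | h1
        · exact hne (Sum.inl_injective h1)
        · cases h1
        · cases h1
      · rcases hi2 with h1 | h1 | h1
        · cases h1
        · exact hne (sym2_left_cancel (Sum.inl_injective (Sum.inr_injective h1)))
        · cases h1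
      · rcases hi2 with h1 | h1 | h1
        · cases h1
        · cases h1
        · exact hne (sym2_left_cancel (Sum.inr_injective (Sum.inr_injective h1)))
    have hI := indep_iSup_of_disjoint hm hind hdisj
    have hmZ : MeasurableSet[⨆ i ∈ IZ, m i] (⋂ y' ∈ Z, (goodEv W U L A B C x y')ᶜ) := by
      apply MeasurableSet.biInter Z.countable_toSet
      intro y' hy'
      apply MeasurableSet.compl
      have hle : (⨆ i ∈ tripleIdx x y', m i) ≤ ⨆ i ∈ IZ, m i := by
        apply biSup_mono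
        intro i hi
        exact Set.mem_biUnion hy' hi
      exact hle _ (hgood y')
    have hmy : MeasurableSet[⨆ i ∈ tripleIdx x y, m i] (goodEv W U L A B C x y)ᶜ :=
      (hgood y).compl
    have hprod := (Indep_iff _ _ _).mp hI _ _ hmZ hmy
    rw [Set.inter_comm, hprod]
    congr 1
    have hmeas : MeasurableSet (goodEv W U L A B C x y) :=
      ((h.measurable_W y hA).inter (h.measurable_U _ hB)).inter (h.measurable_L _ hC)
    rw [prob_compl_eq_one_sub hmeas, prob_good h hA hB hC]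

/-- exponential bound -/
lemma prob_no_good_le [IsProbabilityMeasure P] (h : IsWeightedSFP P W U L μ ν) {A B C : Set ℝ}
    (hA : MeasurableSet A) (hB : MeasurableSet B) (hC : MeasurableSet C) (x : Fin d → ℤ)
    (Z : Finset (Fin d → ℤ)) {q : ℝ} (hq : 0 ≤ q)
    (hle : ENNReal.ofReal q ≤ μ A * (volume.restrict (Set.Icc (0 : ℝ) 1)) B * ν C) :
    P (⋂ y ∈ Z, (goodEv W U L A B C x y)ᶜ) ≤ ENNReal.ofReal (Real.exp (-(q * Z.card))) := by
  rw [prob_no_good h hA hB hC x Z]
  have h1 : (1 - μ A * (volume.restrict (Set.Icc (0 : ℝ) 1)) B * ν C) ≤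
      ENNReal.ofReal (Real.exp (-q)) := by
    calc (1 - μ A * (volume.restrict (Set.Icc (0 : ℝ) 1)) B * ν C)
        ≤ 1 - ENNReal.ofReal q := tsub_le_tsub_left hle _
      _ = ENNReal.ofReal (1 - q) := by
          rw [ENNReal.ofReal_sub _ hq, ENNReal.ofReal_one]
      _ ≤ ENNReal.ofReal (Real.exp (-q)) := by
          apply ENNReal.ofReal_le_ofReal
          have := Real.add_one_le_exp (-q)
          linarith
  calc (1 - μ A * (volume.restrict (Set.Icc (0 : ℝ) 1)) B * ν C) ^ Z.card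
      ≤ (ENNReal.ofReal (Real.exp (-q))) ^ Z.card := by gcongr
    _ = ENNReal.ofReal (Real.exp (-(q * Z.card))) := by
        rw [← ENNReal.ofReal_pow (Real.exp_pos _).le, ← Real.exp_nat_mul]
        congr 2
        ring

end Pool.Agent.SFP
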