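import Pool.Agent.Work.MP_c3e920_pr.Chain
import Pool.Agent.Work.MP_c3e920_pr.Triples
import Pool.Agent.Work.MP_c3e920_pr.Lengths
import Pool.Agent.Work.MP_c3e920_pr.Laws

open MeasureTheory ProbabilityTheory Filter Topology
open scoped ENNReal NNReal

namespace Pool.Agent.SFP

variable {d : ℕ}

/-- a box of neighbours of `x` -/
noncomputable def boxF (x : Fin d → ℤ) (M : ℕ) : Finset (Fin d → ℤ) :=
  (Fintype.piFinset (fun _ : Fin d => Finset.Icc (1 : ℤ) M)).map (addLeftEmbedding x)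

lemma card_boxF (x : Fin d → ℤ) (M : ℕ) : (boxF x M).card = M ^ d := by
  simp [boxF, Fintype.card_piFinset]

lemma mem_boxF {x y : Fin d → ℤ} {M : ℕ} (hd : 1 ≤ d) (hy : y ∈ boxF x M) :
    y ≠ x ∧ eucl (x - y) ≤ Real.sqrt d * M := by
  simp only [boxF, Finset.mem_map, Fintype.mem_piFinset, Finset.mem_Icc,
    addLeftEmbedding_apply] at hy
  obtain ⟨z, hz, rfl⟩ := hy
  constructor
  · intro h
    have h0 : z = 0 := by simpa using h
    have := (hz ⟨0, hd⟩).1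
    rw [h0] at this
    simp at this
  · have : x - (x + z) = -z := by abel
    rw [this, eucl_neg]
    apply eucl_le_sqrt_mul (by positivity)
    intro i
    rw [abs_le]
    constructor
    · have : (0 : ℝ) ≤ z i := by exact_mod_cast (by linarith [(hz i).1] : (0 : ℤ) ≤ z i)
      have hM : (0 : ℝ) ≤ M := by positivity
      linarith
    · exact_mod_cast (hz i).2

lemma summable_superexp {A b c : ℝ} (hA : 0 ≤ A) (hb : 1 < b) (hc : 0 < c) :
    Summable fun k : ℕ => A ^ k * Real.exp (-(c * b ^ k)) := by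
  obtain ⟨m, hm⟩ := pow_unbounded_of_one_lt (A + 1) hb
  have hbm : 0 < b ^ m := by positivity
  have hratio : A / b ^ m < 1 := by
    rw [div_lt_one hbm]; linarith
  have hs : Summable fun k : ℕ => ((m.factorial : ℝ) / c ^ m) * (A / b ^ m) ^ k :=
    (summable_geometric_of_lt_one (by positivity) hratio).mul_left _
  refine Summable.of_nonneg_of_le (fun k => by positivity) (fun k => ?_) hs
  have hx : 0 < c * b ^ k := by positivity
  have h1 : (c * b ^ k) ^ m / m.factorial ≤ Real.exp (c * b ^ k) :=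
    Real.pow_div_factorial_le_exp _ hx.le m
  have h2 : Real.exp (-(c * b ^ k)) ≤ m.factorial / (c * b ^ k) ^ m := by
    rw [Real.exp_neg]
    have h3 : 0 < (c * b ^ k) ^ m / m.factorial := by positivity
    calc (Real.exp (c * b ^ k))⁻¹ ≤ ((c * b ^ k) ^ m / m.factorial)⁻¹ := by gcongr
      _ = m.factorial / (c * b ^ k) ^ m := by rw [inv_div]
  calc A ^ k * Real.exp (-(c * b ^ k)) ≤ A ^ k * (m.factorial / (c * b ^ k) ^ m) := by gcongr
    _ = ((m.factorial : ℝ) / c ^ m) * (A / b ^ m) ^ k := by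
      rw [mul_pow, div_pow, ← pow_mul, ← pow_mul, mul_comm k m]
      field_simp

lemma two_pow_rpow (a : ℝ) (k : ℕ) : ((2 : ℝ) ^ a) ^ k = (2 : ℝ) ^ (a * k) := by
  rw [← Real.rpow_natCast, ← Real.rpow_mul (by norm_num)]

variable {Ω : Type*} [mΩ : MeasurableSpace Ω] {P : Measure Ω}
  {W : (Fin d → ℤ) → Ω → ℝ} {U L : Sym2 (Fin d → ℤ) → Ω → ℝ} {μ ν : Measure ℝ}

lemma uniform_Iio {c : ℝ} (_hc0 : 0 ≤ c) (hc1 : c ≤ 1) :
    (volume.restrict (Set.Icc (0 : ℝ) 1)) (Set.Iio c) = ENNReal.ofReal c := by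
  rw [Measure.restrict_apply measurableSet_Iio]
  have : Set.Iio c ∩ Set.Icc (0 : ℝ) 1 = Set.Ico 0 c := by
    ext t
    simp only [Set.mem_inter_iff, Set.mem_Iio, Set.mem_Icc, Set.mem_Ico]
    constructor
    · rintro ⟨h1, h2, -⟩; exact ⟨h2, h1⟩
    · rintro ⟨h1, h2⟩; exact ⟨h2, h1, by linarith⟩
  rw [this]
  simp

/-- The hub theorem: upper bounds for the explosion times of heavy vertices. -/
theorem hubs [IsProbabilityMeasure P] [IsProbabilityMeasure μ] [IsProbabilityMeasure ν]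
    (h : IsWeightedSFP P W U L μ ν) (hd : 1 ≤ d) {α lam β : ℝ} (hα : (d : ℝ) < α)
    (hlam : 0 < lam) (hβ1 : (d : ℝ) / α < β) {ell : ℝ → ℝ}
    (hell : SlowlyVarying ell)
    (hμ : ∀ t : ℝ, 1 ≤ t → μ.real (Set.Ioi t) = ell t * t ^ (-β)) (hν : LogSlowAtZero ν)
    {θ : ℝ} (hθ0 : 0 < θ) (hθ : θ < 2 * ((d : ℝ) / α) - β) {Θ : ℕ} (hΘ : 3 ≤ Θ) :
    ∃ T : ℕ → ℝ, (∀ k, 0 ≤ T k) ∧
      (∃ k₀ : ℕ, ∀ k ≥ k₀, cdfR ν (T k) ≤ ((2 : ℝ) ^ (-θ)) ^ k) ∧
      ∀ᵐ ω ∂P, (∃ k₁ : ℕ, ∀ x, (2 : ℝ) ^ k₁ ≤ W x ω → eucl x ≤ (2 : ℝ) ^ (lev (W x ω) * Θ) →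
        ∃ v, IsExploding α lam (fun x => W x ω) (fun e => U e ω) (fun e => L e ω) x v ∧
          pathLength (fun e => L e ω) v ≤ ENNReal.ofReal (T (lev (W x ω)))) ∧
        ∃ x v, IsExploding α lam (fun x => W x ω) (fun e => U e ω) (fun e => L e ω) x v := by
  have hd0 : (0 : ℝ) < d := by exact_mod_cast hd
  have hd1 : (1 : ℝ) ≤ d := by exact_mod_cast hd
  have hα0 : 0 < α := by linarith
  have hα1 : 1 < α := by linarith
  set s₀ : ℝ := (d : ℝ) / α with hs₀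
  have hs₀pos : 0 < s₀ := by positivity
  -- choice of the parameters
  obtain ⟨θ1, hθθ1, hθ1⟩ := exists_between hθ
  have hθ1pos : 0 < θ1 := hθ0.trans hθθ1
  set δ : ℝ := 2 * s₀ - β - θ1 with hδ
  have hδpos : 0 < δ := by rw [hδ]; linarith
  set p : ℝ := β + δ / 4 with hp
  have hps : 0 < p - s₀ := by rw [hp]; linarith
  set η : ℝ := δ / (4 * (p - s₀)) with hη
  have hηpos : 0 < η := by positivity
  have hηmul : η * (p - s₀) = δ / 4 := by rw [hη]; field_simp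
  set σ : ℝ := s₀ - θ1 - (1 + η) * (p - s₀) with hσ
  have hσpos : 0 < σ := by
    have : (1 + η) * (p - s₀) = (p - s₀) + δ / 4 := by rw [add_mul, one_mul, hηmul]
    rw [hσ, this, hp]
    have : δ = 2 * s₀ - β - θ1 := hδ
    linarith
  have hβpos : 0 < β := hs₀pos.trans hβ1
  obtain ⟨ct, hct, htl⟩ := tl_lower (μ := μ) hell hμ (p := p) (by rw [hp]; linarith)
    (by rw [hp]; linarith)
  set n : ℕ → ℕ := fun k => ⌈(1 + η) * (k : ℝ)⌉₊ with hn
  have hn_ge : ∀ k : ℕ, (1 + η) * (k : ℝ) ≤ n k := fun k => Nat.le_ceil _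
  have hn_le : ∀ k : ℕ, (n k : ℝ) ≤ (1 + η) * (k : ℝ) + 1 := fun k =>
    (Nat.ceil_lt_add_one (by positivity)).le
  set uu : ℕ → ℝ := fun k => ((2 : ℝ) ^ (-θ1)) ^ k with huu
  have h2θ : (2 : ℝ) ^ (-θ1) < 1 := Real.rpow_lt_one_of_one_lt_of_neg (by norm_num) (by linarith)
  have h2θ0 : (0 : ℝ) < (2 : ℝ) ^ (-θ1) := by positivity
  have huu0 : ∀ k, 0 < uu k := fun k => by positivity
  have huu1 : ∀ k ≥ 1, uu k < 1 := fun k hk => pow_lt_one₀ h2θ0.le h2θ (by omega)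
  have huuto : Tendsto uu atTop (𝓝 0) := tendsto_pow_atTop_nhds_zero_of_lt_one h2θ0.le h2θ
  set t : ℕ → ℝ := fun k => quantile ν (uu k) with ht
  set D : ℝ := 2 * Real.sqrt d with hD
  have hDpos : 0 < D := by rw [hD]; positivity
  set c₀ : ℝ := 1 - Real.exp (-(lam / D ^ α)) with hc₀
  have hDα : 0 < D ^ α := Real.rpow_pos_of_pos hDpos _
  have hc₀pos : 0 < c₀ := by
    have : Real.exp (-(lam / D ^ α)) < 1 := by
      rw [Real.exp_lt_one_iff]
      have : 0 < lam / D ^ α := by positivity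
      linarith
    rw [hc₀]; linarith
  have hc₀le : c₀ ≤ 1 := by
    have := Real.exp_pos (-(lam / D ^ α))
    rw [hc₀]; linarith
  set M : ℕ → ℕ := fun k => ⌈(2 : ℝ) ^ (((k + n k : ℕ) : ℝ) / α)⌉₊ with hM
  have hρ1 : ∀ k, (1 : ℝ) ≤ (2 : ℝ) ^ (((k + n k : ℕ) : ℝ) / α) := fun k =>
    Real.one_le_rpow (by norm_num) (by positivity)
  have hM_ge : ∀ k, (2 : ℝ) ^ (((k + n k : ℕ) : ℝ) / α) ≤ M k := fun k => Nat.le_ceil _
  have hM_le : ∀ k, (M k : ℝ) ≤ 2 * (2 : ℝ) ^ (((k + n k : ℕ) : ℝ) / α) := fun k => by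
    have h1 := (Nat.ceil_lt_add_one (a := (2 : ℝ) ^ (((k + n k : ℕ) : ℝ) / α))
      (by positivity)).le
    have h2 := hρ1 k
    simp only [hM]
    linarith
  -- the threshold sequence
  refine ⟨fun k => 2 * t k, fun k => ?_, ?_, ?_⟩
  · have := quantile_nonneg hν (huu0 k)
    simp only [ht]
    linarith
  · -- distribution function at the thresholds
    obtain ⟨u₀, hu₀, hu₀1, hu₀2⟩ := cdfR_two_quantile hν (ε := 1 - θ / θ1)
      (by rw [sub_pos, div_lt_one hθ1pos]; exact hθθ1) (by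
        have : 0 < θ / θ1 := by positivity
        linarith)
    obtain ⟨k₀, hk₀⟩ := eventually_atTop.mp (huuto.eventually_lt_const hu₀)
    refine ⟨k₀, fun k hk => ?_⟩
    refine (hu₀2 (uu k) (huu0 k) (hk₀ k hk)).trans (le_of_eq ?_)
    simp only [huu]
    rw [two_pow_rpow, two_pow_rpow, ← Real.rpow_mul (by norm_num)]
    congr 1
    field_simp
    ring
  -- the bad events
  set E : ℕ → Set Ω := fun k => {ω | ∃ x : Fin d → ℤ, eucl x ≤ ((2 ^ (k * Θ) : ℕ) : ℝ) ∧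
    ω ∈ ⋂ y ∈ boxF x (M k), (goodEv W U L (Set.Ioi ((2 : ℝ) ^ (n k))) (Set.Iio c₀)
      (Set.Iic (t k)) x y)ᶜ} with hE
  set c' : ℝ := ct * c₀ * (2 : ℝ) ^ (-(p - s₀)) with hc'
  have hc'pos : 0 < c' := by positivity
  have hPE : ∀ k ≥ 1, P (E k) ≤ ENNReal.ofReal ((3 : ℝ) ^ d *
      (((2 : ℝ) ^ (Θ * d)) ^ k * Real.exp (-(c' * ((2 : ℝ) ^ σ) ^ k)))) := by
    intro k hk
    set q : ℝ := (ct * ((2 : ℝ) ^ (-p)) ^ (n k)) * c₀ * uu k with hq
    have hq0 : 0 ≤ q := by positivity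
    have hqle : ENNReal.ofReal q ≤ μ (Set.Ioi ((2 : ℝ) ^ (n k))) *
        (volume.restrict (Set.Icc (0 : ℝ) 1)) (Set.Iio c₀) * ν (Set.Iic (t k)) := by
      rw [uniform_Iio hc₀pos.le hc₀le, hq, ENNReal.ofReal_mul (by positivity),
        ENNReal.ofReal_mul (by positivity)]
      gcongr
      · rw [← ENNReal.ofReal_toReal (measure_ne_top μ (Set.Ioi ((2 : ℝ) ^ (n k))))]
        exact ENNReal.ofReal_le_ofReal (htl (n k))
      · rw [← ENNReal.ofReal_toReal (measure_ne_top ν (Set.Iic (t k)))]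
        exact ENNReal.ofReal_le_ofReal (le_cdfR_quantile hν (huu0 k) (huu1 k hk))
    have hexp : ∀ x : Fin d → ℤ,
        P (⋂ y ∈ boxF x (M k), (goodEv W U L (Set.Ioi ((2 : ℝ) ^ (n k))) (Set.Iio c₀)
      (Set.Iic (t k)) x y)ᶜ) ≤ ENNReal.ofReal (Real.exp (-(c' * ((2 : ℝ) ^ σ) ^ k))) := by
      intro x
      refine (prob_no_good_le h measurableSet_Ioi measurableSet_Iio measurableSet_Iic x
        (boxF x (M k)) hq0 hqle).trans ?_
      apply ENNReal.ofReal_le_ofReal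
      apply Real.exp_le_exp.mpr
      apply neg_le_neg
      rw [card_boxF]
      push_cast
      have h1 : (2 : ℝ) ^ ((((k + n k : ℕ) : ℝ)) * s₀) ≤ (M k : ℝ) ^ d := by
        calc (2 : ℝ) ^ ((((k + n k : ℕ) : ℝ)) * s₀)
            = ((2 : ℝ) ^ (((k + n k : ℕ) : ℝ) / α)) ^ d := by
              rw [two_pow_rpow]; congr 1; rw [hs₀]; ring
          _ ≤ (M k : ℝ) ^ d := by
              gcongr
              exact hM_ge k
      calc c' * ((2 : ℝ) ^ σ) ^ k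
          = ct * c₀ * ((2 : ℝ) ^ (-(p - s₀)) * (2 : ℝ) ^ (σ * k)) := by
            rw [hc', two_pow_rpow]; ring
        _ = ct * c₀ * (2 : ℝ) ^ (-(p - s₀) + σ * k) := by
            rw [← Real.rpow_add (by norm_num)]
        _ ≤ ct * c₀ * (2 : ℝ) ^ (-p * (n k) + -θ1 * k + ((k + n k : ℕ) : ℝ) * s₀) := by
            have : -(p - s₀) + σ * k ≤ -p * (n k) + -θ1 * k + ((k + n k : ℕ) : ℝ) * s₀ := by
              push_cast
              have h2 := mul_le_mul_of_nonneg_right (hn_le k) hps.le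
              have h3 : -p * (n k : ℝ) + -θ1 * k + ((k : ℝ) + n k) * s₀
                = (s₀ - θ1) * k - (n k : ℝ) * (p - s₀) := by ring
              rw [h3, hσ]
              linarith
            gcongr
            norm_num
        _ = (ct * ((2 : ℝ) ^ (-p)) ^ (n k)) * c₀ * uu k *
            (2 : ℝ) ^ (((k + n k : ℕ) : ℝ) * s₀) := by
            rw [Real.rpow_add (by norm_num), Real.rpow_add (by norm_num)]
            simp only [huu]
            rw [two_pow_rpow, two_pow_rpow]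
            ring
        _ ≤ q * (M k : ℝ) ^ d := by
            rw [hq]; gcongr
    have hsub : E k ⊆ ⋃ x ∈ ballF d (2 ^ (k * Θ)),
        (⋂ y ∈ boxF x (M k), (goodEv W U L (Set.Ioi ((2 : ℝ) ^ (n k))) (Set.Iio c₀)
      (Set.Iic (t k)) x y)ᶜ) := by
      rintro ω ⟨x, hx1, hx2⟩
      exact Set.mem_biUnion (mem_ballF_of_eucl_le hx1) hx2
    calc P (E k) ≤ P (⋃ x ∈ ballF d (2 ^ (k * Θ)),
        (⋂ y ∈ boxF x (M k), (goodEv W U L (Set.Ioi ((2 : ℝ) ^ (n k))) (Set.Iio c₀)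
      (Set.Iic (t k)) x y)ᶜ)) := measure_mono hsub
      _ ≤ ∑ x ∈ ballF d (2 ^ (k * Θ)),
        P (⋂ y ∈ boxF x (M k), (goodEv W U L (Set.Ioi ((2 : ℝ) ^ (n k))) (Set.Iio c₀)
      (Set.Iic (t k)) x y)ᶜ) := measure_biUnion_finset_le _ _
      _ ≤ ∑ x ∈ ballF d (2 ^ (k * Θ)),
        ENNReal.ofReal (Real.exp (-(c' * ((2 : ℝ) ^ σ) ^ k))) :=
          Finset.sum_le_sum (fun x _ => hexp x)
      _ = ((2 * 2 ^ (k * Θ) + 1) ^ d : ℕ) * ENNReal.ofReal (Real.exp (-(c' * ((2 : ℝ) ^ σ) ^ k))) := by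
          rw [Finset.sum_const, card_ballF]; simp
      _ ≤ ENNReal.ofReal ((3 : ℝ) ^ d * ((2 : ℝ) ^ (Θ * d)) ^ k) *
          ENNReal.ofReal (Real.exp (-(c' * ((2 : ℝ) ^ σ) ^ k))) := by
          gcongr
          rw [← ENNReal.ofReal_natCast]
          apply ENNReal.ofReal_le_ofReal
          push_cast
          calc ((2 : ℝ) * 2 ^ (k * Θ) + 1) ^ d ≤ (3 * 2 ^ (k * Θ)) ^ d := by
                gcongr
                have : (1 : ℝ) ≤ 2 ^ (k * Θ) := one_le_pow₀ (by norm_num)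
                linarith
            _ = (3 : ℝ) ^ d * ((2 : ℝ) ^ (Θ * d)) ^ k := by
                rw [mul_pow, ← pow_mul, ← pow_mul]
                congr 2
                ring
      _ = _ := by
          rw [← ENNReal.ofReal_mul (by positivity), mul_assoc]
  have hsumE : ∑' k, P (E (k + 1)) ≠ ∞ := by
    have hs : Summable fun k : ℕ => (3 : ℝ) ^ d *
      (((2 : ℝ) ^ (Θ * d)) ^ k * Real.exp (-(c' * ((2 : ℝ) ^ σ) ^ k))) :=
      (summable_superexp (by positivity)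
        (Real.one_lt_rpow (by norm_num) hσpos) hc'pos).mul_left _
    have hs' := (summable_nat_add_iff 1).mpr hs
    refine ne_of_lt (lt_of_le_of_lt (ENNReal.tsum_le_tsum (fun k => hPE (k + 1) (by omega))) ?_)
    rw [← ENNReal.ofReal_tsum_of_nonneg (fun k => by positivity) hs']
    exact ENNReal.ofReal_lt_top
  have hBC : ∀ᵐ ω ∂P, ∀ᶠ k in atTop, ω ∉ E (k + 1) := ae_eventually_notMem hsumE
  -- deterministic thresholds
  obtain ⟨u₀, hu₀, hu₀1, hhalf⟩ := quantile_halving hν hηpos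
  obtain ⟨ka, hka⟩ := eventually_atTop.mp (huuto.eventually_lt_const hu₀)
  obtain ⟨kb, hkb⟩ := pow_unbounded_of_one_lt (2 * D) (by norm_num : (1 : ℝ) < 2)
  have A1 : ∀ k ≥ 1, k + 1 ≤ n k := by
    intro k hk
    have hk' : (0 : ℝ) < k := by exact_mod_cast hk
    have : (k : ℝ) < (1 + η) * k := by nlinarith
    exact Nat.lt_ceil.mpr this
  have A2 : ∀ k ≥ max 1 kb, (2 : ℝ) ^ (k * Θ) + D * (2 : ℝ) ^ (((k + n k : ℕ) : ℝ) / α) ≤
      (2 : ℝ) ^ (n k * Θ) := by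
    intro k hk
    have hk1 : 1 ≤ k := (le_max_left _ _).trans hk
    have hkb' : kb ≤ k := (le_max_right _ _).trans hk
    have hnk := A1 k hk1
    have e1 : (2 : ℝ) ^ (k * Θ) ≤ (1 / 2) * (2 : ℝ) ^ (n k * Θ) := by
      have : (2 : ℝ) * 2 ^ (k * Θ) ≤ 2 ^ (n k * Θ) := by
        calc (2 : ℝ) * 2 ^ (k * Θ) = 2 ^ (k * Θ + 1) := by rw [pow_succ]; ring
          _ ≤ 2 ^ (n k * Θ) := by
            apply pow_le_pow_right₀ (by norm_num)
            calc k * Θ + 1 ≤ k * Θ + Θ := by omega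
              _ = (k + 1) * Θ := by ring
              _ ≤ n k * Θ := Nat.mul_le_mul_right _ hnk
      linarith
    have e2 : D * (2 : ℝ) ^ (((k + n k : ℕ) : ℝ) / α) ≤ (1 / 2) * (2 : ℝ) ^ (n k * Θ) := by
      have hD2 : 2 * D ≤ (2 : ℝ) ^ k :=
        hkb.le.trans (pow_le_pow_right₀ (by norm_num) hkb')
      have h3 : (2 : ℝ) ^ (((k + n k : ℕ) : ℝ) / α) ≤ (2 : ℝ) ^ (k + n k) := by
        rw [← Real.rpow_natCast]
        apply Real.rpow_le_rpow_of_exponent_le (by norm_num)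
        exact div_le_self (by positivity) hα1.le
      have h4 : (2 : ℝ) ^ k * (2 : ℝ) ^ (k + n k) ≤ (2 : ℝ) ^ (n k * Θ) := by
        rw [← pow_add]
        apply pow_le_pow_right₀ (by norm_num)
        calc k + (k + n k) ≤ n k * 3 := by omega
          _ ≤ n k * Θ := Nat.mul_le_mul_left _ hΘ
      have hpos : (0 : ℝ) < (2 : ℝ) ^ (((k + n k : ℕ) : ℝ) / α) := by positivity
      calc D * (2 : ℝ) ^ (((k + n k : ℕ) : ℝ) / α)
          = (1 / 2) * ((2 * D) * (2 : ℝ) ^ (((k + n k : ℕ) : ℝ) / α)) := by ring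
        _ ≤ (1 / 2) * ((2 : ℝ) ^ k * (2 : ℝ) ^ (k + n k)) := by gcongr
        _ ≤ _ := by gcongr
    linarith
  have A3 : ∀ k ≥ max 1 ka, ∀ k' ≥ n k, t k' ≤ t k / 2 := by
    intro k hk k' hk'
    have hk1 : 1 ≤ k := (le_max_left _ _).trans hk
    have hka' : ka ≤ k := (le_max_right _ _).trans hk
    apply hhalf _ _ (huu0 k) (hka k hka') (huu0 k')
    simp only [huu]
    rw [two_pow_rpow, two_pow_rpow, ← Real.rpow_mul (by norm_num)]
    apply Real.rpow_le_rpow_of_exponent_le (by norm_num)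
    have h5 : (1 + η) * (k : ℝ) ≤ k' := (hn_ge k).trans (by exact_mod_cast hk')
    nlinarith
  have A4 : ∀ k ≥ 1, 0 < t k := fun k hk => quantile_pos hν (huu0 k) (huu1 k hk)
  filter_upwards [hBC] with ω hω
  obtain ⟨kc, hkc⟩ := eventually_atTop.mp hω
  set k₁ : ℕ := max (max 1 ka) (max kb (kc + 1)) with hk₁
  have hk1_1 : 1 ≤ k₁ := (le_max_left _ _).trans (le_max_left _ _)
  have hk1_a : ka ≤ k₁ := (le_max_right _ _).trans (le_max_left _ _)
  have hk1_b : kb ≤ k₁ := (le_max_left _ _).trans (le_max_right _ _)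
  have hk1_c : kc + 1 ≤ k₁ := (le_max_right _ _).trans (le_max_right _ _)
  have H : ∀ k ≥ k₁, ∀ x : Fin d → ℤ, eucl x ≤ (2 : ℝ) ^ (k * Θ) → ∃ y : Fin d → ℤ, y ≠ x ∧
      eucl (x - y) ≤ D * (2 : ℝ) ^ (((k + n k : ℕ) : ℝ) / α) ∧ (2 : ℝ) ^ (n k) < W y ω ∧
      U s(x, y) ω < c₀ ∧ L s(x, y) ω ≤ t k := by
    intro k hk x hx
    have hnot := hkc (k - 1) (by omega)
    rw [show k - 1 + 1 = k by omega] at hnot
    simp only [hE, Set.mem_ofPred_eq, not_exists, not_and] at hnot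
    have h1 := hnot x (by push_cast; exact hx)
    simp only [Set.mem_iInter, Set.mem_compl_iff, not_forall, not_not] at h1
    obtain ⟨y, hy, hgood⟩ := h1
    obtain ⟨hyx, hyd⟩ := mem_boxF hd hy
    refine ⟨y, hyx, hyd.trans ?_, hgood.1.1, hgood.1.2, hgood.2⟩
    calc Real.sqrt d * (M k : ℝ) ≤ Real.sqrt d * (2 * (2 : ℝ) ^ (((k + n k : ℕ) : ℝ) / α)) := by
          gcongr
          exact hM_le k
      _ = D * (2 : ℝ) ^ (((k + n k : ℕ) : ℝ) / α) := by rw [hD]; ring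
  have hchain : ∀ x, (2 : ℝ) ^ k₁ ≤ W x ω → eucl x ≤ (2 : ℝ) ^ (lev (W x ω) * Θ) →
        ∃ v, IsExploding α lam (fun x => W x ω) (fun e => U e ω) (fun e => L e ω) x v ∧
          pathLength (fun e => L e ω) v ≤ ENNReal.ofReal (2 * t (lev (W x ω))) := by
    intro x hx1 hx2
    exact exists_exploding_chain (w := fun x => W x ω) (u := fun e => U e ω)
      (l := fun e => L e ω) hα0 hlam hDpos (c₀ := c₀) le_rfl (n := n) (t := t) (Θ := Θ)
      (k₀ := k₁) H (fun k hk => A1 k (hk1_1.trans hk))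
      (fun k hk => A2 k (max_le (hk1_1.trans hk) (hk1_b.trans hk)))
      (fun k hk => A3 k (max_le (hk1_1.trans hk) (hk1_a.trans hk)))
      (fun k hk => A4 k (hk1_1.trans hk)) hx1 hx2
  refine ⟨⟨k₁, hchain⟩, ?_⟩
  -- existence of one heavy vertex
  obtain ⟨y, -, hy1, hy2, -, -⟩ := H k₁ le_rfl 0 (by simp)
  have hnk : k₁ ≤ n k₁ := (Nat.le_succ _).trans (A1 k₁ hk1_1)
  have hy3 : (2 : ℝ) ^ k₁ ≤ W y ω :=
    (pow_le_pow_right₀ (by norm_num) hnk).trans hy2.le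
  have hy4 : eucl y ≤ (2 : ℝ) ^ (lev (W y ω) * Θ) := by
    have e0 : eucl y = eucl (0 - y) := by rw [zero_sub, eucl_neg]
    calc eucl y ≤ D * (2 : ℝ) ^ (((k₁ + n k₁ : ℕ) : ℝ) / α) := by rw [e0]; exact hy1
      _ ≤ (2 : ℝ) ^ (k₁ * Θ) + D * (2 : ℝ) ^ (((k₁ + n k₁ : ℕ) : ℝ) / α) := by
          have : (0 : ℝ) ≤ (2 : ℝ) ^ (k₁ * Θ) := by positivity
          linarith
      _ ≤ (2 : ℝ) ^ (n k₁ * Θ) := A2 k₁ (max_le hk1_1 hk1_b)
      _ ≤ (2 : ℝ) ^ (lev (W y ω) * Θ) := by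
          apply pow_le_pow_right₀ (by norm_num)
          exact Nat.mul_le_mul_right _ (le_lev hy2.le)
  obtain ⟨v, hv, -⟩ := hchain y hy3 hy4
  exact ⟨y, v, hv⟩

end Pool.Agent.SFP
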