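import Pool.Agent.Work.MP_c3e920_pr.BadB
import Pool.Agent.Work.MP_c3e920_pr.Hubs

open MeasureTheory ProbabilityTheory Filter Topology
open scoped ENNReal NNReal

namespace Pool.Agent.SFP

variable {d : ℕ}

lemma not_adj_self {α lam : ℝ} {w : (Fin d → ℤ) → ℝ} {u : Sym2 (Fin d → ℤ) → ℝ} (x : Fin d → ℤ) :
    ¬ Adj α lam w u x x := by
  rintro (h | ⟨h, -⟩)
  · rw [sub_self, eucl_zero] at h; norm_num at h
  · rw [sub_self, eucl_zero] at h; norm_num at h

section
variable {Ω : Type*} [mΩ : MeasurableSpace Ω] {P : Measure Ω}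
  {W : (Fin d → ℤ) → Ω → ℝ} {U L : Sym2 (Fin d → ℤ) → Ω → ℝ} {μ ν : Measure ℝ}

/-- local finiteness -/
theorem locally_finite [IsProbabilityMeasure P] [IsProbabilityMeasure μ] [IsProbabilityMeasure ν]
    (h : IsWeightedSFP P W U L μ ν) (hd : 1 ≤ d) {α lam β : ℝ} (hα : (d : ℝ) < α)
    (hlam : 0 < lam) (hβ1 : (d : ℝ) / α < β) {ell : ℝ → ℝ}
    (hell : SlowlyVarying ell) (hμ1 : μ (Set.Iio 1) = 0)
    (hμ : ∀ t : ℝ, 1 ≤ t → μ.real (Set.Ioi t) = ell t * t ^ (-β)) :
    ∀ᵐ ω ∂P, ∀ x, {y | Adj α lam (fun x => W x ω) (fun e => U e ω) x y}.Finite := by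
  rw [ae_all_iff]
  intro x
  have hd0 : (0 : ℝ) < d := by exact_mod_cast hd
  have hα0 : 0 < α := by linarith
  have hs₀1 : (d : ℝ) / α < 1 := by rw [div_lt_one hα0]; exact hα
  have hs₀0 : 0 < (d : ℝ) / α := by positivity
  obtain ⟨s, hs1, hs2⟩ := exists_between (lt_min hs₀1 hβ1)
  have hs0 : 0 ≤ s := by linarith
  have hslt1 : s < 1 := hs2.trans_le (min_le_left _ _)
  have hsβ : s < β := hs2.trans_le (min_le_right _ _)
  have hZ : zsum d (α * s) ≠ ∞ := by
    apply ne_of_lt
    apply tsum_eucl_rpow_lt_top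
    rw [div_lt_iff₀ hα0] at hs1
    linarith
  have hGU : (∫⁻ t in Set.Icc (0 : ℝ) 1, gU s t) ≠ ∞ := (lintegral_gU_lt_top hslt1).ne
  have hM : mom μ s ≠ ∞ := (mom_lt_top hell hμ hs0 hsβ).ne
  set f : ℝ → ℝ≥0∞ := (Set.Ici (1 : ℝ)).indicator (fun t => ENNReal.ofReal (t ^ s)) with hf
  have hfm : Measurable f := (measurable_ofReal_rpow _).indicator measurableSet_Ici
  have hfint : ∫⁻ t, f t ∂μ = mom μ s := by
    rw [hf, lintegral_indicator measurableSet_Ici]; rfl
  have hP : ∀ y, P {ω | Adj α lam (fun x => W x ω) (fun e => U e ω) x y} ≤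
      kern (α * s) x y * (ENNReal.ofReal ((max lam 1) ^ s) *
        ((mom μ s * mom μ s) * ∫⁻ t in Set.Icc (0 : ℝ) 1, gU s t)) := by
    intro y
    by_cases hxy : x = y
    · subst hxy
      have : {ω | Adj α lam (fun x => W x ω) (fun e => U e ω) x x} = ∅ := by
        ext ω
        simp only [Set.mem_ofPred_eq, Set.mem_empty_iff_false, iff_false]
        exact not_adj_self x
      rw [this]; simp
    · have hinj : Function.Injective (![x, y] : Fin 2 → (Fin d → ℤ)) := by
        intro i k hik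
        fin_cases i <;> fin_cases k <;> simp at hik ⊢
        · exact hxy hik
        · exact hxy hik.symm
      have hint := lintegral_path h (j := 1) hinj (fun _ => f) (fun _ => hfm)
        (measurable_gU s) (measurable_const (a := (1 : ℝ≥0∞)))
      have hint' : ∫⁻ ω, f (W x ω) * f (W y ω) * gU s (U s(x, y) ω) ∂P =
          (mom μ s * mom μ s) * ∫⁻ t in Set.Icc (0 : ℝ) 1, gU s t := by
        have e0 : ∀ ω, (∏ i : Fin 2, f (W ((![x, y] : Fin 2 → (Fin d → ℤ)) i) ω)) *
            ((∏ i : Fin 1, gU s (U s((![x, y] : Fin 2 → (Fin d → ℤ)) i.castSucc,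
              (![x, y] : Fin 2 → (Fin d → ℤ)) i.succ) ω)) *
            ∏ i : Fin 1, (1 : ℝ≥0∞)) = f (W x ω) * f (W y ω) * gU s (U s(x, y) ω) := by
          intro ω
          simp [Fin.prod_univ_two]
        rw [← lintegral_congr e0]
        refine hint.trans ?_
        rw [Fin.prod_univ_two, hfint]
        simp
      set F : Ω → ℝ≥0∞ := fun ω => f (W x ω) * f (W y ω) * gU s (U s(x, y) ω) with hF
      have hFm : Measurable F :=
        ((hfm.comp (h.measurable_W x)).mul (hfm.comp (h.measurable_W y))).mul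
          ((measurable_gU s).comp (h.measurable_U _))
      have hle : P {ω | Adj α lam (fun x => W x ω) (fun e => U e ω) x y} ≤
          P {ω | 1 ≤ (ENNReal.ofReal ((max lam 1) ^ s) * kern (α * s) x y) * F ω} := by
        apply measure_mono_ae
        filter_upwards [ae_basic h hμ1] with ω hω hadj
        obtain ⟨hW, hU⟩ := hω
        have e1 := one_le_edge (w := fun x => W x ω) (u := fun e => U e ω) hlam hs0 hxy
          (hW _) (hW _) (hU _) hadj
        have e2 : f (W x ω) = ENNReal.ofReal (W x ω ^ s) := by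
          simp only [hf]; rw [Set.indicator_of_mem (Set.mem_Ici.mpr (hW x))]
        have e3 : f (W y ω) = ENNReal.ofReal (W y ω ^ s) := by
          simp only [hf]; rw [Set.indicator_of_mem (Set.mem_Ici.mpr (hW y))]
        show 1 ≤ (ENNReal.ofReal ((max lam 1) ^ s) * kern (α * s) x y) * F ω
        simp only [hF]
        rw [e2, e3]
        refine e1.trans (le_of_eq ?_)
        ring
      refine hle.trans ?_
      refine (meas_ge_le_lintegral_div (hFm.const_mul _).aemeasurable one_ne_zero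
        ENNReal.one_ne_top).trans ?_
      rw [div_one, lintegral_const_mul _ hFm, hF, hint']
      apply le_of_eq
      ring
  have hsum : ∑' y, P {ω | Adj α lam (fun x => W x ω) (fun e => U e ω) x y} ≠ ∞ := by
    refine ne_of_lt (lt_of_le_of_lt (ENNReal.tsum_le_tsum hP) ?_)
    rw [ENNReal.tsum_mul_right, tsum_kern]
    apply ENNReal.mul_lt_top (lt_top_iff_ne_top.mpr hZ)
    apply ENNReal.mul_lt_top ENNReal.ofReal_lt_top
    exact ENNReal.mul_lt_top (ENNReal.mul_lt_top (lt_top_iff_ne_top.mpr hM)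
      (lt_top_iff_ne_top.mpr hM)) (lt_top_iff_ne_top.mpr hGU)
  have := ae_finite_setOfPred_mem hsum
  filter_upwards [this] with ω hω
  exact hω

/-- the growth theorem for a fixed number of steps -/
theorem growth [IsProbabilityMeasure P] [IsProbabilityMeasure μ] [IsProbabilityMeasure ν]
    (h : IsWeightedSFP P W U L μ ν) (hd : 1 ≤ d) {α lam β : ℝ} (hα : (d : ℝ) < α)
    (hlam : 0 < lam) (hβ1 : (d : ℝ) / α < β) (hβ2 : β < 2 * ((d : ℝ) / α)) {ell : ℝ → ℝ}
    (hell : SlowlyVarying ell) (hμ1 : μ (Set.Iio 1) = 0)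
    (hμ : ∀ t : ℝ, 1 ≤ t → μ.real (Set.Ioi t) = ell t * t ^ (-β)) (hν : LogSlowAtZero ν)
    {C' : ℝ} (hC'0 : 0 ≤ C') (hC' : (d : ℝ) + 3 ≤ C' * (β - (d : ℝ) / α))
    (m D : ℕ) (hm : 1 ≤ m) (hD1 : 2 ≤ D)
    (hD : (d : ℝ) + 2 + 2 * C' * m ≤ (α * ((1 - (d : ℝ) / α) / 4)) * D) :
    ∀ᵐ ω ∂P, ∀ v, IsShortestExploding α lam (fun x => W x ω) (fun e => U e ω) (fun e => L e ω) v →
      ∃ r₀ : ℕ, 1 ≤ r₀ ∧ ∀ n, eucl (v n) ≤ ((r₀ : ℕ) : ℝ) ^ (D ^ (n / m + 1)) := by
  obtain ⟨ε, hε, θ, hθ0, hθ1, hbad1⟩ := bad1 h hd hα hlam hβ1 hβ2 hell hμ1 hμ hC'0 hC' m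
  set Θ : ℕ := max 3 ⌈2 * (D : ℝ) / ε⌉₊ with hΘ
  have hΘ3 : 3 ≤ Θ := le_max_left _ _
  have hΘD : 2 * (D : ℝ) / ε ≤ Θ := (Nat.le_ceil _).trans (Nat.cast_le.mpr (le_max_right _ _))
  obtain ⟨T, hT0, hTk, hhubs⟩ := hubs h hd hα hlam hβ1 hell hμ hν hθ0 hθ1 hΘ3
  have hb1 : ∀ᵐ ω ∂P, ∀ j, j ≤ m → ∀ᶠ r : ℕ in atTop, ∀ x : Fin (j + 1) → (Fin d → ℤ),
        Function.Injective x → eucl (x 0) ≤ r → ω ∉ Bad1 α lam C' ε T W U L j r x := by
    rw [ae_all_iff]
    intro j
    by_cases hj : j ≤ m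
    · filter_upwards [hbad1 T hTk j hj] with ω hω _
      exact hω
    · exact Eventually.of_forall (fun ω hj' => absurd hj' hj)
  have hb2 : ∀ᵐ ω ∂P, ∀ j, j ≤ m → ∀ᶠ r : ℕ in atTop, ∀ x : Fin (j + 1) → (Fin d → ℤ),
        Function.Injective x → eucl (x 0) ≤ r → ω ∉ Bad2 α lam C' D W U j r x := by
    rw [ae_all_iff]
    intro j
    by_cases hj : j ≤ m
    · filter_upwards [bad2 (ν := ν) h hd hα hlam hμ1 hC'0 m D hm hD1 hD j hj] with ω hω _
      exact hω
    · exact Eventually.of_forall (fun ω hj' => absurd hj' hj)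
  filter_upwards [hb1, hb2, hhubs, ae_basic h hμ1] with ω hω1 hω2 hω3 hω4 v hv
  obtain ⟨⟨k₁, hk₁⟩, -⟩ := hω3
  obtain ⟨hW, hU⟩ := hω4
  have hv1 := hv.1
  -- eventually in r, all good
  have hev1 : ∀ᶠ r : ℕ in atTop, ∀ j ≤ m, ∀ x : Fin (j + 1) → (Fin d → ℤ),
        Function.Injective x → eucl (x 0) ≤ r → ω ∉ Bad1 α lam C' ε T W U L j r x := by
    have : ∀ᶠ r : ℕ in atTop, ∀ j ∈ Finset.range (m + 1), ∀ x : Fin (j + 1) → (Fin d → ℤ),
        Function.Injective x → eucl (x 0) ≤ r → ω ∉ Bad1 α lam C' ε T W U L j r x := by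
      rw [eventually_all_finset]
      intro j hj
      exact hω1 j (by simpa [Nat.lt_succ_iff] using hj)
    filter_upwards [this] with r hr j hj
    exact hr j (by simpa [Nat.lt_succ_iff] using hj)
  have hev2 : ∀ᶠ r : ℕ in atTop, ∀ j ≤ m, ∀ x : Fin (j + 1) → (Fin d → ℤ),
        Function.Injective x → eucl (x 0) ≤ r → ω ∉ Bad2 α lam C' D W U j r x := by
    have : ∀ᶠ r : ℕ in atTop, ∀ j ∈ Finset.range (m + 1), ∀ x : Fin (j + 1) → (Fin d → ℤ),
        Function.Injective x → eucl (x 0) ≤ r → ω ∉ Bad2 α lam C' D W U j r x := by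
      rw [eventually_all_finset]
      intro j hj
      exact hω2 j (by simpa [Nat.lt_succ_iff] using hj)
    filter_upwards [this] with r hr j hj
    exact hr j (by simpa [Nat.lt_succ_iff] using hj)
  have hcast : Tendsto (fun r : ℕ => (r : ℝ)) atTop atTop := tendsto_natCast_atTop_atTop
  have hev3 : ∀ᶠ r : ℕ in atTop, (2 : ℝ) ^ (k₁ + 1) ≤ (r : ℝ) ^ ε :=
    ((tendsto_rpow_atTop hε).comp hcast).eventually_ge_atTop _
  have hev4 : ∀ᶠ r : ℕ in atTop, (2 : ℝ) ≤ (r : ℝ) ^ (ε / 2) :=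
    ((tendsto_rpow_atTop (by positivity)).comp hcast).eventually_ge_atTop _
  obtain ⟨r₀, hr₀⟩ := eventually_atTop.mp
    ((hev1.and hev2).and ((hev3.and hev4).and (eventually_ge_atTop 1)))
  -- the one-step statement
  have hstep : ∀ r : ℕ, r₀ ≤ r → ∀ n, eucl (v n) ≤ r → ∀ j ≤ m, eucl (v (n + j)) ≤ (r : ℝ) ^ D := by
    intro r hr n hn
    obtain ⟨⟨h1, h2⟩, ⟨h3, h4⟩, h5⟩ := hr₀ r hr
    have hr1 : (1 : ℝ) ≤ r := by exact_mod_cast h5
    have hr0 : (0 : ℝ) < r := by linarith
    -- no failure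
    have hno : ∀ J, J ≤ m → W (v (n + J)) ω ≤ (r : ℝ) ^ C' ∧ eucl (v (n + J)) ≤ (r : ℝ) ^ D := by
      intro J
      induction J using Nat.strong_induction_on with
      | _ J ih =>
        intro hJ
        set x : Fin (J + 1) → (Fin d → ℤ) := fun i => v (n + i) with hx
        have hxinj : Function.Injective x := by
          intro a b hab
          have := hv1.injective hab
          apply Fin.ext
          omega
        have hx0 : eucl (x 0) ≤ r := by simpa [hx] using hn
        have hadj : ∀ i : Fin J, Adj α lam (fun x => W x ω) (fun e => U e ω)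
            (x i.castSucc) (x i.succ) := by
          intro i
          have := hv1.adj (n + i)
          simpa [hx, add_assoc] using this
        have hWJ : W (v (n + J)) ω ≤ (r : ℝ) ^ C' := by
          by_contra hlt
          push Not at hlt
          refine h1 J hJ x hxinj hx0 ⟨hadj, ?_, ?_, ?_⟩
          · intro i
            have := (ih i i.2 (le_of_lt (lt_of_lt_of_le i.2 hJ))).1
            simpa [hx] using this
          · intro i hi
            have hdist := (ih i i.2 (le_of_lt (lt_of_lt_of_le i.2 hJ))).2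
            have hxi : x i.castSucc = v (n + i) := by simp [hx]
            have hxi' : x i.succ = v (n + i + 1) := by simp [hx, add_assoc]
            rw [hxi] at hi ⊢
            rw [hxi']
            -- lower bound on the level
            have hlevspec := lev_spec (hW (v (n + i)))
            have hk₁le : (2 : ℝ) ^ k₁ ≤ W (v (n + i)) ω := by
              calc (2 : ℝ) ^ k₁ ≤ (2 : ℝ) ^ (k₁ + 1) :=
                    pow_le_pow_right₀ (by norm_num) (Nat.le_succ _)
                _ ≤ (r : ℝ) ^ ε := h3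
                _ ≤ _ := hi
            have hlow : (r : ℝ) ^ (ε / 2) ≤ (2 : ℝ) ^ (lev (W (v (n + i)) ω)) := by
              have e1 : (r : ℝ) ^ ε = (r : ℝ) ^ (ε / 2) * (r : ℝ) ^ (ε / 2) := by
                rw [← Real.rpow_add hr0]; congr 1; ring
              have e2 : (r : ℝ) ^ ε < (2 : ℝ) ^ (lev (W (v (n + i)) ω)) * 2 := by
                rw [← pow_succ]; exact lt_of_le_of_lt hi hlevspec.2
              have e3 : 0 < (r : ℝ) ^ (ε / 2) := Real.rpow_pos_of_pos hr0 _
              nlinarith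
            have hfarle : eucl (v (n + i)) ≤ (2 : ℝ) ^ (lev (W (v (n + i)) ω) * Θ) := by
              calc eucl (v (n + i)) ≤ (r : ℝ) ^ D := hdist
                _ = (r : ℝ) ^ (D : ℝ) := by rw [Real.rpow_natCast]
                _ ≤ (r : ℝ) ^ (ε / 2 * Θ) := by
                    apply Real.rpow_le_rpow_of_exponent_le hr1
                    rw [div_le_iff₀ hε] at hΘD
                    linarith
                _ = ((r : ℝ) ^ (ε / 2)) ^ Θ := by
                    rw [Real.rpow_mul hr0.le, Real.rpow_natCast]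
                _ ≤ ((2 : ℝ) ^ (lev (W (v (n + i)) ω))) ^ Θ := by gcongr
                _ = _ := by rw [← pow_mul]
            obtain ⟨v', hv', hv'len⟩ := hk₁ (v (n + i)) hk₁le hfarle
            have hle := (edge_le_of_exploding hv (n + i) hv').trans hv'len
            exact (ENNReal.ofReal_le_ofReal_iff (hT0 _)).mp hle
          · simpa [hx] using hlt
        refine ⟨hWJ, ?_⟩
        by_contra hlt
        push Not at hlt
        refine h2 J hJ x hxinj hx0 ⟨hadj, ?_, ?_⟩
        · intro i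
          rcases Nat.lt_or_ge (i : ℕ) J with hi | hi
          · exact (ih i hi (by omega)).1
          · have : (i : ℕ) = J := by omega
            simp only [hx, this]; exact hWJ
        · simpa [hx] using hlt
    intro j hj
    exact (hno j hj).2
  -- iterate
  have hr₀1 : 1 ≤ r₀ := (hr₀ r₀ le_rfl).2.2
  refine ⟨r₀, hr₀1, ?_⟩
  have hD0 : 1 ≤ D := by omega
  have hiter : ∀ k, ∀ j ≤ m, eucl (v (k * m + j)) ≤ ((r₀ : ℕ) : ℝ) ^ (D ^ (k + 1)) := by
    intro k
    induction k with
    | zero =>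
      intro j hj
      have := hstep r₀ le_rfl 0 (by rw [hv1.start, eucl_zero]; positivity) j hj
      simpa using this
    | succ k ih =>
      intro j hj
      have h1 := ih m le_rfl
      have h2 := hstep (r₀ ^ (D ^ (k + 1))) (by
        calc r₀ = r₀ ^ 1 := (pow_one _).symm
          _ ≤ r₀ ^ (D ^ (k + 1)) := Nat.pow_le_pow_right hr₀1 (Nat.one_le_pow _ _ hD0))
        (k * m + m) (by push_cast; exact h1) j hj
      have e1 : (k + 1) * m + j = k * m + m + j := by ring
      rw [e1]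
      refine h2.trans (le_of_eq ?_)
      push_cast
      rw [← pow_mul, ← pow_succ]
  intro n
  have := hiter (n / m) (n % m) (Nat.mod_lt n (by omega)).le
  rwa [Nat.div_add_mod'] at this

end

end Pool.Agent.SFP
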