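import Pool.Agent.Work.MP_c3e920_pr.Growth

open MeasureTheory ProbabilityTheory Filter Topology
open scoped ENNReal NNReal

namespace Pool.Agent.SFP

variable {d : ℕ} {Ω : Type*} [mΩ : MeasurableSpace Ω] {P : Measure Ω}
  {W : (Fin d → ℤ) → Ω → ℝ} {U L : Sym2 (Fin d → ℤ) → Ω → ℝ} {μ ν : Measure ℝ}

/-- an affine function is beaten by an exponential -/
lemma exists_affine_lt_pow {A B b : ℝ} (hb : 1 < b) : ∃ m : ℕ, 1 ≤ m ∧ A + B * m < b ^ m := by
  have h1 : Tendsto (fun m : ℕ => (m : ℝ) ^ 1 / b ^ m) atTop (𝓝 0) :=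
    tendsto_pow_const_div_const_pow_of_one_lt 1 hb
  have h2 : Tendsto (fun m : ℕ => (1 : ℝ) / b ^ m) atTop (𝓝 0) := by
    have := tendsto_pow_const_div_const_pow_of_one_lt 0 hb
    simpa using this
  have h3 : Tendsto (fun m : ℕ => A * ((1 : ℝ) / b ^ m) + B * ((m : ℝ) ^ 1 / b ^ m)) atTop
      (𝓝 (A * 0 + B * 0)) := (h2.const_mul A).add (h1.const_mul B)
  have h4 : ∀ᶠ m : ℕ in atTop, A * ((1 : ℝ) / b ^ m) + B * ((m : ℝ) ^ 1 / b ^ m) < 1 := by
    apply h3.eventually_lt_const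
    norm_num
  obtain ⟨m, hm1, hm2⟩ := (h4.and (eventually_ge_atTop 1)).exists
  refine ⟨m, hm2, ?_⟩
  have hbm : 0 < b ^ m := by positivity
  have h5 : A * ((1 : ℝ) / b ^ m) + B * ((m : ℝ) ^ 1 / b ^ m) = (A + B * m) / b ^ m := by
    field_simp
  rw [h5, div_lt_one hbm] at hm1
  exact hm1

/-- The main theorem, in the form `β = τ - 1`. -/
theorem main [IsProbabilityMeasure P] [IsProbabilityMeasure μ] [IsProbabilityMeasure ν]
    (h : IsWeightedSFP P W U L μ ν) (hd : 1 ≤ d) {α lam β : ℝ} (hα : (d : ℝ) < α)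
    (hlam : 0 < lam) (hβ1 : (d : ℝ) / α < β) (hβ2 : β < 2 * ((d : ℝ) / α)) {ell : ℝ → ℝ}
    (hell : SlowlyVarying ell) (hμ1 : μ (Set.Iio 1) = 0)
    (hμ : ∀ t : ℝ, 1 ≤ t → μ.real (Set.Ioi t) = ell t * t ^ (-β)) (hν : LogSlowAtZero ν) :
    ∀ᵐ ω ∂P, (∃ v, IsShortestExploding α lam (fun x => W x ω) (fun e => U e ω)
        (fun e => L e ω) v) ∧
      ∀ v, IsShortestExploding α lam (fun x => W x ω) (fun e => U e ω) (fun e => L e ω) v →
        ∀ b : ℝ, 1 < b → ∀ᶠ n in atTop, eucl (v n) < Real.exp (b ^ n) := by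
  have hd0 : (0 : ℝ) < d := by exact_mod_cast hd
  have hα0 : 0 < α := by linarith
  have hs₀1 : (d : ℝ) / α < 1 := by rw [div_lt_one hα0]; exact hα
  set s₀ : ℝ := (d : ℝ) / α with hs₀
  set ζ : ℝ := α * ((1 - s₀) / 4) with hζ
  have hζpos : 0 < ζ := by rw [hζ]; apply mul_pos hα0; linarith
  have hΓpos : 0 < β - s₀ := by linarith
  set C' : ℝ := ((d : ℝ) + 3) / (β - s₀) with hC'
  have hC'0 : 0 ≤ C' := by positivity
  have hC'1 : (d : ℝ) + 3 ≤ C' * (β - s₀) := by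
    rw [hC', div_mul_cancel₀ _ hΓpos.ne']
  set Dm : ℕ → ℕ := fun m => max 2 ⌈((d : ℝ) + 2 + 2 * C' * m) / ζ⌉₊ with hDm
  have hDm2 : ∀ m, 2 ≤ Dm m := fun m => le_max_left _ _
  have hDm3 : ∀ m : ℕ, (d : ℝ) + 2 + 2 * C' * m ≤ ζ * (Dm m) := by
    intro m
    have h1 : ((d : ℝ) + 2 + 2 * C' * m) / ζ ≤ (Dm m : ℝ) :=
      (Nat.le_ceil _).trans (Nat.cast_le.mpr (le_max_right _ _))
    rw [div_le_iff₀ hζpos] at h1
    linarith
  have hDm4 : ∀ m : ℕ, (Dm m : ℝ) ≤ (3 + ((d : ℝ) + 2) / ζ) + (2 * C' / ζ) * m := by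
    intro m
    have h0 : 0 ≤ ((d : ℝ) + 2 + 2 * C' * m) / ζ := by positivity
    have h1 : ((⌈((d : ℝ) + 2 + 2 * C' * m) / ζ⌉₊ : ℕ) : ℝ) ≤
        ((d : ℝ) + 2 + 2 * C' * m) / ζ + 1 := (Nat.ceil_lt_add_one h0).le
    have h2 : (Dm m : ℝ) = max (2 : ℝ) ((⌈((d : ℝ) + 2 + 2 * C' * m) / ζ⌉₊ : ℕ) : ℝ) := by
      simp only [hDm]; push_cast; rfl
    rw [h2]
    apply max_le
    · have : 0 ≤ ((d : ℝ) + 2) / ζ := by positivity
      have : 0 ≤ (2 * C' / ζ) * m := by positivity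
      linarith
    · refine h1.trans ?_
      have : ((d : ℝ) + 2 + 2 * C' * m) / ζ = ((d : ℝ) + 2) / ζ + (2 * C' / ζ) * m := by
        field_simp
      rw [this]; linarith
  have hgrowth : ∀ᵐ ω ∂P, ∀ m : ℕ, 1 ≤ m → ∀ v, IsShortestExploding α lam (fun x => W x ω)
      (fun e => U e ω) (fun e => L e ω) v →
      ∃ r₀ : ℕ, 1 ≤ r₀ ∧ ∀ n, eucl (v n) ≤ ((r₀ : ℕ) : ℝ) ^ (Dm m ^ (n / m + 1)) := by
    rw [ae_all_iff]
    intro m
    by_cases hm : 1 ≤ m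
    · filter_upwards [growth h hd hα hlam hβ1 hβ2 hell hμ1 hμ hν hC'0 hC'1 m (Dm m) hm (hDm2 m)
        (hDm3 m)] with ω hω _
      exact hω
    · exact Eventually.of_forall (fun ω hm' => absurd hm' hm)
  obtain ⟨θ, hθ0, hθ1⟩ := exists_between (show (0 : ℝ) < 2 * s₀ - β by linarith)
  obtain ⟨T, -, -, hhubs⟩ := hubs h hd hα hlam hβ1 hell hμ hν hθ0 hθ1 (Θ := 3) le_rfl
  filter_upwards [hgrowth, hhubs, locally_finite h hd hα hlam hβ1 hell hμ1 hμ] with ω hω1 hω2 hω3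
  constructor
  · obtain ⟨-, x, v, hv⟩ := hω2
    exact exists_shortest hω3 (exists_exploding_all ⟨v, hv⟩ 0)
  · intro v hv b hb
    obtain ⟨m, hm, hmb⟩ := exists_affine_lt_pow (A := 3 + ((d : ℝ) + 2) / ζ)
      (B := 2 * C' / ζ) hb
    have hDb : (Dm m : ℝ) < b ^ m := (hDm4 m).trans_lt hmb
    obtain ⟨r₀, hr₀, hle⟩ := hω1 m hm v hv
    have hD0 : (0 : ℝ) < Dm m := by
      have := hDm2 m
      exact_mod_cast (by omega : 0 < Dm m)
    -- eventually in k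
    have hratio : Tendsto (fun k : ℕ => ((Dm m : ℝ) * Real.log r₀) * ((Dm m : ℝ) / b ^ m) ^ k) atTop
        (𝓝 (((Dm m : ℝ) * Real.log r₀) * 0)) := by
      apply Tendsto.const_mul
      apply tendsto_pow_atTop_nhds_zero_of_lt_one
      · positivity
      · rw [div_lt_one (by positivity)]; exact hDb
    rw [mul_zero] at hratio
    have hevk : ∀ᶠ k : ℕ in atTop,
        ((Dm m : ℝ) * Real.log r₀) * ((Dm m : ℝ) / b ^ m) ^ k < 1 :=
      hratio.eventually_lt_const one_pos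
    have hdiv : Tendsto (fun n : ℕ => n / m) atTop atTop :=
      Nat.tendsto_div_const_atTop (by omega)
    filter_upwards [hdiv.eventually hevk] with n hn
    set k := n / m with hk
    have hbk : 0 < (b ^ m) ^ k := by positivity
    have h1 : ((Dm m : ℝ) * Real.log r₀) * (Dm m : ℝ) ^ k < (b ^ m) ^ k := by
      rw [div_pow, mul_div_assoc', div_lt_one hbk] at hn
      exact hn
    have h2 : (b ^ m) ^ k ≤ b ^ n := by
      rw [← pow_mul]
      apply pow_le_pow_right₀ hb.le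
      rw [hk, mul_comm]
      exact Nat.div_mul_le_self n m
    have hr₀pos : (0 : ℝ) < r₀ := by exact_mod_cast hr₀
    calc eucl (v n) ≤ ((r₀ : ℕ) : ℝ) ^ (Dm m ^ (k + 1)) := hle n
      _ = Real.exp ((Dm m : ℝ) ^ (k + 1) * Real.log r₀) := by
          rw [← Real.rpow_natCast, Real.rpow_def_of_pos hr₀pos, mul_comm]
          push_cast
          rfl
      _ < Real.exp (b ^ n) := by
          apply Real.exp_lt_exp.mpr
          calc (Dm m : ℝ) ^ (k + 1) * Real.log r₀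
              = ((Dm m : ℝ) * Real.log r₀) * (Dm m : ℝ) ^ k := by rw [pow_succ]; ring
            _ < (b ^ m) ^ k := h1
            _ ≤ b ^ n := h2

end Pool.Agent.SFP
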