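import Pool.Agent.Work.MP_c3e920_pr.Eucl

open MeasureTheory ProbabilityTheory Filter Topology
open scoped ENNReal NNReal

namespace Pool.Agent.SFP

variable {d : ℕ} {α lam : ℝ} {w : (Fin d → ℤ) → ℝ} {u l : Sym2 (Fin d → ℤ) → ℝ}

lemma pathLength_split (v : ℕ → Fin d → ℤ) (n : ℕ) :
    pathLength l v = ∑ k ∈ Finset.range n, ENNReal.ofReal (l s(v k, v (k + 1)))
      + ∑' k, ENNReal.ofReal (l s(v (k + n), v (k + n + 1))) := by
  unfold pathLength
  rw [← Summable.sum_add_tsum_nat_add' (k := n) ENNReal.summable]

/-- A shortest exploding path is also optimal from each of its vertices on (one edge version). -/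
lemma edge_le_of_exploding {v : ℕ → Fin d → ℤ} (hv : IsShortestExploding α lam w u l v) (n : ℕ)
    {v' : ℕ → Fin d → ℤ} (hv' : IsExploding α lam w u l (v n) v') :
    ENNReal.ofReal (l s(v n, v (n + 1))) ≤ pathLength l v' := by
  classical
  obtain ⟨hv1, hv2⟩ := hv
  -- the last visit of `v'` to the initial piece of `v`
  set S : Set ℕ := {j | ∃ i ≤ n, v' j = v i} with hS
  have hSfin : S.Finite := by
    have : S ⊆ v' ⁻¹' (v '' (Set.Iic n)) := by
      intro j hj
      obtain ⟨i, hi, hji⟩ := hj
      exact ⟨i, hi, hji.symm⟩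
    exact (((Set.finite_Iic n).image v).preimage hv'.injective.injOn).subset this
  have hSne : S.Nonempty := ⟨0, n, le_rfl, hv'.start⟩
  obtain ⟨j, hjS, hjmax⟩ := hSfin.exists_maximalFor id S hSne
  have hjmax' : ∀ k ∈ S, k ≤ j := by
    intro k hk
    by_contra hlt
    push Not at hlt
    have := hjmax hk (le_of_lt hlt)
    exact absurd (this : k ≤ j) (not_le.mpr hlt)
  obtain ⟨i, hin, hji⟩ := hjS
  set z : ℕ → Fin d → ℤ := fun k => if k ≤ i then v k else v' (j + (k - i)) with hz
  have hzle : ∀ k, k ≤ i → z k = v k := fun k hk => by simp [hz, hk]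
  have hzge : ∀ k, i ≤ k → z k = v' (j + (k - i)) := by
    intro k hk
    rcases eq_or_lt_of_le hk with h | h
    · subst h; simp [hz, hji]
    · simp [hz, not_le.mpr h]
  have hzinj : Function.Injective z := by
    intro a b hab
    rcases le_or_gt a i with ha | ha <;> rcases le_or_gt b i with hb | hb
    · rw [hzle a ha, hzle b hb] at hab
      exact hv1.injective hab
    · rw [hzle a ha, hzge b hb.le] at hab
      have hmem : j + (b - i) ∈ S := ⟨a, ha.trans hin, hab.symm⟩
      have := hjmax' _ hmem
      omega
    · rw [hzge a ha.le, hzle b hb] at hab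
      have hmem : j + (a - i) ∈ S := ⟨b, hb.trans hin, hab⟩
      have := hjmax' _ hmem
      omega
    · rw [hzge a ha.le, hzge b hb.le] at hab
      have := hv'.injective hab
      omega
  have hzadj : ∀ k, Adj α lam w u (z k) (z (k + 1)) := by
    intro k
    rcases lt_or_ge k i with hk | hk
    · rw [hzle k hk.le, hzle (k + 1) hk]
      exact hv1.adj k
    · rw [hzge k hk, hzge (k + 1) (by omega)]
      have : j + (k + 1 - i) = j + (k - i) + 1 := by omega
      rw [this]
      exact hv'.adj _
  -- length of z
  have hzlen : pathLength l z ≤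
      ∑ k ∈ Finset.range n, ENNReal.ofReal (l s(v k, v (k + 1))) + pathLength l v' := by
    rw [pathLength_split z i]
    gcongr ?_ + ?_
    · calc ∑ k ∈ Finset.range i, ENNReal.ofReal (l s(z k, z (k + 1)))
          = ∑ k ∈ Finset.range i, ENNReal.ofReal (l s(v k, v (k + 1))) := by
            apply Finset.sum_congr rfl
            intro k hk
            rw [Finset.mem_range] at hk
            rw [hzle k hk.le, hzle (k + 1) hk]
        _ ≤ ∑ k ∈ Finset.range n, ENNReal.ofReal (l s(v k, v (k + 1))) := by
            apply Finset.sum_le_sum_of_subset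
            exact Finset.range_mono hin
    · calc ∑' k, ENNReal.ofReal (l s(z (k + i), z (k + i + 1)))
          = ∑' k, ENNReal.ofReal (l s(v' (k + j), v' (k + j + 1))) := by
            apply tsum_congr
            intro k
            rw [hzge (k + i) (by omega), hzge (k + i + 1) (by omega)]
            have h1 : j + (k + i - i) = k + j := by omega
            have h2 : j + (k + i + 1 - i) = k + j + 1 := by omega
            rw [h1, h2]
        _ ≤ pathLength l v' := by
            rw [pathLength_split v' j]
            exact le_add_self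
  have hzexp : IsExploding α lam w u l 0 z := by
    refine ⟨?_, hzinj, hzadj, ?_⟩
    · rw [hzle 0 (Nat.zero_le _)]; exact hv1.start
    · refine lt_of_le_of_lt hzlen ?_
      refine ENNReal.add_lt_top.mpr ⟨?_, hv'.finite_length⟩
      exact ENNReal.sum_lt_top.mpr (fun _ _ => ENNReal.ofReal_lt_top)
  have hmain := (hv2 z hzexp).trans hzlen
  rw [pathLength_split v n] at hmain
  have hfin : ∑ k ∈ Finset.range n, ENNReal.ofReal (l s(v k, v (k + 1))) ≠ ∞ :=
    (ENNReal.sum_lt_top.mpr (fun _ _ => ENNReal.ofReal_lt_top)).ne
  have h3 := (ENNReal.add_le_add_iff_left hfin).mp hmain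
  refine le_trans ?_ h3
  have := ENNReal.le_tsum (f := fun k => ENNReal.ofReal (l s(v (k + n), v (k + n + 1)))) 0
  simpa using this

/-- prepend one edge to an exploding path (or cut it) -/
lemma exists_exploding_of_adj {x y : Fin d → ℤ} (hxy : Adj α lam w u x y)
    (h : ∃ v, IsExploding α lam w u l y v) : ∃ v, IsExploding α lam w u l x v := by
  obtain ⟨v, hv⟩ := h
  by_cases hx : ∃ j, v j = x
  · obtain ⟨j, hj⟩ := hx
    refine ⟨fun k => v (k + j), by simpa using hj, ?_, ?_, ?_⟩
    · intro a b hab
      have := hv.injective hab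
      omega
    · intro n
      have : n + 1 + j = n + j + 1 := by omega
      simp only [this]
      exact hv.adj _
    · refine lt_of_le_of_lt ?_ hv.finite_length
      rw [pathLength_split v j]
      refine le_trans (le_of_eq ?_) le_add_self
      unfold pathLength
      apply tsum_congr
      intro k
      have : k + 1 + j = k + j + 1 := by omega
      simp only [this]
  · push Not at hx
    set z : ℕ → Fin d → ℤ := fun k => match k with
      | 0 => x
      | k + 1 => v k with hz
    have hz0 : z 0 = x := rfl
    have hz1 : ∀ k, z (k + 1) = v k := fun k => rfl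
    refine ⟨z, hz0, ?_, ?_, ?_⟩
    · intro a b hab
      rcases a with _ | a <;> rcases b with _ | b
      · rfl
      · rw [hz0, hz1] at hab
        exact absurd hab.symm (hx b)
      · rw [hz0, hz1] at hab
        exact absurd hab (hx a)
      · rw [hz1, hz1] at hab
        rw [hv.injective hab]
    · intro n
      rcases n with _ | n
      · rw [hz0, hz1, hv.start]; exact hxy
      · rw [hz1, hz1]; exact hv.adj n
    · rw [pathLength_split z 1]
      refine ENNReal.add_lt_top.mpr ⟨?_, ?_⟩
      · exact ENNReal.sum_lt_top.mpr (fun _ _ => ENNReal.ofReal_lt_top)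
      · exact hv.finite_length

lemma eucl_single (i : Fin d) {c : ℤ} (hc : c = 1 ∨ c = -1) :
    eucl (Pi.single i c : Fin d → ℤ) = 1 := by
  classical
  have h : ∑ j, (((Pi.single i c : Fin d → ℤ) j : ℤ) : ℝ) ^ 2 = 1 := by
    rw [Finset.sum_eq_single i]
    · rcases hc with rfl | rfl <;> simp
    · intro j _ hj
      simp [Pi.single_eq_of_ne hj]
    · intro h; exact absurd (Finset.mem_univ i) h
  rw [eucl, h, Real.sqrt_one]

/-- if some vertex has an exploding path then all vertices have one -/
lemma exists_exploding_all {y : Fin d → ℤ} (h : ∃ v, IsExploding α lam w u l y v)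
    (x : Fin d → ℤ) : ∃ v, IsExploding α lam w u l x v := by
  classical
  induction hN : ∑ i, (x i - y i).natAbs using Nat.strong_induction_on generalizing x with
  | _ N ih =>
    by_cases hxy : x = y
    · subst hxy; exact h
    · obtain ⟨i, hi⟩ := Function.ne_iff.mp hxy
      -- one step towards y
      obtain ⟨c, hc, hlt⟩ : ∃ c : ℤ, (c = 1 ∨ c = -1) ∧
          (x i + c - y i).natAbs < (x i - y i).natAbs := by
        rcases lt_or_gt_of_ne hi with h | h
        · exact ⟨1, Or.inl rfl, by omega⟩
        · exact ⟨-1, Or.inr rfl, by omega⟩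
      have hx' := ih (∑ k, ((x + Pi.single i c : Fin d → ℤ) k - y k).natAbs) (by
        rw [← hN]
        apply Finset.sum_lt_sum
        · intro k _
          by_cases hk : k = i
          · subst hk; simpa using hlt.le
          · simp [Pi.single_eq_of_ne hk]
        · exact ⟨i, Finset.mem_univ i, by simpa using hlt⟩) (x + Pi.single i c) rfl
      refine exists_exploding_of_adj (Or.inl ?_) hx'
      have : x - (x + Pi.single i c) = -Pi.single i c := by abel
      rw [this, eucl_neg]
      exact eucl_single i hc

/-- compactness: existence of a shortest exploding path -/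
lemma exists_shortest (hfin : ∀ x, {y | Adj α lam w u x y}.Finite)
    (h : ∃ v, IsExploding α lam w u l 0 v) : ∃ v, IsShortestExploding α lam w u l v := by
  classical
  let B : ℕ → Set (Fin d → ℤ) := fun n => Nat.rec {0} (fun _ S => ⋃ x ∈ S, {y | Adj α lam w u x y}) n
  have hB0 : B 0 = {0} := rfl
  have hBs : ∀ n, B (n + 1) = ⋃ x ∈ B n, {y | Adj α lam w u x y} := fun n => rfl
  have hBfin : ∀ n, (B n).Finite := by
    intro n
    induction n with
    | zero => rw [hB0]; exact Set.finite_singleton _
    | succ n ih => rw [hBs]; exact ih.biUnion (fun x _ => hfin x)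
  let K : Set (ℕ → Fin d → ℤ) := {v | v 0 = 0 ∧ Function.Injective v ∧
    ∀ n, Adj α lam w u (v n) (v (n + 1))}
  have hKsub : K ⊆ Set.univ.pi B := by
    rintro v ⟨h0, -, hadj⟩ n -
    induction n with
    | zero => rw [hB0]; exact h0
    | succ n ih =>
      rw [hBs]
      exact Set.mem_biUnion ih (hadj n)
  have hKclosed : IsClosed K := by
    have h1 : IsClosed {v : ℕ → Fin d → ℤ | v 0 = 0} :=
      isClosed_eq (continuous_apply 0) continuous_const
    have h2 : IsClosed {v : ℕ → Fin d → ℤ | Function.Injective v} := by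
      have : {v : ℕ → Fin d → ℤ | Function.Injective v} =
          ⋂ a : ℕ, ⋂ b : ℕ, {v | v a = v b → a = b} := by
        ext v; simp [Function.Injective]
      rw [this]
      refine isClosed_iInter fun a => isClosed_iInter fun b => ?_
      have hc : Continuous (fun v : ℕ → Fin d → ℤ => (v a, v b)) :=
        (continuous_apply a).prodMk (continuous_apply b)
      have hd : IsClosed {p : (Fin d → ℤ) × (Fin d → ℤ) | p.1 = p.2 → a = b} :=
        isClosed_discrete _
      exact hd.preimage hc
    have h3 : IsClosed {v : ℕ → Fin d → ℤ | ∀ n, Adj α lam w u (v n) (v (n + 1))} := by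
      rw [Set.ofPred_forall]
      refine isClosed_iInter fun n => ?_
      have hc : Continuous (fun v : ℕ → Fin d → ℤ => (v n, v (n + 1))) :=
        (continuous_apply n).prodMk (continuous_apply (n + 1))
      have hd : IsClosed {p : (Fin d → ℤ) × (Fin d → ℤ) | Adj α lam w u p.1 p.2} :=
        isClosed_discrete _
      exact hd.preimage hc
    exact h1.inter (h2.inter h3)
  have hKcomp : IsCompact K :=
    (isCompact_univ_pi (fun n => (hBfin n).isCompact)).of_isClosed_subset hKclosed hKsub
  have hlsc : LowerSemicontinuous (fun v : ℕ → Fin d → ℤ => pathLength l v) := by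
    unfold pathLength
    apply lowerSemicontinuous_tsum
    intro n
    apply Continuous.lowerSemicontinuous
    have hc : Continuous (fun v : ℕ → Fin d → ℤ => (v n, v (n + 1))) :=
      (continuous_apply n).prodMk (continuous_apply (n + 1))
    have hd : Continuous (fun p : (Fin d → ℤ) × (Fin d → ℤ) => ENNReal.ofReal (l s(p.1, p.2))) :=
      continuous_of_discreteTopology
    exact hd.comp hc
  obtain ⟨v0, hv0⟩ := h
  have hv0K : v0 ∈ K := ⟨hv0.start, hv0.injective, hv0.adj⟩
  obtain ⟨v, hvK, hvmin⟩ := LowerSemicontinuousOn.exists_isMinOn ⟨v0, hv0K⟩ hKcomp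
    (hlsc.lowerSemicontinuousOn K)
  have hmin : ∀ v' ∈ K, pathLength l v ≤ pathLength l v' := fun v' hv' => hvmin hv'
  refine ⟨v, ⟨hvK.1, hvK.2.1, hvK.2.2, ?_⟩, ?_⟩
  · exact lt_of_le_of_lt (hmin v0 hv0K) hv0.finite_length
  · intro v' hv'
    exact hmin v' ⟨hv'.start, hv'.injective, hv'.adj⟩

end Pool.Agent.SFP
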